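import Mathlib

/-!
# The Brun-Hooley sieve (abstract form)

`ι` indexes the sifting primes, `α` the objects being sifted, `hit p n` says that `n` is removed by `p`.
For a finite set `D` of primes, `cnt A hit D` counts the `n ∈ A` hit by every `p ∈ D`.
The primes are split into disjoint blocks `P j`, `j ∈ s`.
-/

namespace Pool.Agent.Lib.BrunHooley

open Finset

variable {ι α κ : Type*} [DecidableEq ι]

/-- elementary symmetric sum of degree `i` of `g` over the finite set `P`. -/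
def es (P : Finset ι) (g : ι → ℝ) (i : ℕ) : ℝ := ∑ D ∈ powersetCard i P, ∏ p ∈ D, g p

/-- truncated alternating sum. -/
def ts (P : Finset ι) (g : ι → ℝ) (b : ℕ) : ℝ := ∑ i ∈ range (b + 1), (-1) ^ i * es P g i

omit [DecidableEq ι] in
lemma es_zero (P : Finset ι) (g : ι → ℝ) : es P g 0 = 1 := by
  simp [es]

omit [DecidableEq ι] in
lemma es_empty_succ (g : ι → ℝ) (i : ℕ) : es (∅ : Finset ι) g (i + 1) = 0 := by
  unfold es
  rw [powersetCard_eq_empty.mpr (by simp)]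
  simp

lemma es_insert_succ {P : Finset ι} {q : ι} (hq : q ∉ P) (g : ι → ℝ) (i : ℕ) :
    es (insert q P) g (i + 1) = es P g (i + 1) + g q * es P g i := by
  unfold es
  rw [powersetCard_succ_insert hq, sum_union, sum_image, mul_sum]
  · congr 1
    refine sum_congr rfl fun D hD => ?_
    have hqD : q ∉ D := fun h => hq ((mem_powersetCard.mp hD).1 h)
    rw [prod_insert hqD]
  · intro D₁ h₁ D₂ h₂ h
    have h1 : q ∉ D₁ := fun h => hq ((mem_powersetCard.mp h₁).1 h)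
    have h2 : q ∉ D₂ := fun h => hq ((mem_powersetCard.mp h₂).1 h)
    have := congrArg (fun s => s.erase q) h
    simpa [erase_insert h1, erase_insert h2] using this
  · rw [disjoint_left]
    intro D hD hD'
    obtain ⟨D', _, rfl⟩ := mem_image.mp hD'
    exact hq ((mem_powersetCard.mp hD).1 (mem_insert_self _ _))

lemma ts_insert_succ {P : Finset ι} {q : ι} (hq : q ∉ P) (g : ι → ℝ) (b : ℕ) :
    ts (insert q P) g (b + 1) = ts P g (b + 1) - g q * ts P g b := by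
  unfold ts
  rw [sum_range_succ' _ (b + 1), sum_range_succ' _ (b + 1), es_zero, es_zero]
  simp only [es_insert_succ hq]
  rw [mul_sum]
  have : ∀ i, (-1 : ℝ) ^ (i + 1) * (es P g (i + 1) + g q * es P g i)
      = (-1) ^ (i + 1) * es P g (i + 1) - g q * ((-1) ^ i * es P g i) := by
    intro i; ring
  simp only [this, sum_sub_distrib]
  ring

omit [DecidableEq ι] in
lemma ts_zero (P : Finset ι) (g : ι → ℝ) : ts P g 0 = 1 := by
  simp [ts, es_zero]

omit [DecidableEq ι] in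
lemma es_nonneg (P : Finset ι) (g : ι → ℝ) (hg : ∀ p ∈ P, 0 ≤ g p) (i : ℕ) : 0 ≤ es P g i := by
  unfold es
  refine sum_nonneg fun D hD => prod_nonneg fun p hp => hg p ((mem_powersetCard.mp hD).1 hp)

/-- Bonferroni inequalities with error term. -/
lemma bonferroni (P : Finset ι) (g : ι → ℝ) (h0 : ∀ p ∈ P, 0 ≤ g p) (h1 : ∀ p ∈ P, g p ≤ 1) :
    ∀ b : ℕ, 0 ≤ (-1) ^ b * (ts P g b - ∏ p ∈ P, (1 - g p)) ∧
      (-1) ^ b * (ts P g b - ∏ p ∈ P, (1 - g p)) ≤ es P g (b + 1) := by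
  induction P using Finset.induction_on with
  | empty =>
    intro b
    have : ts (∅ : Finset ι) g b = 1 := by
      unfold ts
      rw [sum_range_succ']
      simp [es_empty_succ, es_zero]
    simp [this, es_empty_succ]
  | insert q P hq ih =>
    have h0' : ∀ p ∈ P, 0 ≤ g p := fun p hp => h0 p (mem_insert_of_mem hp)
    have h1' : ∀ p ∈ P, g p ≤ 1 := fun p hp => h1 p (mem_insert_of_mem hp)
    have hq0 : 0 ≤ g q := h0 q (mem_insert_self _ _)
    have hq1 : g q ≤ 1 := h1 q (mem_insert_self _ _)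
    have ih := ih h0' h1'
    intro b
    rw [prod_insert hq]
    set V := ∏ p ∈ P, (1 - g p) with hV
    have hV0 : 0 ≤ V := prod_nonneg fun p hp => by linarith [h1' p hp]
    have hV1 : V ≤ 1 := prod_le_one (fun p hp => by linarith [h1' p hp])
      (fun p hp => by linarith [h0' p hp])
    cases b with
    | zero =>
      rw [ts_zero, es_insert_succ hq, es_zero]
      have := (ih 0).2
      rw [ts_zero] at this
      simp only [pow_zero, one_mul, zero_add] at this ⊢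
      constructor
      · nlinarith
      · nlinarith
    | succ b =>
      rw [ts_insert_succ hq, es_insert_succ hq]
      have a1 := ih (b + 1)
      have a2 := ih b
      have key : (-1 : ℝ) ^ (b + 1) * (ts P g (b + 1) - g q * ts P g b - (1 - g q) * V)
          = (-1) ^ (b + 1) * (ts P g (b + 1) - V) + g q * ((-1) ^ b * (ts P g b - V)) := by
        ring
      rw [key]
      constructor
      · have := mul_nonneg hq0 a2.1
        linarith [a1.1]
      · have := mul_le_mul_of_nonneg_left a2.2 hq0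
        linarith [a1.2]

omit [DecidableEq ι] in
lemma pow_succ_add_le (W x : ℝ) (hW : 0 ≤ W) (hx : 0 ≤ x) (i : ℕ) :
    W ^ (i + 1) + (i + 1) * (x * W ^ i) ≤ (x + W) ^ (i + 1) := by
  induction i with
  | zero => simp; linarith
  | succ i ih =>
    have h := mul_le_mul_of_nonneg_left ih (add_nonneg hx hW)
    have h1 : 0 ≤ ((i : ℝ) + 1) * (x * x * W ^ i) := by positivity
    have h2 : (x + W) * (x + W) ^ (i + 1) = (x + W) ^ (i + 1 + 1) := by ring
    have h3 : (x + W) * (W ^ (i + 1) + (i + 1) * (x * W ^ i))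
        = W ^ (i + 1 + 1) + (((i : ℝ) + 1) + 1) * (x * W ^ (i + 1)) + (i + 1) * (x * x * W ^ i) := by
      ring
    push_cast
    linarith

lemma es_le_pow_div (P : Finset ι) (g : ι → ℝ) (h0 : ∀ p ∈ P, 0 ≤ g p) :
    ∀ i : ℕ, es P g i ≤ (∑ p ∈ P, g p) ^ i / (i.factorial : ℝ) := by
  induction P using Finset.induction_on with
  | empty =>
    intro i
    cases i with
    | zero => simp [es_zero]
    | succ i => simp [es_empty_succ]
  | insert q P hq ih =>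
    have h0' : ∀ p ∈ P, 0 ≤ g p := fun p hp => h0 p (mem_insert_of_mem hp)
    have hq0 : 0 ≤ g q := h0 q (mem_insert_self _ _)
    have ih := ih h0'
    intro i
    cases i with
    | zero => simp [es_zero]
    | succ i =>
      rw [es_insert_succ hq, sum_insert hq]
      set W := ∑ p ∈ P, g p with hW
      have hW0 : 0 ≤ W := sum_nonneg h0'
      have e1 := ih (i + 1)
      have e2 := mul_le_mul_of_nonneg_left (ih i) hq0
      have hf : (0 : ℝ) < ((i + 1).factorial : ℝ) := by exact_mod_cast Nat.factorial_pos _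
      have hf' : (0 : ℝ) < (i.factorial : ℝ) := by exact_mod_cast Nat.factorial_pos _
      have e3 : W ^ (i + 1) + (i + 1) * (g q * W ^ i) ≤ (g q + W) ^ (i + 1) := by
        exact_mod_cast pow_succ_add_le W (g q) hW0 hq0 i
      have e4 : g q * (W ^ i / (i.factorial : ℝ)) = ((i + 1) * (g q * W ^ i)) / ((i + 1).factorial : ℝ) := by
        rw [Nat.factorial_succ]
        push_cast
        field_simp
      calc es P g (i + 1) + g q * es P g i
          ≤ W ^ (i + 1) / ((i + 1).factorial : ℝ) + g q * (W ^ i / (i.factorial : ℝ)) := by linarith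
        _ = (W ^ (i + 1) + (i + 1) * (g q * W ^ i)) / ((i + 1).factorial : ℝ) := by
            rw [e4]; ring
        _ ≤ (g q + W) ^ (i + 1) / ((i + 1).factorial : ℝ) := by
            gcongr

/-- Linearisation: a sum over `A` of a product over blocks of linear combinations of
`∏ p ∈ D, h p n` is approximated by the product of the corresponding densities. -/
lemma linearize (A : Finset α) (a : α → ℝ) (h : ι → α → ℝ) (X : ℝ) (g ω : ι → ℝ) (U : Finset ι)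
    (hA : ∀ D ⊆ U, |∑ n ∈ A, a n * ∏ p ∈ D, h p n - X * ∏ p ∈ D, g p| ≤ ∏ p ∈ D, ω p)
    (P : κ → Finset ι) (F : κ → Finset (Finset ι)) (c : κ → Finset ι → ℝ) (s : Finset κ) :
    (∀ j ∈ s, ∀ k ∈ s, j ≠ k → Disjoint (P j) (P k)) →
    (∀ j ∈ s, ∀ D ∈ F j, D ⊆ P j) → (∀ j ∈ s, P j ⊆ U) →
    ∀ D₀ ⊆ U, (∀ j ∈ s, Disjoint D₀ (P j)) →
    |∑ n ∈ A, a n * (∏ p ∈ D₀, h p n) * ∏ j ∈ s, ∑ D ∈ F j, c j D * ∏ p ∈ D, h p n
      - X * (∏ p ∈ D₀, g p) * ∏ j ∈ s, ∑ D ∈ F j, c j D * ∏ p ∈ D, g p|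
      ≤ (∏ p ∈ D₀, ω p) * ∏ j ∈ s, ∑ D ∈ F j, |c j D| * ∏ p ∈ D, ω p := by
  classical
  induction s using Finset.induction_on with
  | empty =>
    intro _ _ _ D₀ hD₀ _
    simpa using hA D₀ hD₀
  | insert k s hk ih =>
    intro hdisj hF hU D₀ hD₀ hD₀d
    have ih := ih (fun i hi j hj => hdisj i (mem_insert_of_mem hi) j (mem_insert_of_mem hj))
      (fun i hi => hF i (mem_insert_of_mem hi)) (fun i hi => hU i (mem_insert_of_mem hi))
    have hdk : ∀ D ∈ F k, Disjoint D₀ D := fun D hD =>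
      (hD₀d k (mem_insert_self _ _)).mono_right (hF k (mem_insert_self _ _) D hD)
    have ihD : ∀ D ∈ F k,
        |∑ n ∈ A, a n * (∏ p ∈ D₀ ∪ D, h p n) * ∏ j ∈ s, ∑ D ∈ F j, c j D * ∏ p ∈ D, h p n
        - X * (∏ p ∈ D₀ ∪ D, g p) * ∏ j ∈ s, ∑ D ∈ F j, c j D * ∏ p ∈ D, g p|
        ≤ (∏ p ∈ D₀ ∪ D, ω p) * ∏ j ∈ s, ∑ D ∈ F j, |c j D| * ∏ p ∈ D, ω p := by
      intro D hD
      have hDk := hF k (mem_insert_self _ _) D hD
      refine ih (D₀ ∪ D) (union_subset hD₀ (hDk.trans (hU k (mem_insert_self _ _)))) ?_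
      intro j hj
      rw [disjoint_union_left]
      refine ⟨hD₀d j (mem_insert_of_mem hj), ?_⟩
      exact (hdisj k (mem_insert_self _ _) j (mem_insert_of_mem hj)
        (fun e => hk (e ▸ hj))).mono_left hDk
    simp only [prod_insert hk]
    have e1 : ∑ n ∈ A, a n * (∏ p ∈ D₀, h p n) * ((∑ D ∈ F k, c k D * ∏ p ∈ D, h p n)
          * ∏ j ∈ s, ∑ D ∈ F j, c j D * ∏ p ∈ D, h p n)
        = ∑ D ∈ F k, c k D * ∑ n ∈ A, a n * (∏ p ∈ D₀ ∪ D, h p n)
          * ∏ j ∈ s, ∑ D ∈ F j, c j D * ∏ p ∈ D, h p n := by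
      simp_rw [mul_sum, sum_mul, mul_sum]
      rw [sum_comm]
      refine sum_congr rfl fun D hD => sum_congr rfl fun n _ => ?_
      rw [prod_union (hdk D hD)]
      ring
    have e2 : X * (∏ p ∈ D₀, g p) * ((∑ D ∈ F k, c k D * ∏ p ∈ D, g p)
          * ∏ j ∈ s, ∑ D ∈ F j, c j D * ∏ p ∈ D, g p)
        = ∑ D ∈ F k, c k D * (X * (∏ p ∈ D₀ ∪ D, g p)
          * ∏ j ∈ s, ∑ D ∈ F j, c j D * ∏ p ∈ D, g p) := by
      rw [sum_mul, mul_sum]
      refine sum_congr rfl fun D hD => ?_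
      rw [prod_union (hdk D hD)]
      ring
    have e3 : (∏ p ∈ D₀, ω p) * ((∑ D ∈ F k, |c k D| * ∏ p ∈ D, ω p)
          * ∏ j ∈ s, ∑ D ∈ F j, |c j D| * ∏ p ∈ D, ω p)
        = ∑ D ∈ F k, |c k D| * ((∏ p ∈ D₀ ∪ D, ω p)
          * ∏ j ∈ s, ∑ D ∈ F j, |c j D| * ∏ p ∈ D, ω p) := by
      rw [sum_mul, mul_sum]
      refine sum_congr rfl fun D hD => ?_
      rw [prod_union (hdk D hD)]
      ring
    rw [e1, e2, e3, ← sum_sub_distrib]
    refine (abs_sum_le_sum_abs _ _).trans (sum_le_sum fun D hD => ?_)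
    rw [← mul_sub, abs_mul]
    exact mul_le_mul_of_nonneg_left (ihD D hD) (abs_nonneg _)

omit [DecidableEq ι] in
lemma ts_eq_sum_powerset (P : Finset ι) (g : ι → ℝ) (b : ℕ) :
    ∑ D ∈ P.powerset with #D ≤ b, (-1) ^ #D * ∏ p ∈ D, g p = ts P g b := by
  classical
  unfold ts es
  rw [← sum_fiberwise_of_maps_to (t := range (b + 1)) (g := fun D : Finset ι => #D)]
  · refine sum_congr rfl fun i hi => ?_
    rw [mul_sum]
    refine sum_congr ?_ ?_
    · ext D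
      simp only [mem_filter, mem_powerset, mem_powersetCard]
      have := mem_range.mp hi
      constructor
      · rintro ⟨⟨h1, _⟩, h3⟩; exact ⟨h1, h3⟩
      · rintro ⟨h1, h3⟩; exact ⟨⟨h1, by omega⟩, h3⟩
    · intro D hD
      rw [(mem_powersetCard.mp hD).2]
  · intro D hD
    have := (mem_filter.mp hD).2
    exact mem_range.mpr (by omega)

omit [DecidableEq ι] in
lemma tsabs_eq_sum_powerset (P : Finset ι) (g : ι → ℝ) (b : ℕ) :
    ∑ D ∈ P.powerset with #D ≤ b, |(-1 : ℝ) ^ #D| * ∏ p ∈ D, g p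
      = ∑ i ∈ range (b + 1), es P g i := by
  classical
  unfold es
  rw [← sum_fiberwise_of_maps_to (t := range (b + 1)) (g := fun D : Finset ι => #D)]
  · refine sum_congr rfl fun i hi => ?_
    refine sum_congr ?_ ?_
    · ext D
      simp only [mem_filter, mem_powerset, mem_powersetCard]
      have := mem_range.mp hi
      constructor
      · rintro ⟨⟨h1, _⟩, h3⟩; exact ⟨h1, h3⟩
      · rintro ⟨h1, h3⟩; exact ⟨⟨h1, by omega⟩, h3⟩
    · intro D hD
      simp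
  · intro D hD
    have := (mem_filter.mp hD).2
    exact mem_range.mpr (by omega)

/-- product inequality used for the lower bound sieve. -/
lemma prod_sub_le [DecidableEq κ] (s : Finset κ) (x y e : κ → ℝ) (hx : ∀ j ∈ s, 0 ≤ x j)
    (hxy : ∀ j ∈ s, x j ≤ y j) (hy : ∀ j ∈ s, y j ≤ x j + e j) :
    ∏ j ∈ s, y j - ∏ j ∈ s, x j ≤ ∑ l ∈ s, e l * ∏ j ∈ s.erase l, y j := by
  induction s using Finset.induction_on with
  | empty => simp
  | insert k s hk ih =>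
    have ih := ih (fun j hj => hx j (mem_insert_of_mem hj)) (fun j hj => hxy j (mem_insert_of_mem hj))
      (fun j hj => hy j (mem_insert_of_mem hj))
    have hx0 := hx k (mem_insert_self _ _)
    have hxy0 := hxy k (mem_insert_self _ _)
    have hy0 := hy k (mem_insert_self _ _)
    have hY : 0 ≤ ∏ j ∈ s, y j := prod_nonneg fun j hj =>
      (hx j (mem_insert_of_mem hj)).trans (hxy j (mem_insert_of_mem hj))
    have hYX : ∏ j ∈ s, x j ≤ ∏ j ∈ s, y j := prod_le_prod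
      (fun j hj => hx j (mem_insert_of_mem hj)) (fun j hj => hxy j (mem_insert_of_mem hj))
    rw [prod_insert hk, prod_insert hk, sum_insert hk, erase_insert hk]
    have e1 : ∑ l ∈ s, e l * ∏ j ∈ (insert k s).erase l, y j
        = y k * ∑ l ∈ s, e l * ∏ j ∈ s.erase l, y j := by
      rw [mul_sum]
      refine sum_congr rfl fun l hl => ?_
      have hkl : k ≠ l := fun e => hk (e ▸ hl)
      rw [erase_insert_of_ne hkl, prod_insert (fun h => hk (mem_of_mem_erase h))]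
      ring
    rw [e1]
    have h1 : (y k - x k) * ∏ j ∈ s, y j ≤ e k * ∏ j ∈ s, y j :=
      mul_le_mul_of_nonneg_right (by linarith) hY
    have h2 : x k * (∏ j ∈ s, y j - ∏ j ∈ s, x j)
        ≤ y k * ∑ l ∈ s, e l * ∏ j ∈ s.erase l, y j :=
      mul_le_mul hxy0 ih (by linarith) (hx0.trans hxy0)
    calc y k * ∏ j ∈ s, y j - x k * ∏ j ∈ s, x j
        = (y k - x k) * ∏ j ∈ s, y j + x k * (∏ j ∈ s, y j - ∏ j ∈ s, x j) := by ring
      _ ≤ _ := by linarith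

section main

variable (A : Finset α) (a : α → ℝ) (h : ι → α → ℝ) (X : ℝ) (g ω : ι → ℝ)
  (P : κ → Finset ι) (b : κ → ℕ) (s : Finset κ)

/-- sum over blocks: upper-bound functional linearised. -/
lemma sum_prod_ts_le [DecidableEq κ] (U : Finset ι)
    (hA : ∀ D ⊆ U, |∑ n ∈ A, a n * ∏ p ∈ D, h p n - X * ∏ p ∈ D, g p| ≤ ∏ p ∈ D, ω p)
    (hdisj : ∀ j ∈ s, ∀ k ∈ s, j ≠ k → Disjoint (P j) (P k)) (hU : ∀ j ∈ s, P j ⊆ U)
    (D₀ : Finset ι) (hD₀ : D₀ ⊆ U) (hD₀d : ∀ j ∈ s, Disjoint D₀ (P j)) :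
    |∑ n ∈ A, a n * (∏ p ∈ D₀, h p n) * ∏ j ∈ s, ts (P j) (fun p => h p n) (b j)
      - X * (∏ p ∈ D₀, g p) * ∏ j ∈ s, ts (P j) g (b j)|
      ≤ (∏ p ∈ D₀, ω p) * ∏ j ∈ s, ∑ i ∈ range (b j + 1), es (P j) ω i := by
  have := linearize A a h X g ω U hA P (fun j => {D ∈ (P j).powerset | #D ≤ b j})
    (fun _ D => (-1) ^ #D) s hdisj (fun j _ D hD => mem_powerset.mp (mem_filter.mp hD).1) hU D₀ hD₀ hD₀d
  simpa only [ts_eq_sum_powerset, tsabs_eq_sum_powerset] using this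

/-- **Brun-Hooley upper bound.** -/
theorem upper [DecidableEq κ] (ha : ∀ n ∈ A, 0 ≤ a n)
    (h0 : ∀ p, ∀ n ∈ A, 0 ≤ h p n) (h1 : ∀ p, ∀ n ∈ A, h p n ≤ 1)
    (hdisj : ∀ j ∈ s, ∀ k ∈ s, j ≠ k → Disjoint (P j) (P k))
    (hA : ∀ D ⊆ s.biUnion P, |∑ n ∈ A, a n * ∏ p ∈ D, h p n - X * ∏ p ∈ D, g p| ≤ ∏ p ∈ D, ω p)
    (hb : ∀ j ∈ s, Even (b j)) :
    ∑ n ∈ A, a n * ∏ j ∈ s, ∏ p ∈ P j, (1 - h p n)
      ≤ X * ∏ j ∈ s, ts (P j) g (b j) + ∏ j ∈ s, ∑ i ∈ range (b j + 1), es (P j) ω i := by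
  have e := sum_prod_ts_le A a h X g ω P b s (s.biUnion P) hA hdisj
    (fun j hj => subset_biUnion_of_mem P hj) ∅ (by simp) (by simp)
  simp only [prod_empty, mul_one, one_mul] at e
  have e1 := (abs_le.mp e).2
  have e2 : ∑ n ∈ A, a n * ∏ j ∈ s, ∏ p ∈ P j, (1 - h p n)
      ≤ ∑ n ∈ A, a n * ∏ j ∈ s, ts (P j) (fun p => h p n) (b j) := by
    refine sum_le_sum fun n hn => mul_le_mul_of_nonneg_left ?_ (ha n hn)
    refine prod_le_prod (fun j _ => prod_nonneg fun p _ => by linarith [h1 p n hn]) ?_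
    intro j hj
    have := (bonferroni (P j) (fun p => h p n) (fun p _ => h0 p n hn) (fun p _ => h1 p n hn) (b j)).1
    rw [(hb j hj).neg_one_pow] at this
    linarith
  linarith

/-- **Brun-Hooley lower bound.** -/
theorem lower [DecidableEq κ] (ha : ∀ n ∈ A, 0 ≤ a n)
    (h0 : ∀ p, ∀ n ∈ A, 0 ≤ h p n) (h1 : ∀ p, ∀ n ∈ A, h p n ≤ 1)
    (hdisj : ∀ j ∈ s, ∀ k ∈ s, j ≠ k → Disjoint (P j) (P k))
    (hA : ∀ D ⊆ s.biUnion P, |∑ n ∈ A, a n * ∏ p ∈ D, h p n - X * ∏ p ∈ D, g p| ≤ ∏ p ∈ D, ω p)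
    (hb : ∀ j ∈ s, Even (b j)) :
    X * (∏ j ∈ s, ts (P j) g (b j) - ∑ l ∈ s, es (P l) g (b l + 1) * ∏ j ∈ s.erase l, ts (P j) g (b j))
      - (∏ j ∈ s, ∑ i ∈ range (b j + 1), es (P j) ω i
        + ∑ l ∈ s, es (P l) ω (b l + 1) * ∏ j ∈ s.erase l, ∑ i ∈ range (b j + 1), es (P j) ω i)
      ≤ ∑ n ∈ A, a n * ∏ j ∈ s, ∏ p ∈ P j, (1 - h p n) := by
  have e := sum_prod_ts_le A a h X g ω P b s (s.biUnion P) hA hdisj
    (fun j hj => subset_biUnion_of_mem P hj) ∅ (by simp) (by simp)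
  simp only [prod_empty, mul_one, one_mul] at e
  have e1 := (abs_le.mp e).1
  have hl : ∀ l ∈ s, ∑ n ∈ A, a n * (es (P l) (fun p => h p n) (b l + 1)
        * ∏ j ∈ s.erase l, ts (P j) (fun p => h p n) (b j))
      ≤ X * (es (P l) g (b l + 1) * ∏ j ∈ s.erase l, ts (P j) g (b j))
        + es (P l) ω (b l + 1) * ∏ j ∈ s.erase l, ∑ i ∈ range (b j + 1), es (P j) ω i := by
    intro l hl
    have hsub : s.erase l ⊆ s := erase_subset _ _
    have key : ∀ D₀ ∈ powersetCard (b l + 1) (P l),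
        ∑ n ∈ A, a n * (∏ p ∈ D₀, h p n) * ∏ j ∈ s.erase l, ts (P j) (fun p => h p n) (b j)
        ≤ X * (∏ p ∈ D₀, g p) * ∏ j ∈ s.erase l, ts (P j) g (b j)
          + (∏ p ∈ D₀, ω p) * ∏ j ∈ s.erase l, ∑ i ∈ range (b j + 1), es (P j) ω i := by
      intro D₀ hD₀
      have hD₀l := (mem_powersetCard.mp hD₀).1
      have := sum_prod_ts_le A a h X g ω P b (s.erase l) (s.biUnion P) hA
        (fun j hj k hk => hdisj j (hsub hj) k (hsub hk))
        (fun j hj => subset_biUnion_of_mem P (hsub hj)) D₀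
        (hD₀l.trans (subset_biUnion_of_mem P hl))
        (fun j hj => (hdisj l hl j (hsub hj) (ne_of_mem_erase hj).symm).mono_left hD₀l)
      linarith [(abs_le.mp this).2]
    have := sum_le_sum key
    rw [sum_add_distrib, sum_comm] at this
    unfold es
    calc _ = ∑ n ∈ A, ∑ D₀ ∈ powersetCard (b l + 1) (P l), a n * (∏ p ∈ D₀, h p n)
          * ∏ j ∈ s.erase l, ts (P j) (fun p => h p n) (b j) := by
          refine sum_congr rfl fun n _ => ?_
          rw [sum_mul, mul_sum]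
          exact sum_congr rfl fun D _ => by ring
      _ ≤ _ := this
      _ = _ := by
          rw [sum_mul, sum_mul, mul_sum]
          congr 1
          exact sum_congr rfl fun D _ => by ring
  have e2 : ∀ n ∈ A, a n * (∏ j ∈ s, ts (P j) (fun p => h p n) (b j))
      - a n * (∏ j ∈ s, ∏ p ∈ P j, (1 - h p n))
      ≤ ∑ l ∈ s, a n * (es (P l) (fun p => h p n) (b l + 1)
        * ∏ j ∈ s.erase l, ts (P j) (fun p => h p n) (b j)) := by
    intro n hn
    rw [← mul_sub, ← mul_sum]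
    refine mul_le_mul_of_nonneg_left ?_ (ha n hn)
    refine prod_sub_le s _ _ _ ?_ ?_ ?_
    · exact fun j _ => prod_nonneg fun p _ => by linarith [h1 p n hn]
    · intro j hj
      have := (bonferroni (P j) (fun p => h p n) (fun p _ => h0 p n hn) (fun p _ => h1 p n hn) (b j)).1
      rw [(hb j hj).neg_one_pow] at this
      linarith
    · intro j hj
      have := (bonferroni (P j) (fun p => h p n) (fun p _ => h0 p n hn) (fun p _ => h1 p n hn) (b j)).2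
      rw [(hb j hj).neg_one_pow] at this
      linarith
  have e3 := sum_le_sum e2
  rw [sum_sub_distrib, sum_comm] at e3
  have e4 := sum_le_sum hl
  rw [sum_add_distrib, ← mul_sum] at e4
  rw [mul_sub]
  linarith

end main

lemma sum_es_le (P : Finset ι) (g : ι → ℝ) (h0 : ∀ p ∈ P, 0 ≤ g p) (b : ℕ) :
    ∑ i ∈ range (b + 1), es P g i ≤ (1 + ∑ p ∈ P, g p) ^ b := by
  rw [add_comm (1 : ℝ) (∑ p ∈ P, g p), add_pow (∑ p ∈ P, g p) 1 b]
  refine sum_le_sum fun i hi => ?_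
  have hW : 0 ≤ ∑ p ∈ P, g p := sum_nonneg h0
  refine (es_le_pow_div P g h0 i).trans ?_
  rw [one_pow, mul_one]
  have h1 : (1 : ℝ) ≤ (b.choose i : ℝ) := by
    exact_mod_cast Nat.choose_pos (by have := mem_range.mp hi; omega)
  have h2 : (1 : ℝ) ≤ (i.factorial : ℝ) := by exact_mod_cast Nat.factorial_pos i
  calc (∑ p ∈ P, g p) ^ i / (i.factorial : ℝ) ≤ (∑ p ∈ P, g p) ^ i := div_le_self (by positivity) h2
    _ ≤ _ := le_mul_of_one_le_right (by positivity) h1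

lemma es_le_pow (P : Finset ι) (g : ι → ℝ) (h0 : ∀ p ∈ P, 0 ≤ g p) (i : ℕ) :
    es P g i ≤ (1 + ∑ p ∈ P, g p) ^ i := by
  have hW : 0 ≤ ∑ p ∈ P, g p := sum_nonneg h0
  refine (es_le_pow_div P g h0 i).trans ?_
  have h2 : (1 : ℝ) ≤ (i.factorial : ℝ) := by exact_mod_cast Nat.factorial_pos i
  calc (∑ p ∈ P, g p) ^ i / (i.factorial : ℝ) ≤ (∑ p ∈ P, g p) ^ i := div_le_self (by positivity) h2
    _ ≤ _ := by gcongr; linarith

section main

variable (A : Finset α) (a : α → ℝ) (h : ι → α → ℝ) (X : ℝ) (g ω : ι → ℝ)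
  (P : κ → Finset ι) (b : κ → ℕ) (s : Finset κ)

/-- lower bound in terms of `V = ∏ (1 - g p)`. -/
theorem lower' [DecidableEq κ] (ha : ∀ n ∈ A, 0 ≤ a n)
    (h0 : ∀ p, ∀ n ∈ A, 0 ≤ h p n) (h1 : ∀ p, ∀ n ∈ A, h p n ≤ 1) (hX : 0 ≤ X)
    (hω : ∀ p, 0 ≤ ω p) (hg0 : ∀ j ∈ s, ∀ p ∈ P j, 0 ≤ g p) (hg1 : ∀ j ∈ s, ∀ p ∈ P j, g p < 1)
    (hdisj : ∀ j ∈ s, ∀ k ∈ s, j ≠ k → Disjoint (P j) (P k))
    (hA : ∀ D ⊆ s.biUnion P, |∑ n ∈ A, a n * ∏ p ∈ D, h p n - X * ∏ p ∈ D, g p| ≤ ∏ p ∈ D, ω p)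
    (hb : ∀ j ∈ s, Even (b j))
    (hE : ∑ j ∈ s, es (P j) g (b j + 1) / ∏ p ∈ P j, (1 - g p) ≤ 1 / 2) :
    X / 2 * ∏ j ∈ s, ∏ p ∈ P j, (1 - g p)
      - (∏ j ∈ s, (1 + ∑ p ∈ P j, ω p) ^ b j) * (1 + ∑ l ∈ s, (1 + ∑ p ∈ P l, ω p))
      ≤ ∑ n ∈ A, a n * ∏ j ∈ s, ∏ p ∈ P j, (1 - h p n) := by
  refine le_trans ?_ (lower A a h X g ω P b s ha h0 h1 hdisj hA hb)
  have hV0 : ∀ j ∈ s, 0 < ∏ p ∈ P j, (1 - g p) := fun j hj =>
    prod_pos fun p hp => by linarith [hg1 j hj p hp]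
  have hVY : ∀ j ∈ s, ∏ p ∈ P j, (1 - g p) ≤ ts (P j) g (b j) := by
    intro j hj
    have := (bonferroni (P j) g (hg0 j hj) (fun p hp => (hg1 j hj p hp).le) (b j)).1
    rw [(hb j hj).neg_one_pow] at this
    linarith
  have hY0 : ∀ j ∈ s, 0 < ts (P j) g (b j) := fun j hj => (hV0 j hj).trans_le (hVY j hj)
  have hE0 : ∀ j ∈ s, 0 ≤ es (P j) g (b j + 1) := fun j hj => es_nonneg _ _ (hg0 j hj) _
  have key1 : (1 / 2) * ∏ j ∈ s, ∏ p ∈ P j, (1 - g p) ≤
      ∏ j ∈ s, ts (P j) g (b j)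
        - ∑ l ∈ s, es (P l) g (b l + 1) * ∏ j ∈ s.erase l, ts (P j) g (b j) := by
    have e1 : ∀ l ∈ s, es (P l) g (b l + 1) * ∏ j ∈ s.erase l, ts (P j) g (b j)
        ≤ (es (P l) g (b l + 1) / ∏ p ∈ P l, (1 - g p)) * ∏ j ∈ s, ts (P j) g (b j) := by
      intro l hl
      rw [← mul_prod_erase s _ hl, ← mul_assoc]
      refine mul_le_mul_of_nonneg_right ?_ (prod_nonneg fun j hj => (hY0 j (erase_subset _ _ hj)).le)
      rw [div_mul_eq_mul_div, le_div_iff₀ (hV0 l hl)]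
      exact mul_le_mul_of_nonneg_left (hVY l hl) (hE0 l hl)
    have e2 := sum_le_sum e1
    rw [← sum_mul] at e2
    have hPY : 0 < ∏ j ∈ s, ts (P j) g (b j) := prod_pos hY0
    have e3 : ∏ j ∈ s, ∏ p ∈ P j, (1 - g p) ≤ ∏ j ∈ s, ts (P j) g (b j) :=
      prod_le_prod (fun j hj => (hV0 j hj).le) hVY
    nlinarith
  have key2 : ∏ j ∈ s, ∑ i ∈ range (b j + 1), es (P j) ω i
        + ∑ l ∈ s, es (P l) ω (b l + 1) * ∏ j ∈ s.erase l, ∑ i ∈ range (b j + 1), es (P j) ω i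
      ≤ (∏ j ∈ s, (1 + ∑ p ∈ P j, ω p) ^ b j) * (1 + ∑ l ∈ s, (1 + ∑ p ∈ P l, ω p)) := by
    rw [mul_add, mul_one, mul_sum]
    have hM : ∀ j ∈ s, ∑ i ∈ range (b j + 1), es (P j) ω i ≤ (1 + ∑ p ∈ P j, ω p) ^ b j :=
      fun j _ => sum_es_le _ _ (fun p _ => hω p) _
    have hM0 : ∀ j ∈ s, 0 ≤ ∑ i ∈ range (b j + 1), es (P j) ω i := fun j _ =>
      sum_nonneg fun i _ => es_nonneg _ _ (fun p _ => hω p) _
    refine add_le_add (prod_le_prod hM0 hM) (sum_le_sum fun l hl => ?_)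
    have hWl : 0 ≤ ∑ p ∈ P l, ω p := sum_nonneg fun p _ => hω p
    rw [← mul_prod_erase s (fun j => (1 + ∑ p ∈ P j, ω p) ^ b j) hl]
    calc es (P l) ω (b l + 1) * ∏ j ∈ s.erase l, ∑ i ∈ range (b j + 1), es (P j) ω i
        ≤ (1 + ∑ p ∈ P l, ω p) ^ (b l + 1) * ∏ j ∈ s.erase l, (1 + ∑ p ∈ P j, ω p) ^ b j :=
          mul_le_mul (es_le_pow _ _ (fun p _ => hω p) _)
            (prod_le_prod (fun j hj => hM0 j (erase_subset _ _ hj))
              (fun j hj => hM j (erase_subset _ _ hj)))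
            (prod_nonneg fun j hj => hM0 j (erase_subset _ _ hj)) (by positivity)
      _ = _ := by rw [pow_succ]; ring
  have := mul_le_mul_of_nonneg_left key1 hX
  linarith

/-- upper bound in terms of `V = ∏ (1 - g p)`. -/
theorem upper' [DecidableEq κ] (ha : ∀ n ∈ A, 0 ≤ a n)
    (h0 : ∀ p, ∀ n ∈ A, 0 ≤ h p n) (h1 : ∀ p, ∀ n ∈ A, h p n ≤ 1) (hX : 0 ≤ X)
    (hω : ∀ p, 0 ≤ ω p) (hg0 : ∀ j ∈ s, ∀ p ∈ P j, 0 ≤ g p) (hg1 : ∀ j ∈ s, ∀ p ∈ P j, g p < 1)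
    (hdisj : ∀ j ∈ s, ∀ k ∈ s, j ≠ k → Disjoint (P j) (P k))
    (hA : ∀ D ⊆ s.biUnion P, |∑ n ∈ A, a n * ∏ p ∈ D, h p n - X * ∏ p ∈ D, g p| ≤ ∏ p ∈ D, ω p)
    (hb : ∀ j ∈ s, Even (b j))
    (hE : ∑ j ∈ s, es (P j) g (b j + 1) / ∏ p ∈ P j, (1 - g p) ≤ 1 / 2) :
    ∑ n ∈ A, a n * ∏ j ∈ s, ∏ p ∈ P j, (1 - h p n) ≤
    2 * X * ∏ j ∈ s, ∏ p ∈ P j, (1 - g p) + ∏ j ∈ s, (1 + ∑ p ∈ P j, ω p) ^ b j := by
  refine (upper A a h X g ω P b s ha h0 h1 hdisj hA hb).trans ?_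
  have hV0 : ∀ j ∈ s, 0 < ∏ p ∈ P j, (1 - g p) := fun j hj =>
    prod_pos fun p hp => by linarith [hg1 j hj p hp]
  have hE0 : ∀ j ∈ s, 0 ≤ es (P j) g (b j + 1) := fun j hj => es_nonneg _ _ (hg0 j hj) _
  have hVY : ∀ j ∈ s, ∏ p ∈ P j, (1 - g p) ≤ ts (P j) g (b j) := by
    intro j hj
    have := (bonferroni (P j) g (hg0 j hj) (fun p hp => (hg1 j hj p hp).le) (b j)).1
    rw [(hb j hj).neg_one_pow] at this
    linarith
  have hYV : ∀ j ∈ s, ts (P j) g (b j) ≤ (∏ p ∈ P j, (1 - g p))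
      * Real.exp (es (P j) g (b j + 1) / ∏ p ∈ P j, (1 - g p)) := by
    intro j hj
    have := (bonferroni (P j) g (hg0 j hj) (fun p hp => (hg1 j hj p hp).le) (b j)).2
    rw [(hb j hj).neg_one_pow] at this
    have h2 := Real.add_one_le_exp (es (P j) g (b j + 1) / ∏ p ∈ P j, (1 - g p))
    have h3 := mul_le_mul_of_nonneg_left h2 (hV0 j hj).le
    have h4 : (∏ p ∈ P j, (1 - g p)) * (es (P j) g (b j + 1) / ∏ p ∈ P j, (1 - g p) + 1)
        = es (P j) g (b j + 1) + ∏ p ∈ P j, (1 - g p) := by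
      have := (hV0 j hj).ne'
      field_simp
    linarith
  have key : ∏ j ∈ s, ts (P j) g (b j) ≤ 2 * ∏ j ∈ s, ∏ p ∈ P j, (1 - g p) := by
    calc ∏ j ∈ s, ts (P j) g (b j) ≤ ∏ j ∈ s, ((∏ p ∈ P j, (1 - g p))
          * Real.exp (es (P j) g (b j + 1) / ∏ p ∈ P j, (1 - g p))) :=
          prod_le_prod (fun j hj => (hV0 j hj).le.trans (hVY j hj)) hYV
      _ = (∏ j ∈ s, ∏ p ∈ P j, (1 - g p))
          * Real.exp (∑ j ∈ s, es (P j) g (b j + 1) / ∏ p ∈ P j, (1 - g p)) := by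
          rw [prod_mul_distrib, Real.exp_sum]
      _ ≤ (∏ j ∈ s, ∏ p ∈ P j, (1 - g p)) * 2 := by
          refine mul_le_mul_of_nonneg_left ?_ (prod_nonneg fun j hj => (hV0 j hj).le)
          refine (Real.exp_le_exp.mpr hE).trans ?_
          have : Real.exp (1 / 2) ^ 2 ≤ 2 ^ 2 := by
            rw [← Real.exp_nat_mul]
            have := Real.exp_one_lt_d9
            norm_num
            linarith
          exact le_of_sq_le_sq this (by norm_num)
      _ = _ := by ring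
  have hM : ∏ j ∈ s, ∑ i ∈ range (b j + 1), es (P j) ω i ≤ ∏ j ∈ s, (1 + ∑ p ∈ P j, ω p) ^ b j :=
    prod_le_prod (fun j _ => sum_nonneg fun i _ => es_nonneg _ _ (fun p _ => hω p) _)
      (fun j _ => sum_es_le _ _ (fun p _ => hω p) _)
  have := mul_le_mul_of_nonneg_left key hX
  linarith

end main

end Pool.Agent.Lib.BrunHooley
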