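import Mathlib

set_option autoImplicit false

namespace Pool.Agent.Lib.K5

/-- A `K₅` model in `G`: five pairwise disjoint, pairwise adjacent vertex sets, each of which
induces a connected (in particular nonempty) subgraph. -/
def HasK5Model {V : Type} (G : SimpleGraph V) : Prop :=
  ∃ B : Fin 5 → Set V, (∀ i, (G.induce (B i)).Connected) ∧
    (∀ i j, i ≠ j → Disjoint (B i) (B j)) ∧
    (∀ i j, i ≠ j → ∃ u ∈ B i, ∃ v ∈ B j, G.Adj u v)

end Pool.Agent.Lib.K5
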