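import Mathlib
import Pool.Agent.Lib.K5Model
set_option autoImplicit false
namespace Pool.Agent.Lib.K5

open Finset

/-- A union of connected bags along a connected set of indices is connected. -/
theorem union_connected {V W : Type} {G : SimpleGraph V} {H : SimpleGraph W} (B : W → Set V)
    (hc : ∀ w, (G.induce (B w)).Connected)
    (he : ∀ w w', H.Adj w w' → ∃ u ∈ B w, ∃ v ∈ B w', G.Adj u v) (C : Set W)
    (hC : (H.induce C).Connected) : (G.induce (⋃ w ∈ C, B w)).Connected := by
  classical
  have hsub : ∀ w : C, B w.1 ⊆ ⋃ w ∈ C, B w := fun w x hx => by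
    simp only [Set.mem_iUnion]
    exact ⟨w.1, w.2, hx⟩
  have hin : ∀ (w : C) (x y : V) (hx : x ∈ B w.1) (hy : y ∈ B w.1),
      (G.induce (⋃ w ∈ C, B w)).Reachable ⟨x, hsub w hx⟩ ⟨y, hsub w hy⟩ := by
    intro w x y hx hy
    have h := (hc w.1).preconnected ⟨x, hx⟩ ⟨y, hy⟩
    exact h.map (G.induceHomOfLE (hsub w)).toHom
  have key : ∀ (a c : C) (p : (H.induce C).Walk a c) (x y : V) (hx : x ∈ B a.1) (hy : y ∈ B c.1),
      (G.induce (⋃ w ∈ C, B w)).Reachable ⟨x, hsub a hx⟩ ⟨y, hsub c hy⟩ := by
    intro a c p
    induction p with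
    | nil => intro x y hx hy; exact hin _ _ _ hx hy
    | @cons a b c h p ih =>
      intro x y hx hy
      obtain ⟨u, hu, v, hv, huv⟩ := he a.1 b.1 (by simpa using h)
      refine (hin a x u hx hu).trans (SimpleGraph.Reachable.trans ?_ (ih v y hv hy))
      apply SimpleGraph.Adj.reachable
      simpa using huv
  obtain ⟨w₀⟩ := hC.nonempty
  obtain ⟨u₀⟩ := (hc w₀.1).nonempty
  have : Nonempty (⋃ w ∈ C, B w : Set V) := ⟨⟨u₀.1, hsub w₀ u₀.2⟩⟩
  refine ⟨?_⟩
  rintro ⟨x, hx⟩ ⟨y, hy⟩
  simp only [Set.mem_iUnion] at hx hy
  obtain ⟨a, ha, hxa⟩ := hx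
  obtain ⟨c, hc', hyc⟩ := hy
  obtain ⟨p⟩ := hC.preconnected ⟨a, ha⟩ ⟨c, hc'⟩
  exact key _ _ p x y hxa hyc

/-- models compose -/
theorem HasK5Model.lift {V W : Type} {G : SimpleGraph V} {H : SimpleGraph W} (B : W → Set V)
    (hc : ∀ w, (G.induce (B w)).Connected)
    (hd : ∀ w w', w ≠ w' → Disjoint (B w) (B w'))
    (he : ∀ w w', H.Adj w w' → ∃ u ∈ B w, ∃ v ∈ B w', G.Adj u v)
    (h : HasK5Model H) : HasK5Model G := by
  obtain ⟨C, hC, hCd, hCe⟩ := h
  refine ⟨fun i => ⋃ w ∈ C i, B w, fun i => union_connected B hc he (C i) (hC i), ?_, ?_⟩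
  · intro i j hij
    rw [Set.disjoint_left]
    intro x hx hy
    simp only [Set.mem_iUnion] at hx hy
    obtain ⟨a, ha, hxa⟩ := hx
    obtain ⟨c, hc', hyc⟩ := hy
    by_cases hac : a = c
    · subst hac
      exact Set.disjoint_left.mp (hCd i j hij) ha hc'
    · exact Set.disjoint_left.mp (hd a c hac) hxa hyc
  · intro i j hij
    obtain ⟨w, hw, w', hw', hww⟩ := hCe i j hij
    obtain ⟨u, hu, v, hv, huv⟩ := he w w' hww
    refine ⟨u, ?_, v, ?_, huv⟩
    · simp only [Set.mem_iUnion]; exact ⟨w, hw, hu⟩
    · simp only [Set.mem_iUnion]; exact ⟨w', hw', hv⟩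

theorem singleton_connected {V : Type} (G : SimpleGraph V) (v : V) :
    (G.induce ({v} : Set V)).Connected := by
  have : Nonempty ({v} : Set V) := ⟨⟨v, rfl⟩⟩
  exact ⟨SimpleGraph.Preconnected.of_subsingleton⟩

theorem HasK5Model.mono {V : Type} {G H : SimpleGraph V} (hle : H ≤ G) (h : HasK5Model H) :
    HasK5Model G := by
  refine h.lift (fun v => {v}) (fun v => singleton_connected G v) ?_ ?_
  · intro w w' h; simpa using h
  · intro w w' h; exact ⟨w, rfl, w', rfl, hle h⟩

theorem HasK5Model.of_induce {V : Type} {G : SimpleGraph V} (s : Set V)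
    (h : HasK5Model (G.induce s)) : HasK5Model G := by
  refine h.lift (fun v : s => {v.1}) (fun v => singleton_connected G v) ?_ ?_
  · intro w w' h
    simpa using fun h' => h (Subtype.ext h')
  · intro w w' h; exact ⟨w, rfl, w', rfl, by simpa using h⟩

/-- `K₅` itself -/
theorem model_five {V : Type} {G : SimpleGraph V} (B : Fin 5 → V)
    (h : ∀ i j, i < j → G.Adj (B i) (B j)) : HasK5Model G := by
  have h' : ∀ i j, i ≠ j → G.Adj (B i) (B j) := by
    intro i j hij
    rcases lt_or_gt_of_ne hij with h1 | h1
    · exact h i j h1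
    · exact (h j i h1).symm
  refine ⟨fun i => {B i}, fun i => singleton_connected G _, ?_, ?_⟩
  · intro i j hij
    simpa using (h' i j hij).ne
  · intro i j hij
    exact ⟨B i, rfl, B j, rfl, h' i j hij⟩

/-- the six-vertex model -/
theorem model_six {V : Type} {G : SimpleGraph V} {v z a b c d : V}
    (hva : G.Adj v a) (hvb : G.Adj v b) (hvc : G.Adj v c) (hvd : G.Adj v d) (hvz : G.Adj v z)
    (hza : G.Adj z a) (hzb : G.Adj z b) (hzc : G.Adj z c) (hzd : G.Adj z d)
    (hac : G.Adj a c) (had : G.Adj a d) (hbc : G.Adj b c) (hbd : G.Adj b d)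
    (hab : a ≠ b) (hcd : c ≠ d) : HasK5Model G := by
  have key : ∀ i j : Fin 5, i < j →
      Disjoint ((![{v}, {z}, {a}, {c}, {b, d}] : Fin 5 → Set V) i)
        ((![{v}, {z}, {a}, {c}, {b, d}] : Fin 5 → Set V) j) ∧
      ∃ u ∈ (![{v}, {z}, {a}, {c}, {b, d}] : Fin 5 → Set V) i,
        ∃ w ∈ (![{v}, {z}, {a}, {c}, {b, d}] : Fin 5 → Set V) j, G.Adj u w := by
    have n1 := hva.ne
    have n2 := hvb.ne
    have n3 := hvc.ne
    have n4 := hvd.ne
    have n5 := hvz.ne
    have n6 := hza.ne
    have n7 := hzb.ne
    have n8 := hzc.ne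
    have n9 := hzd.ne
    have n10 := hac.ne
    have n11 := had.ne
    have n12 := hbc.ne
    have n13 := hbd.ne
    intro i j hij
    fin_cases i <;> fin_cases j <;> simp at hij ⊢ <;> simp_all [eq_comm]
    exact Or.inl hbc.symm
  refine ⟨![{v}, {z}, {a}, {c}, {b, d}], ?_, ?_, ?_⟩
  · intro i
    fin_cases i
    · exact singleton_connected G _
    · exact singleton_connected G _
    · exact singleton_connected G _
    · exact singleton_connected G _
    · exact SimpleGraph.induce_pair_connected_of_adj hbd
  · intro i j hij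
    rcases lt_or_gt_of_ne hij with h1 | h1
    · exact (key i j h1).1
    · exact (key j i h1).1.symm
  · intro i j hij
    rcases lt_or_gt_of_ne hij with h1 | h1
    · exact (key i j h1).2
    · obtain ⟨u, hu, w, hw, huw⟩ := (key j i h1).2
      exact ⟨w, hw, u, hu, huw.symm⟩

/-- contraction of `y` into `x` -/
def contr {V : Type} [DecidableEq V] (x y : V) (hxy : x ≠ y) (u : V) : {v : V // v ≠ y} :=
  if h : u = y then ⟨x, hxy⟩ else ⟨u, h⟩

theorem contr_self {V : Type} [DecidableEq V] (x y : V) (hxy : x ≠ y) :
    contr x y hxy y = ⟨x, hxy⟩ := by simp [contr]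

theorem contr_of_ne {V : Type} [DecidableEq V] (x y : V) (hxy : x ≠ y) (u : V) (hu : u ≠ y) :
    contr x y hxy u = ⟨u, hu⟩ := by simp [contr, hu]

theorem contr_eq {V : Type} [DecidableEq V] {x y : V} {hxy : x ≠ y} {u v : V}
    (h : contr x y hxy u = contr x y hxy v) : u = v ∨ (u = x ∧ v = y) ∨ (u = y ∧ v = x) := by
  by_cases hu : u = y
  · by_cases hv : v = y
    · left; rw [hu, hv]
    · rw [hu, contr_self, contr_of_ne _ _ _ _ hv] at h
      right; right
      exact ⟨hu, (congrArg Subtype.val h).symm⟩
  · by_cases hv : v = y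
    · rw [hv, contr_self, contr_of_ne _ _ _ _ hu] at h
      right; left
      exact ⟨congrArg Subtype.val h, hv⟩
    · rw [contr_of_ne _ _ _ _ hv, contr_of_ne _ _ _ _ hu] at h
      left
      exact congrArg Subtype.val h

theorem model_of_contr {V : Type} [DecidableEq V] {G : SimpleGraph V} {x y : V} (hxy : x ≠ y)
    (hadj : G.Adj x y) (h : HasK5Model (G.map (contr x y hxy))) : HasK5Model G := by
  refine h.lift (fun w => {u | contr x y hxy u = w}) ?_ ?_ ?_
  · intro w
    by_cases hw : w.1 = x
    · have : {u | contr x y hxy u = w} = {x, y} := by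
        ext u
        simp only [Set.mem_ofPred_eq, Set.mem_insert_iff, Set.mem_singleton_iff]
        constructor
        · intro hu
          by_cases huy : u = y
          · exact Or.inr huy
          · rw [contr_of_ne _ _ _ _ huy] at hu
            left
            rw [← hw, ← hu]
        · rintro (rfl | rfl)
          · rw [contr_of_ne _ _ _ _ hxy]; exact Subtype.ext hw.symm
          · rw [contr_self]; exact Subtype.ext hw.symm
      rw [this]
      exact SimpleGraph.induce_pair_connected_of_adj hadj
    · have : {u | contr x y hxy u = w} = {w.1} := by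
        ext u
        simp only [Set.mem_ofPred_eq, Set.mem_singleton_iff]
        constructor
        · intro hu
          by_cases huy : u = y
          · rw [huy, contr_self] at hu
            exact absurd (congrArg Subtype.val hu).symm hw
          · rw [contr_of_ne _ _ _ _ huy] at hu
            exact congrArg Subtype.val hu
        · rintro rfl
          rw [contr_of_ne _ _ _ _ w.2]
      rw [this]
      exact singleton_connected G _
  · intro w w' hww
    rw [Set.disjoint_left]
    intro u hu hu'
    exact hww (hu.symm.trans hu')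
  · intro w w' hww
    rw [SimpleGraph.map_adj'] at hww
    obtain ⟨-, u, v, huv, rfl, rfl⟩ := hww
    exact ⟨u, rfl, v, rfl, huv⟩

theorem card_contr {V : Type} [Fintype V] [DecidableEq V] (G : SimpleGraph V)
    [DecidableRel G.Adj] {x y : V} (hxy : x ≠ y)
    [DecidableRel (G.map (contr x y hxy)).Adj]
    (hc : (G.neighborFinset x ∩ G.neighborFinset y).card ≤ 2) :
    G.edgeFinset.card ≤ (G.map (contr x y hxy)).edgeFinset.card + 3 := by
  classical
  set bad : Finset (Sym2 V) := insert s(x, y)
    ((G.neighborFinset x ∩ G.neighborFinset y).image fun z => s(y, z)) with hbad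
  have hbc : bad.card ≤ 3 := by
    refine (Finset.card_insert_le _ _).trans ?_
    have := Finset.card_image_le (s := G.neighborFinset x ∩ G.neighborFinset y)
      (f := fun z => s(y, z))
    omega
  have h1 : G.edgeFinset.card ≤ (G.edgeFinset \ bad).card + bad.card := by
    have := Finset.le_card_sdiff bad G.edgeFinset
    omega
  have h2 : (G.edgeFinset \ bad).card ≤ (G.map (contr x y hxy)).edgeFinset.card := by
    have hne : ∀ u v : V, s(u, v) ∈ G.edgeFinset \ bad → contr x y hxy u ≠ contr x y hxy v := by
      intro u v h he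
      rw [Finset.mem_sdiff, SimpleGraph.mem_edgeFinset, SimpleGraph.mem_edgeSet] at h
      rcases contr_eq he with h' | ⟨rfl, rfl⟩ | ⟨rfl, rfl⟩
      · exact h.1.ne h'
      · exact h.2 (by simp [hbad])
      · exact h.2 (by simp [hbad, Sym2.eq_swap])
    have hcom : ∀ v : V, G.Adj x v → G.Adj y v → s(y, v) ∈ bad := by
      intro v h h'
      rw [hbad]
      refine Finset.mem_insert_of_mem (Finset.mem_image.mpr ⟨v, ?_, rfl⟩)
      simp [h, h']
    have hcom' : ∀ v : V, G.Adj v x → G.Adj v y → s(v, y) ∈ bad := by
      intro v h h'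
      rw [Sym2.eq_swap]
      exact hcom v h.symm h'.symm
    have hxyb : s(x, y) ∈ bad := by simp [hbad]
    -- injectivity in ordered form
    have hord : ∀ u v u' v' : V, s(u, v) ∈ G.edgeFinset \ bad → s(u', v') ∈ G.edgeFinset \ bad →
        contr x y hxy u = contr x y hxy u' → contr x y hxy v = contr x y hxy v' →
        s(u, v) = s(u', v') := by
      intro u v u' v' h h' hu hv
      rw [Finset.mem_sdiff, SimpleGraph.mem_edgeFinset, SimpleGraph.mem_edgeSet] at h h'
      rcases contr_eq hu with h3 | ⟨h3, h4⟩ | ⟨h3, h4⟩ <;>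
      rcases contr_eq hv with h5 | ⟨h5, h6⟩ | ⟨h5, h6⟩
      · rw [h3, h5]
      · rw [← h3, h6] at h'
        rw [h5] at h
        exact absurd (hcom' u h.1 h'.1) h'.2
      · rw [← h3, h6] at h'
        rw [h5] at h
        exact absurd (hcom' u h'.1 h.1) h.2
      · rw [h3] at h
        rw [h4, ← h5] at h'
        exact absurd (hcom v h.1 h'.1) h'.2
      · rw [h3, h5] at h
        exact absurd h.1 (G.irrefl)
      · rw [h3, h5] at h
        exact absurd hxyb h.2
      · rw [h3] at h
        rw [h4, ← h5] at h'
        exact absurd (hcom v h'.1 h.1) h.2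
      · rw [h3, h5, Sym2.eq_swap] at h
        exact absurd hxyb h.2
      · rw [h3, h5] at h
        exact absurd h.1 (G.irrefl)
    refine Finset.card_le_card_of_injOn (Sym2.map (contr x y hxy)) ?_ ?_
    · intro e he
      induction e using Sym2.inductionOn with
      | hf u v =>
        have h := hne u v he
        have he' := Finset.mem_coe.mp he
        rw [Finset.mem_sdiff, SimpleGraph.mem_edgeFinset, SimpleGraph.mem_edgeSet] at he'
        simp only [Sym2.map_mk, SimpleGraph.coe_edgeFinset, SimpleGraph.mem_edgeSet]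
        rw [SimpleGraph.map_adj']
        exact ⟨h, u, v, he'.1, rfl, rfl⟩
    · intro e he e' he' hee
      induction e using Sym2.inductionOn with
      | hf u v =>
        induction e' using Sym2.inductionOn with
        | hf u' v' =>
          simp only [Sym2.map_mk, Sym2.eq_iff] at hee
          rcases hee with ⟨h3, h4⟩ | ⟨h3, h4⟩
          · exact hord u v u' v' he he' h3 h4
          · rw [Sym2.eq_swap (a := u')] at he' ⊢
            exact hord u v v' u' he he' h3 h4
  omega

/-- the local configuration -/
theorem model_of_local {V : Type} [Fintype V] [DecidableEq V] (G : SimpleGraph V)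
    [DecidableRel G.Adj] (v : V) (hd : G.degree v = 4 ∨ G.degree v = 5)
    (hcn : ∀ u, G.Adj v u → 3 ≤ (G.neighborFinset v ∩ G.neighborFinset u).card) :
    HasK5Model G := by
  classical
  have hmem : ∀ u, u ∈ G.neighborFinset v ↔ G.Adj v u := fun u => by simp
  rcases hd with hd | hd
  · -- all neighbours adjacent
    have hall : ∀ u w, G.Adj v u → G.Adj v w → u ≠ w → G.Adj u w := by
      intro u w hu hw huw
      have h1 : G.neighborFinset v ∩ G.neighborFinset u ⊆ (G.neighborFinset v).erase u := by
        intro t ht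
        rw [Finset.mem_inter, SimpleGraph.mem_neighborFinset, SimpleGraph.mem_neighborFinset] at ht
        rw [Finset.mem_erase, SimpleGraph.mem_neighborFinset]
        exact ⟨ht.2.ne', ht.1⟩
      have h2 : ((G.neighborFinset v).erase u).card = 3 := by
        rw [Finset.card_erase_of_mem ((hmem u).2 hu), SimpleGraph.card_neighborFinset_eq_degree, hd]
      have h3 := Finset.eq_of_subset_of_card_le h1 (by rw [h2]; exact hcn u hu)
      have h4 : w ∈ (G.neighborFinset v).erase u :=
        Finset.mem_erase.mpr ⟨huw.symm, (hmem w).2 hw⟩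
      rw [← h3, Finset.mem_inter, SimpleGraph.mem_neighborFinset,
        SimpleGraph.mem_neighborFinset] at h4
      exact h4.2
    obtain ⟨a, b, c, d, hab, hac, had, hbc, hbd, hcd, hN⟩ :=
      Finset.card_eq_four.mp ((SimpleGraph.card_neighborFinset_eq_degree G v).trans hd)
    have ha : G.Adj v a := (hmem a).1 (by rw [hN]; simp)
    have hb : G.Adj v b := (hmem b).1 (by rw [hN]; simp)
    have hc : G.Adj v c := (hmem c).1 (by rw [hN]; simp)
    have hd' : G.Adj v d := (hmem d).1 (by rw [hN]; simp)
    refine model_five ![v, a, b, c, d] ?_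
    intro i j hij
    have e1 := hall a b ha hb hab
    have e2 := hall a c ha hc hac
    have e3 := hall a d ha hd' had
    have e4 := hall b c hb hc hbc
    have e5 := hall b d hb hd' hbd
    have e6 := hall c d hc hd' hcd
    fin_cases i <;> fin_cases j <;> simp at hij ⊢ <;> assumption
  · have hone : ∀ u w w', G.Adj v u → G.Adj v w → G.Adj v w' → u ≠ w → u ≠ w' → w ≠ w' →
        ¬ G.Adj u w → G.Adj u w' := by
      intro u w w' hu hw hw' huw huw' hww' hn
      by_contra hn'
      have h1 : G.neighborFinset v ∩ G.neighborFinset u ⊆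
          (((G.neighborFinset v).erase u).erase w).erase w' := by
        intro t ht
        rw [Finset.mem_inter, SimpleGraph.mem_neighborFinset, SimpleGraph.mem_neighborFinset] at ht
        simp only [Finset.mem_erase, SimpleGraph.mem_neighborFinset]
        refine ⟨?_, ?_, ht.2.ne', ht.1⟩
        · rintro rfl; exact hn' ht.2
        · rintro rfl; exact hn ht.2
      have h2 := Finset.card_le_card h1
      have h3 := hcn u hu
      rw [Finset.card_erase_of_mem, Finset.card_erase_of_mem, Finset.card_erase_of_mem,
        SimpleGraph.card_neighborFinset_eq_degree, hd] at h2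
      · omega
      · exact (hmem u).2 hu
      · exact Finset.mem_erase.mpr ⟨huw.symm, (hmem w).2 hw⟩
      · exact Finset.mem_erase.mpr ⟨hww'.symm, Finset.mem_erase.mpr ⟨huw'.symm, (hmem w').2 hw'⟩⟩
    by_cases hex : ∃ a b, G.Adj v a ∧ G.Adj v b ∧ a ≠ b ∧ ¬ G.Adj a b
    · obtain ⟨a, b, ha, hb, hab, hnab⟩ := hex
      have hR : (((G.neighborFinset v).erase a).erase b).card = 3 := by
        rw [Finset.card_erase_of_mem, Finset.card_erase_of_mem,
          SimpleGraph.card_neighborFinset_eq_degree, hd]
        · exact (hmem a).2 ha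
        · exact Finset.mem_erase.mpr ⟨hab.symm, (hmem b).2 hb⟩
      obtain ⟨c, d, e, hcd, hce, hde, hR'⟩ := Finset.card_eq_three.mp hR
      have hin : ∀ t ∈ ({c, d, e} : Finset V), t ≠ b ∧ t ≠ a ∧ G.Adj v t := by
        intro t ht
        rw [← hR'] at ht
        simpa using ht
      obtain ⟨hcb, hca, hc⟩ := hin c (by simp)
      obtain ⟨hdb, hda, hd'⟩ := hin d (by simp)
      obtain ⟨heb, hea, he⟩ := hin e (by simp)
      have hnba : ¬ G.Adj b a := fun h => hnab h.symm
      have ac := hone a b c ha hb hc hab hca.symm hcb.symm hnab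
      have ad := hone a b d ha hb hd' hab hda.symm hdb.symm hnab
      have ae := hone a b e ha hb he hab hea.symm heb.symm hnab
      have bc := hone b a c hb ha hc hab.symm hcb.symm hca.symm hnba
      have bd := hone b a d hb ha hd' hab.symm hdb.symm hda.symm hnba
      have be := hone b a e hb ha he hab.symm heb.symm hea.symm hnba
      by_cases h1 : G.Adj c d
      · by_cases h2 : G.Adj c e
        · exact model_six ha hb hd' he hc ac.symm bc.symm h1 h2 ad ae bd be hab hde
        · have h3 : G.Adj e d := hone e c d he hc hd' hce.symm hde.symm hcd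
            (fun h => h2 h.symm)
          exact model_six ha hb hc he hd' ad.symm bd.symm h1.symm h3.symm ac ae bc be hab hce
      · have h2 : G.Adj c e := hone c d e hc hd' he hcd hce hde h1
        have h3 : G.Adj d e := hone d c e hd' hc he hcd.symm hde hce (fun h => h1 h.symm)
        exact model_six ha hb hc hd' he ae.symm be.symm h2.symm h3.symm ac ad bc bd hab hcd
    · push Not at hex
      obtain ⟨t, ht, ht4⟩ := Finset.exists_subset_card_eq (s := G.neighborFinset v) (n := 4)
        (by rw [SimpleGraph.card_neighborFinset_eq_degree, hd]; norm_num)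
      obtain ⟨a, b, c, d, hab, hac, had, hbc, hbd, hcd, hN⟩ := Finset.card_eq_four.mp ht4
      have ha : G.Adj v a := (hmem a).1 (ht (by rw [hN]; simp))
      have hb : G.Adj v b := (hmem b).1 (ht (by rw [hN]; simp))
      have hc : G.Adj v c := (hmem c).1 (ht (by rw [hN]; simp))
      have hd' : G.Adj v d := (hmem d).1 (ht (by rw [hN]; simp))
      refine model_five ![v, a, b, c, d] ?_
      intro i j hij
      have e1 := hex a b ha hb hab
      have e2 := hex a c ha hc hac
      have e3 := hex a d ha hd' had
      have e4 := hex b c hb hc hbc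
      have e5 := hex b d hb hd' hbd
      have e6 := hex c d hc hd' hcd
      fin_cases i <;> fin_cases j <;> simp at hij ⊢ <;> assumption

/-- Mader: `n ≥ 3` vertices and at least `3n - 5` edges force a `K₅` model. -/
theorem hasK5Model_of_card (n : ℕ) : ∀ (V : Type) [Fintype V] [DecidableEq V]
    (G : SimpleGraph V) [DecidableRel G.Adj], Fintype.card V = n → 3 ≤ n →
    3 * n ≤ G.edgeFinset.card + 5 → HasK5Model G := by
  classical
  induction n using Nat.strong_induction_on with
  | _ n ih =>
    intro V _ _ G _ hn h3 hE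
    -- pass to a subgraph with exactly `3n-5` edges
    obtain ⟨S, hS, hScard⟩ := Finset.exists_subset_card_eq (s := G.edgeFinset) (n := 3 * n - 5)
      (by omega)
    obtain ⟨H, hHG, hHE⟩ : ∃ H : SimpleGraph V, H ≤ G ∧ H.edgeFinset.card = 3 * n - 5 := by
      refine ⟨SimpleGraph.fromEdgeSet (S : Set (Sym2 V)), ?_, ?_⟩
      · intro a b hab
        rw [SimpleGraph.fromEdgeSet_adj] at hab
        have := hS (Finset.mem_coe.mp hab.1)
        rwa [SimpleGraph.mem_edgeFinset, SimpleGraph.mem_edgeSet] at this
      · have hgen : ∀ (H : SimpleGraph V) (_ : Fintype H.edgeSet), H.edgeSet = (S : Set (Sym2 V)) →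
            H.edgeFinset.card = S.card := by
          intro H inst h
          congr 1
          ext e
          rw [SimpleGraph.mem_edgeFinset, h]
          simp
        rw [← hScard]
        refine hgen _ _ ?_
        ext e
        induction e using Sym2.inductionOn with
        | hf u v =>
          rw [SimpleGraph.mem_edgeSet, SimpleGraph.fromEdgeSet_adj]
          constructor
          · intro h; exact h.1
          · intro h
            refine ⟨h, ?_⟩
            have := hS (Finset.mem_coe.mp h)
            rw [SimpleGraph.mem_edgeFinset, SimpleGraph.mem_edgeSet] at this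
            exact this.ne
    refine HasK5Model.mono hHG ?_
    have hn5 : 5 ≤ n := by
      by_contra hlt
      have h1 := H.card_edgeFinset_le_card_choose_two
      rw [hn] at h1
      have : n = 3 ∨ n = 4 := by omega
      rcases this with rfl | rfl
      · rw [hHE] at h1; revert h1; decide
      · rw [hHE] at h1; revert h1; decide
    -- a vertex of small degree
    obtain ⟨v, hv⟩ : ∃ v, H.degree v ≤ 5 := by
      by_contra hcon
      push Not at hcon
      have h1 := H.sum_degrees_eq_twice_card_edges
      have h2 : ∑ _v : V, 6 ≤ ∑ v, H.degree v := Finset.sum_le_sum fun v _ => hcon v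
      rw [Finset.sum_const, Finset.card_univ, hn, smul_eq_mul, h1, hHE] at h2
      omega
    by_cases hv3 : H.degree v ≤ 3
    · refine HasK5Model.of_induce ({v}ᶜ : Set V) ?_
      refine ih (n - 1) (by omega) _ _ ?_ (by omega) ?_
      · rw [Fintype.card_compl_set, hn]; simp
      · have h1 := H.card_edgeFinset_induce_compl_singleton v
        rw [h1, H.card_edgeFinset_deleteIncidenceSet v, hHE]
        omega
    · by_cases hc : ∃ u, H.Adj v u ∧ (H.neighborFinset v ∩ H.neighborFinset u).card ≤ 2
      · obtain ⟨u, hu, hcu⟩ := hc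
        refine model_of_contr hu.ne hu ?_
        refine ih (n - 1) (by omega) _ _ ?_ (by omega) ?_
        · rw [Fintype.card_subtype_compl, hn]; simp
        · have h1 := card_contr H hu.ne hcu
          omega
      · push Not at hc
        exact model_of_local H v (by omega) (fun u hu => hc u hu)

theorem card_edges_le {V : Type} [Fintype V] [DecidableEq V] (G : SimpleGraph V)
    [DecidableRel G.Adj] (h : ¬ HasK5Model G) : G.edgeFinset.card ≤ 3 * Fintype.card V := by
  by_contra hlt
  push Not at hlt
  rcases Nat.lt_or_ge (Fintype.card V) 3 with h3 | h3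
  · have h1 := G.card_edgeFinset_le_card_choose_two
    have h2 : (Fintype.card V).choose 2 ≤ 3 * Fintype.card V := by
      interval_cases Fintype.card V <;> decide
    omega
  · exact h (hasK5Model_of_card _ V G rfl h3 (by omega))

end Pool.Agent.Lib.K5
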