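import Mathlib

set_option autoImplicit false

open Set MeasureTheory TopologicalSpace Filter Topology

namespace Pool.Agent.Lib.LusinNovikov

/-!
# The Lusin–Novikov and Feldman–Moore theorems

* `lusin_novikov`: a countable-to-one measurable map between standard Borel spaces is injective on
  each of countably many measurable sets that cover its domain.
* `feldman_moore`: a countable Borel equivalence relation on a standard Borel space is generated by
  countably many measurable involutions (in the strong sense: `E x y ↔ ∃ n, T n x = y`).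
-/

section small

variable {P X : Type*} [MeasurableSpace P]

/-- `A` is covered by countably many measurable sets on which `π` is injective. -/
def Small (π : P → X) (A : Set P) : Prop :=
  ∃ 𝒮 : Set (Set P), 𝒮.Countable ∧ (∀ B ∈ 𝒮, MeasurableSet B ∧ InjOn π B) ∧ A ⊆ ⋃₀ 𝒮

lemma Small.mono {π : P → X} {A A' : Set P} (h : Small π A) (hA : A' ⊆ A) : Small π A' := by
  obtain ⟨𝒮, h1, h2, h3⟩ := h
  exact ⟨𝒮, h1, h2, hA.trans h3⟩

lemma Small.iUnion {ι : Type*} [Countable ι] {π : P → X} {A : ι → Set P}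
    (h : ∀ i, Small π (A i)) : Small π (⋃ i, A i) := by
  choose 𝒮 h1 h2 h3 using h
  refine ⟨⋃ i, 𝒮 i, countable_iUnion h1, ?_, ?_⟩
  · intro B hB
    obtain ⟨i, hi⟩ := mem_iUnion.1 hB
    exact h2 i B hi
  · intro y hy
    obtain ⟨i, hi⟩ := mem_iUnion.1 hy
    obtain ⟨B, hB, hyB⟩ := h3 i hi
    exact ⟨B, mem_iUnion.2 ⟨i, hB⟩, hyB⟩

lemma small_of_injOn {π : P → X} {B : Set P} (hB : MeasurableSet B) (h : InjOn π B) :
    Small π B :=
  ⟨{B}, countable_singleton B, by rintro _ rfl; exact ⟨hB, h⟩, by simp⟩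

lemma Small.union {π : P → X} {A A' : Set P} (h : Small π A) (h' : Small π A') :
    Small π (A ∪ A') := by
  rw [union_eq_iUnion]
  apply Small.iUnion
  rintro (_ | _)
  · exact h'
  · exact h

end small

lemma analyticSet_inter {X : Type*} [TopologicalSpace X] [T2Space X] {s t : Set X}
    (hs : AnalyticSet s) (ht : AnalyticSet t) : AnalyticSet (s ∩ t) := by
  rw [inter_eq_iInter]
  apply AnalyticSet.iInter
  rintro (_ | _)
  · exact ht
  · exact hs

section main

variable {P X : Type*} [TopologicalSpace P] [PolishSpace P] [MeasurableSpace P] [BorelSpace P]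
  [TopologicalSpace X] [T2Space X] [MeasurableSpace X] [OpensMeasurableSpace X]
  {π : P → X}

/-- An analytic set on which `π` is injective is contained in a Borel one. -/
lemma exists_borel_injOn [BorelSpace X] (hπ : Continuous π) {A : Set P} (hA : AnalyticSet A)
    (hinj : InjOn π A) : ∃ B, MeasurableSet B ∧ A ⊆ B ∧ InjOn π B := by
  classical
  have key : ∀ U ∈ countableBasis P, ∀ V ∈ countableBasis P, Disjoint U V →
      ∃ C : Set X, MeasurableSet C ∧ π '' (A ∩ U) ⊆ C ∧ Disjoint (π '' (A ∩ V)) C := by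
    intro U hU V hV hUV
    have hU' : AnalyticSet (A ∩ U) :=
      analyticSet_inter hA (isOpen_of_mem_countableBasis hU).measurableSet.analyticSet
    have hV' : AnalyticSet (A ∩ V) :=
      analyticSet_inter hA (isOpen_of_mem_countableBasis hV).measurableSet.analyticSet
    have hd : Disjoint (π '' (A ∩ U)) (π '' (A ∩ V)) := by
      rw [Set.disjoint_left]
      rintro _ ⟨y, ⟨hyA, hyU⟩, rfl⟩ ⟨y', ⟨hyA', hyV⟩, he⟩
      have : y' = y := hinj hyA' hyA he
      subst this
      exact Set.disjoint_left.1 hUV hyU hyV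
    obtain ⟨C, h1, h2, h3⟩ := (hU'.image_of_continuous hπ).measurablySeparable
      (hV'.image_of_continuous hπ) hd
    exact ⟨C, h3, h1, h2⟩
  choose! C hC1 hC2 hC3 using key
  refine ⟨⋂ U ∈ countableBasis P, ⋂ V ∈ countableBasis P, ⋂ (_ : Disjoint U V),
    ((Uᶜ ∪ π ⁻¹' (C U V)) ∩ (Vᶜ ∪ (π ⁻¹' (C U V))ᶜ)), ?_, ?_, ?_⟩
  · refine MeasurableSet.biInter (countable_countableBasis P) fun U hU => ?_
    refine MeasurableSet.biInter (countable_countableBasis P) fun V hV => ?_
    refine MeasurableSet.iInter fun hUV => ?_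
    have h1 : MeasurableSet (π ⁻¹' (C U V)) := hπ.measurable (hC1 U hU V hV hUV)
    exact ((isOpen_of_mem_countableBasis hU).measurableSet.compl.union h1).inter
      ((isOpen_of_mem_countableBasis hV).measurableSet.compl.union h1.compl)
  · intro y hy
    simp only [mem_iInter]
    intro U hU V hV hUV
    constructor
    · by_cases hyU : y ∈ U
      · exact Or.inr (hC2 U hU V hV hUV ⟨y, ⟨hy, hyU⟩, rfl⟩)
      · exact Or.inl hyU
    · by_cases hyV : y ∈ V
      · exact Or.inr (Set.disjoint_left.1 (hC3 U hU V hV hUV) ⟨y, ⟨hy, hyV⟩, rfl⟩)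
      · exact Or.inl hyV
  · intro y hy y' hy' he
    by_contra hne
    obtain ⟨O, O', hO, hO', hyO, hyO', hOO⟩ := t2_separation hne
    obtain ⟨U, hU, hyU, hUO⟩ :=
      (isBasis_countableBasis P).exists_subset_of_mem_open hyO hO
    obtain ⟨V, hV, hyV, hVO⟩ :=
      (isBasis_countableBasis P).exists_subset_of_mem_open hyO' hO'
    have hUV : Disjoint U V := hOO.mono hUO hVO
    simp only [mem_iInter] at hy hy'
    have h1 := (hy U hU V hV hUV).1
    have h2 := (hy' U hU V hV hUV).2
    rcases h1 with h1 | h1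
    · exact h1 hyU
    · rcases h2 with h2 | h2
      · exact h2 hyV
      · apply h2
        change π y' ∈ C U V
        rw [← he]
        exact h1

/-- The common part of the images. -/
def DD (π : P → X) (F : Set (Set P)) (S : Set P) : Set X := ⋂ U : F, π '' ((U : Set P) ∩ S)

omit [PolishSpace P] [MeasurableSpace P] [BorelSpace P] [T2Space X] [MeasurableSpace X]
  [OpensMeasurableSpace X] [TopologicalSpace P] [TopologicalSpace X] in
lemma DD_mono {F : Set (Set P)} {S S' : Set P} (h : S ⊆ S') : DD π F S ⊆ DD π F S' :=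
  iInter_mono fun _ => image_mono (inter_subset_inter_right _ h)

/-- A co-small set that cannot be improved. -/
lemma exists_stable [BorelSpace X] (hπ : Continuous π) :
    ∃ S : Set P, MeasurableSet S ∧ Small π Sᶜ ∧ ∀ F : Set (Set P), F.Finite →
      F ⊆ countableBasis P → F.Nonempty → (DD π F S).Nonempty → ∀ U ∈ F,
        ∃ x ∈ DD π F S, ∃ y ∈ U ∩ S, ∃ y' ∈ U ∩ S, y ≠ y' ∧ π y = x ∧ π y' = x := by
  classical
  have step : ∀ F : Set (Set P), F.Finite → F ⊆ countableBasis P → F.Nonempty →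
      ∃ S : Set P, MeasurableSet S ∧ Small π Sᶜ ∧ (DD π F S = ∅ ∨
        ∀ S' : Set P, MeasurableSet S' → Small π S'ᶜ → ∀ U ∈ F,
          ¬ InjOn π (U ∩ S' ∩ π ⁻¹' (DD π F S'))) := by
    intro F hF hFb hFne
    by_cases h : ∃ S' : Set P, MeasurableSet S' ∧ Small π S'ᶜ ∧ ∃ U ∈ F,
        InjOn π (U ∩ S' ∩ π ⁻¹' (DD π F S'))
    · obtain ⟨S', h1, h2, U, hU, hinj⟩ := h
      have hne : Nonempty F := hFne.to_subtype
      have hco : Countable F := hF.countable.to_subtype
      have hDan : AnalyticSet (DD π F S') := by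
        apply AnalyticSet.iInter
        intro V
        exact (((isOpen_of_mem_countableBasis (hFb V.2)).measurableSet.inter
          h1).analyticSet).image_of_continuous hπ
      have han : AnalyticSet (U ∩ S' ∩ π ⁻¹' (DD π F S')) :=
        analyticSet_inter ((isOpen_of_mem_countableBasis (hFb hU)).measurableSet.inter
          h1).analyticSet (hDan.preimage hπ)
      obtain ⟨B, hB1, hB2, hB3⟩ := exists_borel_injOn hπ han hinj
      refine ⟨S' \ B, h1.diff hB1, ?_, Or.inl ?_⟩
      · have : (S' \ B)ᶜ ⊆ S'ᶜ ∪ B := by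
          intro y hy
          by_cases hyS : y ∈ S'
          · right
            by_contra hyB
            exact hy ⟨hyS, hyB⟩
          · exact Or.inl hyS
        exact (h2.union (small_of_injOn hB1 hB3)).mono this
      · rw [Set.eq_empty_iff_forall_notMem]
        intro x hx
        have hx' := hx
        rw [DD, mem_iInter] at hx
        obtain ⟨y, ⟨hyU, hyS, hyB⟩, rfl⟩ := hx ⟨U, hU⟩
        exact hyB (hB2 ⟨⟨hyU, hyS⟩, DD_mono sdiff_subset hx'⟩)
    · push Not at h
      refine ⟨univ, MeasurableSet.univ, ?_, Or.inr ?_⟩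
      · rw [compl_univ]
        exact ⟨∅, countable_empty, by simp, by simp⟩
      · intro S' h1 h2 U hU
        exact h S' h1 h2 U hU
  let T : Set (Set (Set P)) := {F | F.Finite ∧ F ⊆ countableBasis P}
  have hT : T.Countable := countable_ofPred_finite_subset (countable_countableBasis P)
  have : Countable T := hT.to_subtype
  choose! S hS1 hS2 hS3 using step
  let T' : Set (Set (Set P)) := {F | F ∈ T ∧ F.Nonempty}
  have hT' : T'.Countable := hT.mono fun F hF => hF.1
  have hcT' : Countable T' := hT'.to_subtype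
  let S0 : Set P := ⋂ F : T', S F
  have hS0m : MeasurableSet S0 := MeasurableSet.iInter fun F => hS1 F.1 F.2.1.1 F.2.1.2 F.2.2
  have hS0s : Small π S0ᶜ := by
    simp only [S0, compl_iInter]
    exact Small.iUnion fun F => hS2 F.1 F.2.1.1 F.2.1.2 F.2.2
  refine ⟨S0, hS0m, hS0s, ?_⟩
  intro F hF hFb hFne hD U hU
  have hsub : S0 ⊆ S F := iInter_subset (fun F : T' => S F) ⟨F, ⟨hF, hFb⟩, hFne⟩
  rcases hS3 F hF hFb hFne with h | h
  · exfalso
    obtain ⟨x, hx⟩ := hD
    have := DD_mono hsub hx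
    rw [h] at this
    exact this
  · have := h S0 hS0m hS0s U hU
    simp only [InjOn, not_forall] at this
    obtain ⟨y, ⟨hy1, hy2⟩, y', ⟨hy1', hy2'⟩, he, hne⟩ := this
    exact ⟨π y, hy2, y, hy1, y', hy1', hne, rfl, he.symm⟩

lemma not_countable_cantor : ¬ Countable (ℕ → Bool) := by
  have h2 : Cardinal.mk (ℕ → Bool) = 2 ^ Cardinal.aleph0 := by simp
  intro h
  have h1 : Cardinal.mk (ℕ → Bool) ≤ Cardinal.aleph0 := Cardinal.mk_le_aleph0_iff.2 h
  rw [h2] at h1
  exact absurd h1 (not_le.2 (Cardinal.cantor _))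

/-- The shrinking lemma. -/
lemma exists_small_basic {P : Type*} [MetricSpace P] [SecondCountableTopology P] {z : P} {W : Set P}
    (hW : IsOpen W) (hz : z ∈ W) {ε : ℝ} (hε : 0 < ε) :
    ∃ B ∈ countableBasis P, z ∈ B ∧ closure B ⊆ W ∧ ∀ y ∈ B, ∀ y' ∈ B, dist y y' ≤ ε := by
  obtain ⟨r, hr, hrW⟩ := Metric.isOpen_iff.1 hW z hz
  have hr2 : 0 < min (r / 2) (ε / 2) := by positivity
  obtain ⟨B, hB, hzB, hBb⟩ := (isBasis_countableBasis P).exists_subset_of_mem_open
    (Metric.mem_ball_self hr2) (Metric.isOpen_ball (x := z) (ε := min (r / 2) (ε / 2)))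
  refine ⟨B, hB, hzB, ?_, ?_⟩
  · calc closure B ⊆ closure (Metric.ball z (min (r / 2) (ε / 2))) := closure_mono hBb
      _ ⊆ Metric.closedBall z (min (r / 2) (ε / 2)) := Metric.closure_ball_subset_closedBall
      _ ⊆ Metric.ball z r := Metric.closedBall_subset_ball (by
          have := min_le_left (r / 2) (ε / 2)
          linarith)
      _ ⊆ W := hrW
  · intro y hy y' hy'
    have h1 := Metric.mem_ball.1 (hBb hy)
    have h2 := Metric.mem_ball'.1 (hBb hy')
    have h3 := dist_triangle y z y'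
    have := min_le_right (r / 2) (ε / 2)
    linarith

/-- One step of the construction. -/
lemma step_lemma {P X : Type*} [MetricSpace P] [SecondCountableTopology P] {π : P → X} {S : Set P}
    (hS : ∀ F : Set (Set P), F.Finite →
      F ⊆ countableBasis P → F.Nonempty → (DD π F S).Nonempty → ∀ U ∈ F,
        ∃ x ∈ DD π F S, ∃ y ∈ U ∩ S, ∃ y' ∈ U ∩ S, y ≠ y' ∧ π y = x ∧ π y' = x)
    (k : ℕ) (V : ℕ → Set P) (hV : ∀ i ≤ k, V i ∈ countableBasis P)
    (hD : ∃ x, ∀ i ≤ k, ∃ z ∈ V i ∩ S, π z = x) (j : ℕ) (hj : j ≤ k) {ε : ℝ} (hε : 0 < ε) :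
    ∃ V' : ℕ → Set P, (∀ i ≤ k + 1, V' i ∈ countableBasis P) ∧
      (∃ x, ∀ i ≤ k + 1, ∃ z ∈ V' i ∩ S, π z = x) ∧
      (∀ i ≤ k, closure (V' i) ⊆ V i) ∧ closure (V' (k + 1)) ⊆ V j ∧
      Disjoint (V' (k + 1)) (V' j) ∧ ∀ i ≤ k + 1, ∀ y ∈ V' i, ∀ y' ∈ V' i, dist y y' ≤ ε := by
  classical
  let F : Set (Set P) := V '' {i | i ≤ k}
  have hF : F.Finite := (Set.finite_le_nat k).image V
  have hFb : F ⊆ countableBasis P := by
    rintro _ ⟨i, hi, rfl⟩
    exact hV i hi
  have hFne : F.Nonempty := ⟨V 0, 0, Nat.zero_le _, rfl⟩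
  have hDD : (DD π F S).Nonempty := by
    obtain ⟨x, hx⟩ := hD
    refine ⟨x, ?_⟩
    rw [DD, mem_iInter]
    rintro ⟨_, i, hi, rfl⟩
    obtain ⟨z, hz, hzx⟩ := hx i hi
    exact ⟨z, hz, hzx⟩
  obtain ⟨x, hx, y, hy, y', hy', hne, hyx, hyx'⟩ := hS F hF hFb hFne hDD (V j) ⟨j, hj, rfl⟩
  rw [DD, mem_iInter] at hx
  have hz : ∀ i ≤ k, ∃ z ∈ V i ∩ S, π z = x := by
    intro i hi
    obtain ⟨z, hz, hzx⟩ := hx ⟨V i, i, hi, rfl⟩
    exact ⟨z, hz, hzx⟩
  obtain ⟨O, O', hO, hO', hyO, hyO', hOO⟩ := t2_separation hne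
  -- the new sets
  have main : ∀ i, ∃ B : Set P, (i ≤ k + 1 → B ∈ countableBasis P) ∧
      (i ≤ k + 1 → ∃ z ∈ B ∩ S, π z = x) ∧ (i ≤ k → closure B ⊆ V i) ∧
      (i = k + 1 → closure B ⊆ V j ∩ O') ∧ (i = j → closure B ⊆ O) ∧
      (i ≤ k + 1 → ∀ y ∈ B, ∀ y' ∈ B, dist y y' ≤ ε) := by
    intro i
    by_cases hij : i = j
    · subst hij
      obtain ⟨B, h1, h2, h3, h4⟩ := exists_small_basic
        ((isOpen_of_mem_countableBasis (hV i hj)).inter hO) ⟨hy.1, hyO⟩ hε
      exact ⟨B, fun _ => h1, fun _ => ⟨y, ⟨h2, hy.2⟩, hyx⟩, fun _ => h3.trans inter_subset_left,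
        fun h => by omega, fun _ => h3.trans inter_subset_right, fun _ => h4⟩
    · by_cases hik : i = k + 1
      · subst hik
        obtain ⟨B, h1, h2, h3, h4⟩ := exists_small_basic
          ((isOpen_of_mem_countableBasis (hV j hj)).inter hO') ⟨hy'.1, hyO'⟩ hε
        exact ⟨B, fun _ => h1, fun _ => ⟨y', ⟨h2, hy'.2⟩, hyx'⟩, fun h => by omega, fun _ => h3,
          fun h => absurd h hij, fun _ => h4⟩
      · by_cases hik' : i ≤ k
        · obtain ⟨z, hz1, hz2⟩ := hz i hik'
          obtain ⟨B, h1, h2, h3, h4⟩ := exists_small_basic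
            (isOpen_of_mem_countableBasis (hV i hik')) hz1.1 hε
          exact ⟨B, fun _ => h1, fun _ => ⟨z, ⟨h2, hz1.2⟩, hz2⟩, fun _ => h3,
            fun h => absurd h hik, fun h => absurd h hij, fun _ => h4⟩
        · refine ⟨∅, fun h => ?_, fun h => ?_, fun h => ?_, fun h => ?_, fun h => ?_, fun h => ?_⟩
          all_goals omega
  choose V' h1 h2 h3 h4 h5 h6 using main
  refine ⟨V', h1, ⟨x, h2⟩, h3, (h4 (k + 1) rfl).trans inter_subset_left, ?_, h6⟩
  apply hOO.symm.mono
  · exact subset_closure.trans ((h4 (k + 1) rfl).trans inter_subset_right)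
  · exact subset_closure.trans (h5 j rfl)

/-- The stable set is empty if the fibres are countable. -/
lemma stable_empty {P X : Type*} [MetricSpace P] [CompleteSpace P] [SecondCountableTopology P]
    [TopologicalSpace X] [T2Space X] {π : P → X} (hπ : Continuous π)
    (hc : ∀ x, (π ⁻¹' {x}).Countable) {S : Set P}
    (hS : ∀ F : Set (Set P), F.Finite →
      F ⊆ countableBasis P → F.Nonempty → (DD π F S).Nonempty → ∀ U ∈ F,
        ∃ x ∈ DD π F S, ∃ y ∈ U ∩ S, ∃ y' ∈ U ∩ S, y ≠ y' ∧ π y = x ∧ π y' = x) : S = ∅ := by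
  classical
  by_contra hSne
  obtain ⟨s, hs⟩ := Set.nonempty_iff_ne_empty.2 hSne
  have hneP : Nonempty P := ⟨s⟩
  -- the sequence
  let St : ℕ → Type _ := fun k => {V : ℕ → Set P // (∀ i ≤ k, V i ∈ countableBasis P) ∧
    ∃ x, ∀ i ≤ k, ∃ z ∈ V i ∩ S, π z = x}
  obtain ⟨B0, hB0, hsB0, -⟩ := (isBasis_countableBasis P).exists_subset_of_mem_open
    (mem_univ s) isOpen_univ
  let st0 : St 0 := ⟨fun _ => B0, fun _ _ => hB0, π s, fun _ _ => ⟨s, ⟨hsB0, hs⟩, rfl⟩⟩
  have hstep : ∀ k (V : St k), ∃ V' : St (k + 1), (∀ i ≤ k, closure (V'.1 i) ⊆ V.1 i) ∧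
      closure (V'.1 (k + 1)) ⊆ V.1 (Nat.unpair k).1 ∧
      Disjoint (V'.1 (k + 1)) (V'.1 (Nat.unpair k).1) ∧
      ∀ i ≤ k + 1, ∀ y ∈ V'.1 i, ∀ y' ∈ V'.1 i, dist y y' ≤ (1 / 2 : ℝ) ^ k := by
    intro k V
    obtain ⟨V', h1, h2, h3, h4, h5, h6⟩ := step_lemma hS k V.1 V.2.1 V.2.2 (Nat.unpair k).1
      (Nat.unpair_left_le k) (ε := (1 / 2 : ℝ) ^ k) (by positivity)
    exact ⟨⟨V', h1, h2⟩, h3, h4, h5, h6⟩
  choose nxt hn1 hn2 hn3 hn4 using hstep
  let st : ∀ k, St k := fun k => Nat.rec st0 (fun k V => nxt k V) k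
  have hst : ∀ k, st (k + 1) = nxt k (st k) := fun k => rfl
  let V : ℕ → ℕ → Set P := fun k => (st k).1
  have hV0 : ∀ k, ∀ i ≤ k, V k i ∈ countableBasis P := fun k => (st k).2.1
  have hV1 : ∀ k, ∃ x, ∀ i ≤ k, ∃ z ∈ V k i ∩ S, π z = x := fun k => (st k).2.2
  have hV2 : ∀ k, ∀ i ≤ k, closure (V (k + 1) i) ⊆ V k i := fun k => hn1 k (st k)
  have hV3 : ∀ k, closure (V (k + 1) (k + 1)) ⊆ V k (Nat.unpair k).1 := fun k => hn2 k (st k)
  have hV4 : ∀ k, Disjoint (V (k + 1) (k + 1)) (V (k + 1) (Nat.unpair k).1) :=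
    fun k => hn3 k (st k)
  have hV5 : ∀ k, ∀ i ≤ k + 1, ∀ y ∈ V (k + 1) i, ∀ y' ∈ V (k + 1) i,
      dist y y' ≤ (1 / 2 : ℝ) ^ k := fun k => hn4 k (st k)
  -- monotonicity
  have hmono : ∀ i k m, i ≤ k → k ≤ m → V m i ⊆ V k i := by
    intro i k m hik hkm
    induction m, hkm using Nat.le_induction with
    | base => exact subset_rfl
    | succ m hm ih => exact (subset_closure.trans (hV2 m i (hik.trans hm))).trans ih
  have hV5' : ∀ k, 1 ≤ k → ∀ i ≤ k, ∀ y ∈ V k i, ∀ y' ∈ V k i,
      dist y y' ≤ (1 / 2 : ℝ) ^ (k - 1) := by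
    intro k hk i hik y hy y' hy'
    obtain ⟨m, rfl⟩ : ∃ m, k = m + 1 := ⟨k - 1, by omega⟩
    exact hV5 m i hik y hy y' hy'
  choose x hx using hV1
  choose! z hz1 hz2 using hx
  -- limit points
  have hlim : ∀ i, ∃ y, Tendsto (fun n => z (n + (i + 1)) i) atTop (𝓝 y) := by
    intro i
    apply cauchySeq_tendsto_of_complete
    apply cauchySeq_of_le_tendsto_0 (fun N => (1 / 2 : ℝ) ^ (N + (i + 1) - 1))
    · intro n m N hn hm
      apply hV5' (N + (i + 1)) (by omega) i (by omega)
      · exact hmono i (N + (i + 1)) (n + (i + 1)) (by omega) (by omega)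
          (hz1 (n + (i + 1)) i (by omega)).1
      · exact hmono i (N + (i + 1)) (m + (i + 1)) (by omega) (by omega)
          (hz1 (m + (i + 1)) i (by omega)).1
    · have : Tendsto (fun n : ℕ => (1 / 2 : ℝ) ^ n) atTop (𝓝 0) :=
        tendsto_pow_atTop_nhds_zero_of_lt_one (by norm_num) (by norm_num)
      have h2 : Tendsto (fun N : ℕ => N + (i + 1) - 1) atTop atTop := by
        have : (fun N : ℕ => N + (i + 1) - 1) = fun N => N + i := by funext N; omega
        rw [this]
        exact tendsto_add_atTop_nat i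
      exact this.comp h2
  choose y hy using hlim
  have hymem : ∀ i k, i ≤ k → y i ∈ V k i := by
    intro i k hik
    apply hV2 k i hik
    apply mem_closure_of_tendsto (hy i)
    filter_upwards [eventually_ge_atTop (k + 1)] with n hn
    exact hmono i (k + 1) (n + (i + 1)) (by omega) (by omega) (hz1 (n + (i + 1)) i (by omega)).1
  have hfib : ∀ i, π (y i) = π (y 0) := by
    intro i
    have h1 : Tendsto (fun n => x (n + (i + 1))) atTop (𝓝 (π (y i))) := by
      have := (hπ.tendsto (y i)).comp (hy i)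
      refine this.congr ?_
      intro n
      exact hz2 (n + (i + 1)) i (by omega)
    have h2 : Tendsto (fun n => x (n + (0 + 1))) atTop (𝓝 (π (y 0))) := by
      have := (hπ.tendsto (y 0)).comp (hy 0)
      refine this.congr ?_
      intro n
      exact hz2 (n + (0 + 1)) 0 (by omega)
    have h1' : Tendsto x atTop (𝓝 (π (y i))) := (tendsto_add_atTop_iff_nat (i + 1)).1 h1
    have h2' : Tendsto x atTop (𝓝 (π (y 0))) := (tendsto_add_atTop_iff_nat (0 + 1)).1 h2
    exact tendsto_nhds_unique h1' h2'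
  -- the set of limit points is preperfect
  have hpre : Preperfect (range y) := by
    rw [preperfect_iff_nhds]
    rintro _ ⟨i, rfl⟩ U hU
    obtain ⟨ε, hε, hεU⟩ := Metric.mem_nhds_iff.1 hU
    obtain ⟨N, hN⟩ := exists_pow_lt_of_lt_one hε (by norm_num : (1 / 2 : ℝ) < 1)
    let k := Nat.pair i (N + 1)
    have hk1 : (Nat.unpair k).1 = i := by simp [k]
    have hik : i ≤ k := Nat.left_le_pair _ _
    have hNk : N + 1 ≤ k := Nat.right_le_pair _ _
    refine ⟨y (k + 1), ⟨?_, mem_range_self _⟩, ?_⟩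
    · apply hεU
      rw [Metric.mem_ball]
      have h1 : y (k + 1) ∈ V k i := by
        have := hV3 k (subset_closure (hymem (k + 1) (k + 1) le_rfl))
        rwa [hk1] at this
      have h2 : y i ∈ V k i := hymem i k hik
      calc dist (y (k + 1)) (y i) ≤ (1 / 2 : ℝ) ^ (k - 1) := hV5' k (by omega) i hik _ h1 _ h2
        _ ≤ (1 / 2 : ℝ) ^ N := pow_le_pow_of_le_one (by norm_num) (by norm_num) (by omega)
        _ < ε := hN
    · intro h
      have h1 := hymem (k + 1) (k + 1) le_rfl
      have h2 := hymem i (k + 1) (by omega)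
      have h3 := hV4 k
      rw [hk1] at h3
      rw [h] at h1
      exact Set.disjoint_left.1 h3 h1 h2
  have hperf : Perfect (closure (range y)) := hpre.perfect_closure
  obtain ⟨f, hf1, -, hf3⟩ := hperf.exists_nat_bool_injection ⟨y 0, subset_closure ⟨0, rfl⟩⟩
  have hsub : closure (range y) ⊆ π ⁻¹' {π (y 0)} := by
    apply closure_minimal
    · rintro _ ⟨i, rfl⟩
      exact hfib i
    · exact (isClosed_singleton).preimage hπ
  have hcount : (range f).Countable := (hc (π (y 0))).mono (hf1.trans hsub)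
  have : Countable (ℕ → Bool) := by
    have h1 : Countable (range f) := hcount.to_subtype
    exact (rangeFactorization_injective.2 hf3).countable
  exact not_countable_cantor this

end main

/-- The Lusin–Novikov theorem: a countable-to-one measurable map between standard Borel spaces is
injective on each piece of some countable partition of its domain into measurable sets. -/
theorem lusin_novikov {P X : Type*} [MeasurableSpace P] [StandardBorelSpace P] [MeasurableSpace X]
    [StandardBorelSpace X] {π : P → X} (hπ : Measurable π) (hc : ∀ x, (π ⁻¹' {x}).Countable) :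
    ∃ B : ℕ → Set P, (∀ n, MeasurableSet (B n)) ∧ (∀ n, InjOn π (B n)) ∧ ⋃ n, B n = univ := by
  let := upgradeStandardBorel X
  obtain ⟨tP, hbP, hpP⟩ := (inferInstance : StandardBorelSpace P).polish
  obtain ⟨t', ht', hcont, hpol⟩ := hπ.exists_continuous
  have hb' : @BorelSpace P t' _ := by
    refine @BorelSpace.mk P t' _ ?_
    rw [hbP.measurable_eq]
    exact (borel_eq_borel_of_le hpol hpP ht').symm
  have key : @IsOpen P t' univ := by
    letI := t'
    exact isOpen_univ
  letI : TopologicalSpace P := t'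
  haveI : PolishSpace P := hpol
  haveI : BorelSpace P := hb'
  obtain ⟨S, hS1, hS2, hS3⟩ := exists_stable (π := π) hcont
  letI := TopologicalSpace.upgradeIsCompletelyMetrizable P
  have hSe : S = ∅ := stable_empty hcont hc hS3
  rw [hSe, compl_empty] at hS2
  obtain ⟨𝒮, h1, h2, h3⟩ := hS2
  have hne : (insert ∅ 𝒮).Nonempty := ⟨∅, mem_insert _ _⟩
  obtain ⟨B, hB⟩ := (h1.insert ∅).exists_eq_range hne
  have hBmem : ∀ n, B n ∈ insert ∅ 𝒮 := fun n => by rw [hB]; exact mem_range_self n
  refine ⟨B, ?_, ?_, ?_⟩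
  · intro n
    rcases hBmem n with h | h
    · rw [h]; exact MeasurableSet.empty
    · exact (h2 _ h).1
  · intro n
    rcases hBmem n with h | h
    · rw [h]; exact injOn_empty _
    · exact (h2 _ h).2
  · rw [eq_univ_iff_forall]
    intro y
    obtain ⟨A, hA, hyA⟩ := h3 (mem_univ y)
    have : A ∈ range B := by rw [← hB]; exact mem_insert_of_mem _ hA
    obtain ⟨n, rfl⟩ := this
    exact mem_iUnion.2 ⟨n, hyA⟩

/-- A measurable partial injection with disjoint domain and range extends to an involution. -/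
lemma exists_involution {P X : Type*} [MeasurableSpace P] [StandardBorelSpace P]
    [MeasurableSpace X] [StandardBorelSpace X] {f g : P → X} (hf : Measurable f)
    (hg : Measurable g) {R : Set P} (hR : MeasurableSet R) (hfR : InjOn f R) (hgR : InjOn g R)
    {U : Set X} (hU1 : ∀ p ∈ R, f p ∈ U) (hU2 : ∀ p ∈ R, g p ∉ U) :
    ∃ T : X → X, Measurable T ∧ Function.Involutive T ∧ (∀ p ∈ R, T (f p) = g p) ∧
      ∀ x, T x = x ∨ ∃ p ∈ R, (f p = x ∧ g p = T x) ∨ (g p = x ∧ f p = T x) := by
  classical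
  let T : X → X := fun x => if h : ∃ p ∈ R, f p = x then g h.choose else
    if h : ∃ p ∈ R, g p = x then f h.choose else x
  have hT1 : ∀ p ∈ R, T (f p) = g p := by
    intro p hp
    have h : ∃ p' ∈ R, f p' = f p := ⟨p, hp, rfl⟩
    have h2 : T (f p) = g h.choose := dif_pos h
    rw [h2, hfR h.choose_spec.1 hp h.choose_spec.2]
  have hT2 : ∀ p ∈ R, T (g p) = f p := by
    intro p hp
    have h0 : ¬ ∃ p' ∈ R, f p' = g p := by
      rintro ⟨p', hp', he⟩
      exact hU2 p hp (he ▸ hU1 p' hp')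
    have h : ∃ p' ∈ R, g p' = g p := ⟨p, hp, rfl⟩
    have h2 : T (g p) = f h.choose := by
      simp only [T]
      rw [dif_neg h0, dif_pos h]
    rw [h2, hgR h.choose_spec.1 hp h.choose_spec.2]
  have hT3 : ∀ x, x ∉ f '' R → x ∉ g '' R → T x = x := by
    intro x h1 h2
    have h1' : ¬ ∃ p ∈ R, f p = x := h1
    have h2' : ¬ ∃ p ∈ R, g p = x := h2
    simp only [T]
    rw [dif_neg h1', dif_neg h2']
  refine ⟨T, ?_, ?_, hT1, ?_⟩
  · intro S hS
    have e : T ⁻¹' S = f '' (R ∩ g ⁻¹' S) ∪ g '' (R ∩ f ⁻¹' S) ∪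
        (S ∩ (f '' R ∪ g '' R)ᶜ) := by
      ext x
      constructor
      · intro hx
        by_cases h1 : x ∈ f '' R
        · obtain ⟨p, hp, rfl⟩ := h1
          left; left
          refine ⟨p, ⟨hp, ?_⟩, rfl⟩
          change T (f p) ∈ S at hx
          rw [hT1 p hp] at hx
          exact hx
        · by_cases h2 : x ∈ g '' R
          · obtain ⟨p, hp, rfl⟩ := h2
            left; right
            refine ⟨p, ⟨hp, ?_⟩, rfl⟩
            change T (g p) ∈ S at hx
            rw [hT2 p hp] at hx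
            exact hx
          · right
            refine ⟨?_, fun h => h.elim h1 h2⟩
            change T x ∈ S at hx
            rw [hT3 x h1 h2] at hx
            exact hx
      · rintro ((⟨p, ⟨hp, hpS⟩, rfl⟩ | ⟨p, ⟨hp, hpS⟩, rfl⟩) | ⟨hxS, hx⟩)
        · change T (f p) ∈ S
          rw [hT1 p hp]
          exact hpS
        · change T (g p) ∈ S
          rw [hT2 p hp]
          exact hpS
        · change T x ∈ S
          rw [hT3 x (fun h => hx (Or.inl h)) (fun h => hx (Or.inr h))]
          exact hxS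
    rw [e]
    refine ((?_ : MeasurableSet _).union ?_).union (hS.inter (?_ : MeasurableSet _).compl)
    · exact (hR.inter (hg hS)).image_of_measurable_injOn hf (hfR.mono inter_subset_left)
    · exact (hR.inter (hf hS)).image_of_measurable_injOn hg (hgR.mono inter_subset_left)
    · exact (hR.image_of_measurable_injOn hf hfR).union (hR.image_of_measurable_injOn hg hgR)
  · intro x
    by_cases h1 : x ∈ f '' R
    · obtain ⟨p, hp, rfl⟩ := h1
      rw [hT1 p hp, hT2 p hp]
    · by_cases h2 : x ∈ g '' R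
      · obtain ⟨p, hp, rfl⟩ := h2
        rw [hT2 p hp, hT1 p hp]
      · rw [hT3 x h1 h2, hT3 x h1 h2]
  · intro x
    by_cases h1 : x ∈ f '' R
    · obtain ⟨p, hp, rfl⟩ := h1
      exact Or.inr ⟨p, hp, Or.inl ⟨rfl, (hT1 p hp).symm⟩⟩
    · by_cases h2 : x ∈ g '' R
      · obtain ⟨p, hp, rfl⟩ := h2
        exact Or.inr ⟨p, hp, Or.inr ⟨rfl, (hT2 p hp).symm⟩⟩
      · exact Or.inl (hT3 x h1 h2)

/-- The Feldman–Moore theorem. -/
theorem feldman_moore {X : Type*} [MeasurableSpace X] [StandardBorelSpace X] {E : X → X → Prop}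
    (hE : Equivalence E) (hm : MeasurableSet {p : X × X | E p.1 p.2})
    (hc : ∀ x, {y : X | E x y}.Countable) :
    ∃ T : ℕ → X → X, (∀ n, Measurable (T n)) ∧ (∀ n, Function.Involutive (T n)) ∧
      ∀ x y, E x y ↔ ∃ n, T n x = y := by
  classical
  let P : Type _ := {p : X × X | E p.1 p.2}
  have : StandardBorelSpace P := hm.standardBorel
  let f : P → X := fun p => p.1.1
  let g : P → X := fun p => p.1.2
  have hf : Measurable f := measurable_fst.comp measurable_subtype_coe
  have hg : Measurable g := measurable_snd.comp measurable_subtype_coe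
  have hfc : ∀ x, (f ⁻¹' {x}).Countable := by
    intro x
    refine Set.MapsTo.countable_of_injOn (f := g) (t := {y | E x y}) ?_ ?_ (hc x)
    · intro p hp
      change p.1.1 = x at hp
      change E x p.1.2
      rw [← hp]
      exact p.2
    · intro p hp q hq h
      exact Subtype.ext (Prod.ext ((show p.1.1 = x from hp).trans (show q.1.1 = x from hq).symm) h)
  have hgc : ∀ x, (g ⁻¹' {x}).Countable := by
    intro x
    refine Set.MapsTo.countable_of_injOn (f := f) (t := {y | E x y}) ?_ ?_ (hc x)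
    · intro p hp
      change p.1.2 = x at hp
      change E x p.1.1
      rw [← hp]
      exact hE.symm p.2
    · intro p hp q hq h
      exact Subtype.ext (Prod.ext h ((show p.1.2 = x from hp).trans (show q.1.2 = x from hq).symm))
  obtain ⟨B, hB1, hB2, hB3⟩ := lusin_novikov hf hfc
  obtain ⟨B', hB1', hB2', hB3'⟩ := lusin_novikov hg hgc
  obtain ⟨φ, hφ, hφi⟩ := MeasurableSpace.measurable_injection_nat_bool_of_countablySeparated X
  let U : ℕ → Bool → Set X := fun k b => {x | φ x k = b}
  have hU : ∀ k b, MeasurableSet (U k b) := fun k b =>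
    ((measurable_pi_apply k).comp hφ) (MeasurableSet.singleton b)
  let R : ℕ × ℕ × ℕ × Bool → Set P := fun i =>
    B i.1 ∩ B' i.2.1 ∩ (f ⁻¹' (U i.2.2.1 i.2.2.2) ∩ (g ⁻¹' (U i.2.2.1 i.2.2.2))ᶜ)
  have hR : ∀ i, MeasurableSet (R i) := fun i =>
    ((hB1 _).inter (hB1' _)).inter ((hf (hU _ _)).inter (hg (hU _ _)).compl)
  have key : ∀ i, ∃ T : X → X, Measurable T ∧ Function.Involutive T ∧
      (∀ p ∈ R i, T (f p) = g p) ∧
      ∀ x, T x = x ∨ ∃ p ∈ R i, (f p = x ∧ g p = T x) ∨ (g p = x ∧ f p = T x) := by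
    intro i
    apply exists_involution hf hg (hR i) (U := U i.2.2.1 i.2.2.2)
    · exact (hB2 _).mono (inter_subset_left.trans inter_subset_left)
    · exact (hB2' _).mono (inter_subset_left.trans inter_subset_right)
    · exact fun p hp => hp.2.1
    · exact fun p hp => hp.2.2
  choose T hT1 hT2 hT3 hT4 using key
  -- enumerate the index set, with the identity added
  let T' : Option (ℕ × ℕ × ℕ × Bool) → X → X := fun o => o.elim id T
  obtain ⟨e, he⟩ := exists_surjective_nat (Option (ℕ × ℕ × ℕ × Bool))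
  refine ⟨fun n => T' (e n), ?_, ?_, ?_⟩
  · intro n
    cases h : e n with
    | none => simp only [T', h]; exact measurable_id
    | some i => simp only [T', h]; exact hT1 i
  · intro n
    cases h : e n with
    | none => simp only [T', h]; exact fun x => rfl
    | some i => simp only [T', h]; exact hT2 i
  · intro x y
    constructor
    · intro hxy
      by_cases hne : x = y
      · obtain ⟨n, hn⟩ := he none
        refine ⟨n, ?_⟩
        simp only [T', hn]
        exact hne
      · let p : P := ⟨(x, y), hxy⟩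
        obtain ⟨n, hn⟩ := mem_iUnion.1 (show p ∈ ⋃ n, B n by rw [hB3]; trivial)
        obtain ⟨m, hm⟩ := mem_iUnion.1 (show p ∈ ⋃ n, B' n by rw [hB3']; trivial)
        obtain ⟨k, hk⟩ : ∃ k, φ x k ≠ φ y k := by
          by_contra h
          push Not at h
          exact hne (hφi (funext h))
        have hpR : p ∈ R (n, m, k, φ x k) := ⟨⟨hn, hm⟩, rfl, fun h => hk (Eq.symm h)⟩
        obtain ⟨l, hl⟩ := he (some (n, m, k, φ x k))
        refine ⟨l, ?_⟩
        simp only [T', hl]
        exact hT3 _ p hpR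
    · rintro ⟨n, rfl⟩
      cases h : e n with
      | none => simp only [T', h]; exact hE.refl x
      | some i =>
        simp only [T', h]
        rcases hT4 i x with h | ⟨p, -, ⟨h1, h2⟩ | ⟨h1, h2⟩⟩
        · change E x (T i x)
          rw [h]; exact hE.refl x
        · change E x (T i x)
          rw [← h2, ← h1]
          exact p.2
        · change E x (T i x)
          rw [← h2, ← h1]
          exact hE.symm p.2

end Pool.Agent.Lib.LusinNovikov
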