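import Mathlib

/-!
# The van Kampen-Flores theorem for `K₅` in the plane
-/

set_option autoImplicit false

namespace Pool.Agent.Lib.VKF

open Set

/-- height of the line through `c`, `d` at the abscissa `x` -/
noncomputable def ht (c d : ℂ) (x : ℝ) : ℝ := c.im + (d.im - c.im) * (x - c.re) / (d.re - c.re)

/-- the upward vertical ray from `a` hits the segment `cd` -/
def Up (a c d : ℂ) : Prop :=
  ((c.re < a.re ∧ a.re < d.re) ∨ (d.re < a.re ∧ a.re < c.re)) ∧ a.im < ht c d a.re

/-- the downward vertical ray from `a` hits the segment `cd` -/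
def Dn (a c d : ℂ) : Prop :=
  ((c.re < a.re ∧ a.re < d.re) ∨ (d.re < a.re ∧ a.re < c.re)) ∧ ht c d a.re < a.im

theorem ht_left (c d : ℂ) : ht c d c.re = c.im := by
  unfold ht
  rw [sub_self, mul_zero, zero_div, add_zero]

theorem ht_right {c d : ℂ} (h : c.re ≠ d.re) : ht c d d.re = d.im := by
  unfold ht
  have : d.re - c.re ≠ 0 := sub_ne_zero.2 (Ne.symm h)
  field_simp
  ring

theorem ht_symm {c d : ℂ} (h : c.re ≠ d.re) (x : ℝ) : ht c d x = ht d c x := by
  unfold ht
  have h1 : d.re - c.re ≠ 0 := sub_ne_zero.2 (Ne.symm h)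
  have h2 : c.re - d.re ≠ 0 := sub_ne_zero.2 h
  field_simp
  ring

theorem Up_symm (a c d : ℂ) : Up a c d ↔ Up a d c := by
  unfold Up
  constructor
  · rintro ⟨h, h2⟩
    have hne : c.re ≠ d.re := by
      rcases h with h | h
      · exact (h.1.trans h.2).ne
      · exact (h.1.trans h.2).ne'
    exact ⟨h.symm, by rw [← ht_symm hne]; exact h2⟩
  · rintro ⟨h, h2⟩
    have hne : d.re ≠ c.re := by
      rcases h with h | h
      · exact (h.1.trans h.2).ne
      · exact (h.1.trans h.2).ne'
    exact ⟨h.symm, by rw [← ht_symm hne]; exact h2⟩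

theorem Dn_symm (a c d : ℂ) : Dn a c d ↔ Dn a d c := by
  unfold Dn
  constructor
  · rintro ⟨h, h2⟩
    have hne : c.re ≠ d.re := by
      rcases h with h | h
      · exact (h.1.trans h.2).ne
      · exact (h.1.trans h.2).ne'
    exact ⟨h.symm, by rw [← ht_symm hne]; exact h2⟩
  · rintro ⟨h, h2⟩
    have hne : d.re ≠ c.re := by
      rcases h with h | h
      · exact (h.1.trans h.2).ne
      · exact (h.1.trans h.2).ne'
    exact ⟨h.symm, by rw [← ht_symm hne]; exact h2⟩

/-- points of a segment through the abscissa -/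
theorem mem_seg {c d : ℂ} (h : c.re < d.re) {x : ℝ} (h1 : c.re ≤ x) (h2 : x ≤ d.re) :
    (⟨x, ht c d x⟩ : ℂ) ∈ segment ℝ c d := by
  have h0 : 0 < d.re - c.re := sub_pos.2 h
  refine ⟨(d.re - x) / (d.re - c.re), (x - c.re) / (d.re - c.re),
    div_nonneg (by linarith) h0.le, div_nonneg (by linarith) h0.le, ?_, ?_⟩
  · rw [← add_div, div_eq_one_iff_eq h0.ne']
    ring
  · apply Complex.ext
    · simp only [Complex.add_re, Complex.smul_re, smul_eq_mul]
      field_simp
      ring
    · simp only [Complex.add_im, Complex.smul_im, smul_eq_mul, ht]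
      field_simp
      ring

/-- vertical segment -/
theorem mem_vseg {a b : ℂ} (h : a.re = b.re) {y : ℝ} (hy : (a.im ≤ y ∧ y ≤ b.im) ∨
    (b.im ≤ y ∧ y ≤ a.im)) : (⟨a.re, y⟩ : ℂ) ∈ segment ℝ a b := by
  by_cases hab : a.im = b.im
  · have hy' : y = a.im := by
      rcases hy with hy | hy <;> linarith [hy.1, hy.2]
    rw [hy']
    exact left_mem_segment ℝ a b
  · have h0 : b.im - a.im ≠ 0 := sub_ne_zero.2 (Ne.symm hab)
    refine ⟨(b.im - y) / (b.im - a.im), (y - a.im) / (b.im - a.im), ?_, ?_, ?_, ?_⟩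
    · rcases hy with hy | hy
      · exact div_nonneg (by linarith [hy.1, hy.2]) (by linarith [hy.1, hy.2])
      · exact div_nonneg_of_nonpos (by linarith [hy.1, hy.2]) (by linarith [hy.1, hy.2])
    · rcases hy with hy | hy
      · exact div_nonneg (by linarith [hy.1, hy.2]) (by linarith [hy.1, hy.2])
      · exact div_nonneg_of_nonpos (by linarith [hy.1, hy.2]) (by linarith [hy.1, hy.2])
    · rw [← add_div, div_eq_one_iff_eq h0]
      ring
    · apply Complex.ext
      · simp only [Complex.add_re, Complex.smul_re, smul_eq_mul]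
        rw [← h]
        field_simp
        ring
      · simp only [Complex.add_im, Complex.smul_im, smul_eq_mul]
        field_simp
        ring

/-- no sign change of the height difference -/
theorem no_cross {a b c d : ℂ} (hab : a.re < b.re) (hcd : c.re < d.re)
    (hdis : ∀ z, z ∈ segment ℝ a b → z ∉ segment ℝ c d) {l r : ℝ} (hlr : l ≤ r)
    (h1 : a.re ≤ l) (h2 : r ≤ b.re) (h3 : c.re ≤ l) (h4 : r ≤ d.re) :
    ht a b l < ht c d l ↔ ht a b r < ht c d r := by
  have hcont : ContinuousOn (fun x => ht a b x - ht c d x) (Icc l r) := by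
    unfold ht
    fun_prop
  have hz : ∀ x ∈ Icc l r, ht a b x - ht c d x ≠ 0 := by
    intro x hx h0
    have e : ht a b x = ht c d x := sub_eq_zero.1 h0
    have m1 := mem_seg hab (x := x) (h1.trans hx.1) (hx.2.trans h2)
    have m2 := mem_seg hcd (x := x) (h3.trans hx.1) (hx.2.trans h4)
    rw [e] at m1
    exact hdis _ m1 m2
  constructor
  · intro hl
    by_contra hr
    rw [not_lt] at hr
    have := intermediate_value_Icc hlr hcont
    obtain ⟨x, hx, hx0⟩ := this (show (0 : ℝ) ∈ Icc _ _ from
      ⟨by show ht a b l - ht c d l ≤ 0; linarith, by show 0 ≤ ht a b r - ht c d r; linarith⟩)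
    exact hz x hx hx0
  · intro hr
    by_contra hl
    rw [not_lt] at hl
    have := intermediate_value_Icc' hlr hcont
    obtain ⟨x, hx, hx0⟩ := this (show (0 : ℝ) ∈ Icc _ _ from
      ⟨by show ht a b r - ht c d r ≤ 0; linarith, by show 0 ≤ ht a b l - ht c d l; linarith⟩)
    exact hz x hx hx0

/-- no sign change, vertical segment -/
theorem no_cross_v {a b c d : ℂ} (hab : a.re = b.re) (hcd : c.re < d.re)
    (hdis : ∀ z, z ∈ segment ℝ a b → z ∉ segment ℝ c d) (h3 : c.re ≤ a.re) (h4 : a.re ≤ d.re) :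
    a.im < ht c d a.re ↔ b.im < ht c d b.re := by
  have hz : ¬ ((a.im ≤ ht c d a.re ∧ ht c d a.re ≤ b.im) ∨
      (b.im ≤ ht c d a.re ∧ ht c d a.re ≤ a.im)) := fun h =>
    hdis _ (mem_vseg hab h) (mem_seg hcd h3 h4)
  rw [← hab]
  constructor
  · intro h
    by_contra hcon
    rw [not_lt] at hcon
    exact hz (Or.inl ⟨h.le, hcon⟩)
  · intro h
    by_contra hcon
    rw [not_lt] at hcon
    exact hz (Or.inr ⟨h.le, hcon⟩)

open Classical in
/-- indicator -/
noncomputable def ind (p : Prop) : ZMod 2 := if p then 1 else 0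

theorem ind_true {p : Prop} (h : p) : ind p = 1 := if_pos h
theorem ind_false {p : Prop} (h : ¬ p) : ind p = 0 := if_neg h
theorem ind_congr {p q : Prop} (h : p ↔ q) : ind p = ind q := by rw [propext h]

theorem add_self2 (x : ZMod 2) : x + x = 0 := CharTwo.add_self_eq_zero x

theorem local_aux {a b c d : ℂ} (hab : a.re ≤ b.re) (hcd : c.re ≤ d.re) (h1 : a.re ≠ c.re)
    (h2 : a.re ≠ d.re) (h3 : b.re ≠ c.re) (h4 : b.re ≠ d.re)
    (hdis : ∀ z, z ∈ segment ℝ a b → z ∉ segment ℝ c d) :
    ind (Up a c d) + ind (Up b c d) + ind (Dn c a b) + ind (Dn d a b) = 0 := by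
  have hdis' : ∀ z, z ∈ segment ℝ c d → z ∉ segment ℝ a b := fun z hz hz' => hdis z hz' hz
  -- the four statements
  have ua : Up a c d ↔ (c.re < a.re ∧ a.re < d.re) ∧ a.im < ht c d a.re := by
    unfold Up
    constructor
    · rintro ⟨h | h, h'⟩
      · exact ⟨h, h'⟩
      · linarith [h.1, h.2]
    · rintro ⟨h, h'⟩
      exact ⟨Or.inl h, h'⟩
  have ub : Up b c d ↔ (c.re < b.re ∧ b.re < d.re) ∧ b.im < ht c d b.re := by
    unfold Up
    constructor
    · rintro ⟨h | h, h'⟩
      · exact ⟨h, h'⟩
      · linarith [h.1, h.2]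
    · rintro ⟨h, h'⟩
      exact ⟨Or.inl h, h'⟩
  have dc : Dn c a b ↔ (a.re < c.re ∧ c.re < b.re) ∧ ht a b c.re < c.im := by
    unfold Dn
    constructor
    · rintro ⟨h | h, h'⟩
      · exact ⟨h, h'⟩
      · linarith [h.1, h.2]
    · rintro ⟨h, h'⟩
      exact ⟨Or.inl h, h'⟩
  have dd : Dn d a b ↔ (a.re < d.re ∧ d.re < b.re) ∧ ht a b d.re < d.im := by
    unfold Dn
    constructor
    · rintro ⟨h | h, h'⟩
      · exact ⟨h, h'⟩
      · linarith [h.1, h.2]
    · rintro ⟨h, h'⟩
      exact ⟨Or.inl h, h'⟩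
  rcases lt_or_gt_of_ne h1 with hac | hac
  · -- a < c
    have fa : ¬ Up a c d := fun h => by have := (ua.1 h).1.1; linarith
    rcases lt_or_gt_of_ne h3 with hbc | hbc
    · -- b < c : nothing
      have fb : ¬ Up b c d := fun h => by have := (ub.1 h).1.1; linarith
      have fc : ¬ Dn c a b := fun h => by have := (dc.1 h).1.2; linarith
      have fd : ¬ Dn d a b := fun h => by have := (dd.1 h).1.2; linarith
      rw [ind_false fa, ind_false fb, ind_false fc, ind_false fd]
      ring
    · -- c < b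
      have hab' : a.re < b.re := by linarith
      rcases lt_or_gt_of_ne h4 with hbd | hbd
      · -- a < c < b < d
        have hcd' : c.re < d.re := by linarith
        have fd : ¬ Dn d a b := fun h => by have := (dd.1 h).1.2; linarith
        have e : Dn c a b ↔ Up b c d := by
          rw [dc, ub]
          have key := no_cross hab' hcd' hdis hbc.le hac.le le_rfl le_rfl hbd.le
          rw [ht_left, ht_right hab'.ne] at key
          constructor
          · rintro ⟨_, h⟩
            exact ⟨⟨hbc, hbd⟩, key.1 h⟩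
          · rintro ⟨_, h⟩
            exact ⟨⟨hac, hbc⟩, key.2 h⟩
        rw [ind_false fa, ind_false fd, ind_congr e, zero_add, add_zero]
        exact add_self2 _
      · -- a < c ≤ d < b
        have fb : ¬ Up b c d := fun h => by have := (ub.1 h).1.2; linarith
        have e : Dn c a b ↔ Dn d a b := by
          rw [dc, dd]
          have hac' : a.re < c.re ∧ c.re < b.re := ⟨hac, hbc⟩
          have had' : a.re < d.re ∧ d.re < b.re := ⟨by linarith, hbd⟩
          have key : ht a b c.re < c.im ↔ ht a b d.re < d.im := by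
            rcases hcd.lt_or_eq with hcd' | hcd'
            · have key := no_cross hab' hcd' hdis hcd'.le hac.le hbd.le le_rfl le_rfl
              rw [ht_left, ht_right hcd'.ne] at key
              exact key
            · have hz : ¬ ((c.im ≤ ht a b c.re ∧ ht a b c.re ≤ d.im) ∨
                  (d.im ≤ ht a b c.re ∧ ht a b c.re ≤ c.im)) := fun h =>
                hdis' _ (mem_vseg hcd' h) (mem_seg hab' hac.le hbc.le)
              rw [← hcd']
              constructor
              · intro h
                by_contra hcon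
                rw [not_lt] at hcon
                exact hz (Or.inr ⟨hcon, h.le⟩)
              · intro h
                by_contra hcon
                rw [not_lt] at hcon
                exact hz (Or.inl ⟨hcon, h.le⟩)
          constructor
          · rintro ⟨_, h⟩
            exact ⟨had', key.1 h⟩
          · rintro ⟨_, h⟩
            exact ⟨hac', key.2 h⟩
        rw [ind_false fa, ind_false fb, ind_congr e, zero_add, zero_add]
        exact add_self2 _
  · -- c < a
    have fc : ¬ Dn c a b := fun h => by have := (dc.1 h).1.1; linarith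
    rcases lt_or_gt_of_ne h2 with had | had
    · -- a < d
      have hcd' : c.re < d.re := by linarith
      rcases lt_or_gt_of_ne h4 with hbd | hbd
      · -- c < a ≤ b < d
        have fd : ¬ Dn d a b := fun h => by have := (dd.1 h).1.2; linarith
        have e : Up a c d ↔ Up b c d := by
          rw [ua, ub]
          have key : a.im < ht c d a.re ↔ b.im < ht c d b.re := by
            rcases hab.lt_or_eq with hab' | hab'
            · have key := no_cross hab' hcd' hdis hab'.le le_rfl le_rfl hac.le hbd.le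
              rw [ht_left, ht_right hab'.ne] at key
              exact key
            · exact no_cross_v hab' hcd' hdis hac.le had.le
          constructor
          · rintro ⟨_, h⟩
            exact ⟨⟨by linarith, hbd⟩, key.1 h⟩
          · rintro ⟨_, h⟩
            exact ⟨⟨hac, had⟩, key.2 h⟩
        rw [ind_false fc, ind_false fd, ind_congr e, add_zero, add_zero]
        exact add_self2 _
      · -- c < a < d < b
        have hab' : a.re < b.re := by linarith
        have fb : ¬ Up b c d := fun h => by have := (ub.1 h).1.2; linarith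
        have e : Up a c d ↔ Dn d a b := by
          rw [ua, dd]
          have key := no_cross hab' hcd' hdis had.le le_rfl hbd.le hac.le le_rfl
          rw [ht_left, ht_right hcd'.ne] at key
          constructor
          · rintro ⟨_, h⟩
            exact ⟨⟨had, hbd⟩, key.1 h⟩
          · rintro ⟨_, h⟩
            exact ⟨⟨hac, had⟩, key.2 h⟩
        rw [ind_false fc, ind_false fb, ind_congr e, add_zero, add_zero]
        exact add_self2 _
    · -- d < a : nothing
      have fa : ¬ Up a c d := fun h => by have := (ua.1 h).1.2; linarith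
      have fb : ¬ Up b c d := fun h => by have := (ub.1 h).1.2; linarith
      have fd : ¬ Dn d a b := fun h => by have := (dd.1 h).1.1; linarith
      rw [ind_false fa, ind_false fb, ind_false fc, ind_false fd]
      ring

/-- the local parity lemma for two disjoint segments -/
theorem local_parity {a b c d : ℂ} (h1 : a.re ≠ c.re)
    (h2 : a.re ≠ d.re) (h3 : b.re ≠ c.re) (h4 : b.re ≠ d.re)
    (hdis : ∀ z, z ∈ segment ℝ a b → z ∉ segment ℝ c d) :
    ind (Up a c d) + ind (Up b c d) + ind (Dn c a b) + ind (Dn d a b) = 0 := by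
  rcases le_total a.re b.re with hab | hab <;> rcases le_total c.re d.re with hcd | hcd
  · exact local_aux hab hcd h1 h2 h3 h4 hdis
  · have := local_aux hab hcd h2 h1 h4 h3 (fun z hz => by rw [segment_symm]; exact hdis z hz)
    rw [ind_congr (Up_symm a d c), ind_congr (Up_symm b d c)] at this
    rw [← this]
    ring
  · have := local_aux hab hcd h3 h4 h1 h2 (fun z hz => hdis z (by rw [segment_symm]; exact hz))
    rw [ind_congr (Dn_symm c b a), ind_congr (Dn_symm d b a)] at this
    rw [← this]
    ring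
  · have := local_aux hab hcd h4 h3 h2 h1 (fun z hz => by
      rw [segment_symm]
      exact hdis z (by rw [segment_symm]; exact hz))
    rw [ind_congr (Up_symm a d c), ind_congr (Up_symm b d c), ind_congr (Dn_symm c b a),
      ind_congr (Dn_symm d b a)] at this
    rw [← this]
    ring

/-- a point off a segment is above or below -/
theorem up_add_dn {a c d : ℂ} (h1 : c.re ≠ a.re) (h2 : d.re ≠ a.re) (h : a ∉ segment ℝ c d) :
    ind (Up a c d) + ind (Dn a c d) = ind (c.re < a.re) + ind (d.re < a.re) := by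
  have key : ∀ {c d : ℂ}, c.re ≤ d.re → c.re ≠ a.re → d.re ≠ a.re → a ∉ segment ℝ c d →
      ind (Up a c d) + ind (Dn a c d) = ind (c.re < a.re) + ind (d.re < a.re) := by
    intro c d hcd h1 h2 h
    rcases lt_or_gt_of_ne h1 with h1 | h1
    · rcases lt_or_gt_of_ne h2 with h2 | h2
      · have f1 : ¬ Up a c d := by
          rintro ⟨h | h, _⟩ <;> linarith [h.1, h.2]
        have f2 : ¬ Dn a c d := by
          rintro ⟨h | h, _⟩ <;> linarith [h.1, h.2]
        rw [ind_false f1, ind_false f2, ind_true h1, ind_true h2]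
        rfl
      · rw [ind_true h1, ind_false (not_lt.2 h2.le)]
        rcases lt_trichotomy a.im (ht c d a.re) with h3 | h3 | h3
        · have f2 : ¬ Dn a c d := by
            rintro ⟨_, h⟩
            linarith
          rw [ind_true (show Up a c d from ⟨Or.inl ⟨h1, h2⟩, h3⟩), ind_false f2]
        · exfalso
          apply h
          have := mem_seg (h1.trans h2) h1.le h2.le
          rw [← h3] at this
          exact this
        · have f2 : ¬ Up a c d := by
            rintro ⟨_, h⟩
            linarith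
          rw [ind_true (show Dn a c d from ⟨Or.inl ⟨h1, h2⟩, h3⟩), ind_false f2]
          ring
    · have f1 : ¬ Up a c d := by
        rintro ⟨h | h, _⟩ <;> linarith [h.1, h.2]
      have f2 : ¬ Dn a c d := by
        rintro ⟨h | h, _⟩ <;> linarith [h.1, h.2]
      rw [ind_false f1, ind_false f2, ind_false (not_lt.2 h1.le),
        ind_false (not_lt.2 (h1.le.trans hcd))]
  rcases le_total c.re d.re with hcd | hcd
  · exact key hcd h1 h2 h
  · have := key hcd h2 h1 (by rw [segment_symm]; exact h)
    rw [ind_congr (Up_symm a d c), ind_congr (Dn_symm a d c)] at this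
    rw [this]
    ring

theorem telescope (N : ℕ) (f : ℕ → ZMod 2) :
    ∑ i ∈ Finset.range N, (f i + f (i + 1)) = f 0 + f N := by
  induction N with
  | zero => simp only [Finset.range_zero, Finset.sum_empty]; exact (add_self2 _).symm
  | succ N ih =>
    rw [Finset.sum_range_succ, ih]
    have := add_self2 (f N)
    linear_combination this

/-- number (mod 2) of segments of the polyline `w` above the point `a` -/
noncomputable def RR (N : ℕ) (a : ℂ) (w : ℕ → ℂ) : ZMod 2 :=
  ∑ j ∈ Finset.range N, ind (Up a (w j) (w (j + 1)))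

/-- number (mod 2) of segments of the polyline `w` below the point `a` -/
noncomputable def SR (N : ℕ) (a : ℂ) (w : ℕ → ℂ) : ZMod 2 :=
  ∑ j ∈ Finset.range N, ind (Dn a (w j) (w (j + 1)))

theorem RR_add_SR {N : ℕ} {a : ℂ} {w : ℕ → ℂ} (h1 : ∀ j ≤ N, (w j).re ≠ a.re)
    (h2 : ∀ j < N, a ∉ segment ℝ (w j) (w (j + 1))) :
    RR N a w + SR N a w = ind ((w 0).re < a.re) + ind ((w N).re < a.re) := by
  unfold RR SR
  rw [← Finset.sum_add_distrib, ← telescope N (fun j => ind ((w j).re < a.re))]
  refine Finset.sum_congr rfl fun j hj => ?_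
  rw [Finset.mem_range] at hj
  exact up_add_dn (h1 j (by omega)) (h1 (j + 1) (by omega)) (h2 j hj)

/-- parity for two disjoint polylines -/
theorem poly_parity {N : ℕ} {v w : ℕ → ℂ} (h1 : ∀ i ≤ N, ∀ j ≤ N, (v i).re ≠ (w j).re)
    (h2 : ∀ i < N, ∀ j < N, ∀ z, z ∈ segment ℝ (v i) (v (i + 1)) →
      z ∉ segment ℝ (w j) (w (j + 1))) :
    RR N (v 0) w + RR N (v N) w + SR N (w 0) v + SR N (w N) v = 0 := by
  have key : ∑ i ∈ Finset.range N, ∑ j ∈ Finset.range N,
      (ind (Up (v i) (w j) (w (j + 1))) + ind (Up (v (i + 1)) (w j) (w (j + 1))) +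
        ind (Dn (w j) (v i) (v (i + 1))) + ind (Dn (w (j + 1)) (v i) (v (i + 1)))) = 0 := by
    refine Finset.sum_eq_zero fun i hi => Finset.sum_eq_zero fun j hj => ?_
    rw [Finset.mem_range] at hi hj
    exact local_parity (h1 _ (by omega) _ (by omega)) (h1 _ (by omega) _ (by omega))
      (h1 _ (by omega) _ (by omega)) (h1 _ (by omega) _ (by omega)) (h2 i hi j hj)
  have e1 : ∑ i ∈ Finset.range N, ∑ j ∈ Finset.range N,
      (ind (Up (v i) (w j) (w (j + 1))) + ind (Up (v (i + 1)) (w j) (w (j + 1))) +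
        ind (Dn (w j) (v i) (v (i + 1))) + ind (Dn (w (j + 1)) (v i) (v (i + 1)))) =
      (∑ i ∈ Finset.range N, (RR N (v i) w + RR N (v (i + 1)) w)) +
      ∑ j ∈ Finset.range N, (SR N (w j) v + SR N (w (j + 1)) v) := by
    unfold RR SR
    simp only [Finset.sum_add_distrib]
    rw [Finset.sum_comm (f := fun i j => ind (Dn (w j) (v i) (v (i + 1)))),
      Finset.sum_comm (f := fun i j => ind (Dn (w (j + 1)) (v i) (v (i + 1))))]
    ring
  rw [e1, telescope N (fun i => RR N (v i) w), telescope N (fun j => SR N (w j) v)] at key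
  rw [← key]
  ring

/-- the parity count behind van Kampen-Flores -/
theorem count (R : Fin 5 → Fin 5 → Fin 5 → ZMod 2) (m : Fin 5 → Fin 5 → ZMod 2)
    (hm : ∀ a b : Fin 5, a ≠ b → m a b + m b a = 1)
    (E : ∀ i j k l : Fin 5, i < j → k < l → i ≠ k → i ≠ l → j ≠ k → j ≠ l →
      R i k l + R j k l + R k i j + R l i j + (m i k + m j k + m i l + m j l) = 0) : False := by
  have h2 : (2 : ZMod 2) = 0 := rfl
  have key : (1 : ZMod 2) = 0 := by
    linear_combination (E 0 1 2 3 (by decide) (by decide) (by decide) (by decide) (by decide) (by decide) + E 0 1 2 4 (by decide) (by decide) (by decide) (by decide) (by decide) (by decide) + E 0 1 3 4 (by decide) (by decide) (by decide) (by decide) (by decide) (by decide) + E 0 2 1 3 (by decide) (by decide) (by decide) (by decide) (by decide) (by decide) + E 0 2 1 4 (by decide) (by decide) (by decide) (by decide) (by decide) (by decide) + E 0 2 3 4 (by decide) (by decide) (by decide) (by decide) (by decide) (by decide) + E 0 3 1 2 (by decide) (by decide) (by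 decide) (by decide) (by decide) (by decide) + E 0 3 1 4 (by decide) (by decide) (by decide) (by decide) (by decide) (by decide) + E 0 3 2 4 (by decide) (by decide) (by decide) (by decide) (by decide) (by decide) + E 0 4 1 2 (by decide) (by decide) (by decide) (by decide) (by decide) (by decide) + E 0 4 1 3 (by decide) (by decide) (by decide) (by decide) (by decide) (by decide) + E 0 4 2 3 (by decide) (by decide) (by decide) (by decide) (by decide) (by decide) + E 1 2 3 4 (by decide) (by decide) (by decide) (by decide) (by decide) (by decide) + E 1 3 2 4 (by decide) (by decide) (by decide) (by decide) (by decide) (by decide) + E 1 4 2 3 (by decide) (by decide) (by decide) (by decide) (by decide) (by decide)) - 2 * hm 1 2 (by decide) - 2 * hm 1 3 (by decide) - 2 * hm 1 4 (by decide) - 3 * hm 2 3 (by decide) - 3 * hm 2 4 (by decide) - 3 * hm 3 4 (by decide) - h2 * (R 0 1 2 + R 0 1 3 + R 0 1 4 + R 0 2 3 + R 0 2 4 + R 0 3 4 + R 1 0 2 + R 1 0 3 + R 1 0 4 + R 1 2 3 + R 1 2 4 + R 1 3 4 + R 2 0 1 + R 2 0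 3 + R 2 0 4 + R 2 1 3 + R 2 1 4 + R 2 3 4 + R 3 0 1 + R 3 0 2 + R 3 0 4 + R 3 1 2 + R 3 1 4 + R 3 2 4 + R 4 0 1 + R 4 0 2 + R 4 0 3 + R 4 1 2 + R 4 1 3 + R 4 2 3 + 3 * m 0 1 + 3 * m 0 2 + 3 * m 0 3 + 3 * m 0 4 + 1 * m 1 2 + 1 * m 1 3 + 1 * m 1 4 + 7)
  exact one_ne_zero key

/-- the discrete theorem in general position -/
theorem discrete_gp {N : ℕ} (hN : 0 < N) (p : Fin 5 → ℂ) (v : Fin 5 → Fin 5 → ℕ → ℂ)
    (h0 : ∀ i j, v i j 0 = p i) (h1 : ∀ i j, v i j N = p j)
    (hdis : ∀ i j k l : Fin 5, i < j → k < l → i ≠ k → i ≠ l → j ≠ k → j ≠ l →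
      ∀ a < N, ∀ b < N, ∀ z, z ∈ segment ℝ (v i j a) (v i j (a + 1)) →
        z ∉ segment ℝ (v k l b) (v k l (b + 1)))
    (hgp : ∀ i j k l : Fin 5, i < j → k < l → i ≠ k → i ≠ l → j ≠ k → j ≠ l →
      ∀ a ≤ N, ∀ b ≤ N, (v i j a).re ≠ (v k l b).re) : False := by
  have hp : ∀ a b : Fin 5, a ≠ b → (p a).re ≠ (p b).re := by
    have key : ∀ a b : Fin 5, a ≠ b → ∃ c d : Fin 5, (a < c ∧ b < d ∧ a ≠ b ∧ a ≠ d ∧ c ≠ b ∧ c ≠ d)
        ∨ (a < c ∧ d < b ∧ a ≠ d ∧ a ≠ b ∧ c ≠ d ∧ c ≠ b)
        ∨ (c < a ∧ b < d ∧ c ≠ b ∧ c ≠ d ∧ a ≠ b ∧ a ≠ d)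
        ∨ (c < a ∧ d < b ∧ c ≠ d ∧ c ≠ b ∧ a ≠ d ∧ a ≠ b) := by decide
    intro a b hab
    obtain ⟨c, d, h | h | h | h⟩ := key a b hab
    · have := hgp a c b d h.1 h.2.1 h.2.2.1 h.2.2.2.1 h.2.2.2.2.1 h.2.2.2.2.2 0 (Nat.zero_le _) 0
        (Nat.zero_le _)
      rwa [h0, h0] at this
    · have := hgp a c d b h.1 h.2.1 h.2.2.1 h.2.2.2.1 h.2.2.2.2.1 h.2.2.2.2.2 0 (Nat.zero_le _) N
        le_rfl
      rwa [h0, h1] at this
    · have := hgp c a b d h.1 h.2.1 h.2.2.1 h.2.2.2.1 h.2.2.2.2.1 h.2.2.2.2.2 N le_rfl 0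
        (Nat.zero_le _)
      rwa [h0, h1] at this
    · have := hgp c a d b h.1 h.2.1 h.2.2.1 h.2.2.2.1 h.2.2.2.2.1 h.2.2.2.2.2 N le_rfl N
        le_rfl
      rwa [h1, h1] at this
  refine count (fun a i j => RR N (p a) (v i j)) (fun a b => ind ((p a).re < (p b).re)) ?_ ?_
  · intro a b hab
    rcases lt_or_gt_of_ne (hp a b hab) with h | h
    · rw [ind_true h, ind_false (not_lt.2 h.le), add_zero]
    · rw [ind_true h, ind_false (not_lt.2 h.le), zero_add]
  · intro i j k l hij hkl hik hil hjk hjl
    have e := poly_parity (N := N) (v := v i j) (w := v k l)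
      (hgp i j k l hij hkl hik hil hjk hjl) (hdis i j k l hij hkl hik hil hjk hjl)
    have e1 := RR_add_SR (N := N) (a := p k) (w := v i j)
      (fun c hc => by
        have := hgp i j k l hij hkl hik hil hjk hjl c hc 0 (Nat.zero_le _)
        rwa [h0 k l] at this)
      (fun c hc hcon => by
        have := hdis i j k l hij hkl hik hil hjk hjl c hc 0 hN (p k) hcon
        rw [h0 k l] at this
        exact this (left_mem_segment ℝ _ _))
    have e2 := RR_add_SR (N := N) (a := p l) (w := v i j)
      (fun c hc => by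
        have := hgp i j k l hij hkl hik hil hjk hjl c hc N le_rfl
        rwa [h1 k l] at this)
      (fun c hc hcon => by
        have := hdis i j k l hij hkl hik hil hjk hjl c hc (N - 1) (by omega) (p l) hcon
        rw [Nat.sub_add_cancel hN, h1 k l] at this
        exact this (right_mem_segment ℝ _ _))
    rw [h0, h1] at e1 e2
    rw [h0, h1, h0, h1] at e
    show RR N (p i) (v k l) + RR N (p j) (v k l) + RR N (p k) (v i j) + RR N (p l) (v i j) +
      (ind ((p i).re < (p k).re) + ind ((p j).re < (p k).re) + ind ((p i).re < (p l).re) +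
        ind ((p j).re < (p l).re)) = 0
    have s1 := add_self2 (SR N (p k) (v i j))
    have s2 := add_self2 (SR N (p l) (v i j))
    have s3 := add_self2 (ind ((p i).re < (p k).re) + ind ((p j).re < (p k).re))
    have s4 := add_self2 (ind ((p i).re < (p l).re) + ind ((p j).re < (p l).re))
    linear_combination e + e1 + e2 - s1 - s2 + s3 + s4

/-- the shear -/
noncomputable def shear (ε : ℝ) : ℂ →ₗ[ℝ] ℂ where
  toFun z := ⟨z.re + ε * z.im, z.im⟩
  map_add' x y := by
    apply Complex.ext
    · simp only [Complex.add_re, Complex.add_im]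
      ring
    · simp only [Complex.add_im]
  map_smul' c x := by
    apply Complex.ext
    · simp only [Complex.smul_re, Complex.smul_im, smul_eq_mul, RingHom.id_apply]
      ring
    · simp only [Complex.smul_im, smul_eq_mul, RingHom.id_apply]

theorem shear_inj (ε : ℝ) : Function.Injective (shear ε) := by
  intro x y h
  have h1 : (shear ε x).im = (shear ε y).im := by rw [h]
  have h2 : (shear ε x).re = (shear ε y).re := by rw [h]
  replace h1 : x.im = y.im := h1
  replace h2 : x.re + ε * x.im = y.re + ε * y.im := h2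
  apply Complex.ext
  · rw [h1] at h2
    linarith
  · exact h1

/-- a good shear exists -/
theorem exists_shear (F : Finset ℂ) : ∃ ε : ℝ, ∀ z ∈ F, ∀ w ∈ F, z ≠ w →
    (shear ε z).re ≠ (shear ε w).re := by
  classical
  obtain ⟨ε, hε⟩ := Infinite.exists_notMem_finset
    ((F ×ˢ F).image (fun q : ℂ × ℂ => -(q.1 - q.2).re / (q.1 - q.2).im))
  refine ⟨ε, fun z hz w hw hne h => ?_⟩
  have h' : z.re + ε * z.im = w.re + ε * w.im := h
  by_cases him : z.im = w.im
  · apply hne
    apply Complex.ext
    · rw [him] at h'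
      linarith
    · exact him
  · apply hε
    rw [Finset.mem_image]
    refine ⟨(z, w), Finset.mk_mem_product hz hw, ?_⟩
    have h0 : z.im - w.im ≠ 0 := sub_ne_zero.2 him
    show -(z - w).re / (z - w).im = ε
    rw [Complex.sub_re, Complex.sub_im, div_eq_iff h0]
    linarith

/-- the discrete theorem -/
theorem discrete {N : ℕ} (hN : 0 < N) (p : Fin 5 → ℂ) (v : Fin 5 → Fin 5 → ℕ → ℂ)
    (h0 : ∀ i j, v i j 0 = p i) (h1 : ∀ i j, v i j N = p j)
    (hdis : ∀ i j k l : Fin 5, i < j → k < l → i ≠ k → i ≠ l → j ≠ k → j ≠ l →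
      ∀ a < N, ∀ b < N, ∀ z, z ∈ segment ℝ (v i j a) (v i j (a + 1)) →
        z ∉ segment ℝ (v k l b) (v k l (b + 1)))
    (hne : ∀ i j k l : Fin 5, i < j → k < l → i ≠ k → i ≠ l → j ≠ k → j ≠ l →
      ∀ a ≤ N, ∀ b ≤ N, v i j a ≠ v k l b) : False := by
  classical
  set F : Finset ℂ := ((Finset.univ : Finset (Fin 5)) ×ˢ ((Finset.univ : Finset (Fin 5)) ×ˢ
    Finset.range (N + 1))).image (fun q => v q.1 q.2.1 q.2.2) with hF
  have hmem : ∀ i j : Fin 5, ∀ a ≤ N, v i j a ∈ F := by
    intro i j a ha
    rw [hF, Finset.mem_image]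
    exact ⟨(i, j, a), Finset.mk_mem_product (Finset.mem_univ _)
      (Finset.mk_mem_product (Finset.mem_univ _) (Finset.mem_range.2 (by omega))), rfl⟩
  obtain ⟨ε, hε⟩ := exists_shear F
  refine discrete_gp hN (fun i => shear ε (p i)) (fun i j a => shear ε (v i j a))
    (fun i j => by rw [h0]) (fun i j => by rw [h1]) ?_ ?_
  · intro i j k l hij hkl hik hil hjk hjl a ha b hb z hz hz'
    have i1 := image_segment ℝ (shear ε).toAffineMap (v i j a) (v i j (a + 1))
    have i2 := image_segment ℝ (shear ε).toAffineMap (v k l b) (v k l (b + 1))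
    simp only [LinearMap.coe_toAffineMap] at i1 i2
    rw [← i1] at hz
    rw [← i2] at hz'
    obtain ⟨x, hx, hxz⟩ := hz
    obtain ⟨y, hy, hyz⟩ := hz'
    have : x = y := shear_inj ε (hxz.trans hyz.symm)
    rw [← this] at hy
    exact hdis i j k l hij hkl hik hil hjk hjl a ha b hb x hx hy
  · intro i j k l hij hkl hik hil hjk hjl a ha b hb
    exact hε _ (hmem i j a ha) _ (hmem k l b hb) (hne i j k l hij hkl hik hil hjk hjl a ha b hb)

open Filter Topology in
/-- van Kampen-Flores for `K₅` in the plane: some two independent edges meet -/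
theorem vkf (p : Fin 5 → ℂ) (P : ∀ i j : Fin 5, Path (p i) (p j)) :
    ∃ i j k l : Fin 5, i < j ∧ k < l ∧ i ≠ k ∧ i ≠ l ∧ j ≠ k ∧ j ≠ l ∧
      ∃ s t : unitInterval, P i j s = P k l t := by
  by_contra hcon
  have hd : ∀ i j k l : Fin 5, i < j → k < l → i ≠ k → i ≠ l → j ≠ k → j ≠ l →
      ∀ s t : unitInterval, P i j s ≠ P k l t := fun i j k l hij hkl hik hil hjk hjl s t h =>
    hcon ⟨i, j, k, l, hij, hkl, hik, hil, hjk, hjl, s, t, h⟩
  -- uniform distance
  have hδ : ∃ δ : ℝ, 0 < δ ∧ ∀ i j k l : Fin 5, i < j → k < l → i ≠ k → i ≠ l → j ≠ k → j ≠ l →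
      ∀ s t : unitInterval, δ ≤ dist (P i j s) (P k l t) := by
    have key : ∀ᶠ δ : ℝ in 𝓝[>] 0, ∀ i j k l : Fin 5, i < j → k < l → i ≠ k → i ≠ l → j ≠ k →
        j ≠ l → ∀ s t : unitInterval, δ ≤ dist (P i j s) (P k l t) := by
      rw [eventually_all]; intro i
      rw [eventually_all]; intro j
      rw [eventually_all]; intro k
      rw [eventually_all]; intro l
      by_cases hc : i < j ∧ k < l ∧ i ≠ k ∧ i ≠ l ∧ j ≠ k ∧ j ≠ l
      · obtain ⟨h1, h2, h3, h4, h5, h6⟩ := hc
        have hcont : Continuous (fun q : unitInterval × unitInterval =>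
            dist (P i j q.1) (P k l q.2)) :=
          ((P i j).continuous.comp continuous_fst).dist ((P k l).continuous.comp continuous_snd)
        obtain ⟨q, _, hq⟩ := isCompact_univ.exists_isMinOn univ_nonempty hcont.continuousOn
        have hpos : 0 < dist (P i j q.1) (P k l q.2) :=
          dist_pos.2 (hd i j k l h1 h2 h3 h4 h5 h6 q.1 q.2)
        filter_upwards [Ioc_mem_nhdsGT hpos] with δ hδ _ _ _ _ _ _ s t
        exact hδ.2.trans (hq (mem_univ (s, t)))
      · refine Eventually.of_forall fun δ h1 h2 h3 h4 h5 h6 => ?_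
        exact absurd ⟨h1, h2, h3, h4, h5, h6⟩ hc
    obtain ⟨δ, h1, h2⟩ := (key.and self_mem_nhdsWithin).exists
    exact ⟨δ, h2, h1⟩
  obtain ⟨δ, hδ0, hδ⟩ := hδ
  -- uniform continuity
  have hη : ∃ η : ℝ, 0 < η ∧ ∀ i j : Fin 5, ∀ s t : unitInterval, dist s t < η →
      dist (P i j s) (P i j t) < δ / 4 := by
    have key : ∀ᶠ η : ℝ in 𝓝[>] 0, ∀ i j : Fin 5, ∀ s t : unitInterval, dist s t < η →
        dist (P i j s) (P i j t) < δ / 4 := by
      rw [eventually_all]; intro i
      rw [eventually_all]; intro j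
      have huc : UniformContinuous (P i j) :=
        CompactSpace.uniformContinuous_of_continuous (P i j).continuous
      obtain ⟨η, h1, h2⟩ := Metric.uniformContinuous_iff.1 huc (δ / 4) (by positivity)
      filter_upwards [Ioc_mem_nhdsGT h1] with x hx s t hst
      exact h2 (hst.trans_le hx.2)
    obtain ⟨η, h1, h2⟩ := (key.and self_mem_nhdsWithin).exists
    exact ⟨η, h2, h1⟩
  obtain ⟨η, hη0, hη⟩ := hη
  obtain ⟨n, hn⟩ := exists_nat_one_div_lt hη0
  set N : ℕ := n + 1 with hN
  have hN0 : (0 : ℝ) < N := by rw [hN]; positivity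
  set q : ℕ → unitInterval := fun k => projIcc 0 1 zero_le_one ((k : ℝ) / N) with hq
  have hstep : ∀ k, dist (q k) (q (k + 1)) < η := by
    intro k
    refine lt_of_le_of_lt ?_ hn
    rw [Subtype.dist_eq, Real.dist_eq]
    refine (abs_projIcc_sub_projIcc (zero_le_one (α := ℝ))).trans ?_
    rw [← sub_div, abs_div, abs_of_pos hN0]
    have : |(k : ℝ) - ((k + 1 : ℕ) : ℝ)| = 1 := by
      push_cast
      rw [sub_add_cancel_left, abs_neg, abs_one]
    rw [this, hN]
    push_cast
    exact le_rfl
  have hseg : ∀ i j : Fin 5, ∀ a : ℕ, ∀ z ∈ segment ℝ (P i j (q a)) (P i j (q (a + 1))),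
      dist z (P i j (q a)) < δ / 4 := by
    intro i j a z hz
    have hsub : segment ℝ (P i j (q a)) (P i j (q (a + 1))) ⊆ Metric.ball (P i j (q a)) (δ / 4) :=
      (convex_ball _ _).segment_subset (Metric.mem_ball_self (by positivity))
        (by rw [Metric.mem_ball, dist_comm]; exact hη i j _ _ (hstep a))
    exact hsub hz
  refine discrete (N := N) (by omega) p (fun i j k => P i j (q k)) ?_ ?_ ?_ ?_
  · intro i j
    have : q 0 = 0 := by
      rw [hq]
      show projIcc (0 : ℝ) 1 zero_le_one (((0 : ℕ) : ℝ) / N) = 0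
      rw [Nat.cast_zero, zero_div]
      exact projIcc_left _
    show P i j (q 0) = p i
    rw [this]
    exact (P i j).source
  · intro i j
    have : q N = 1 := by
      rw [hq]
      show projIcc (0 : ℝ) 1 zero_le_one ((N : ℝ) / N) = 1
      rw [div_self hN0.ne']
      exact projIcc_right _
    show P i j (q N) = p j
    rw [this]
    exact (P i j).target
  · intro i j k l hij hkl hik hil hjk hjl a _ b _ z hz hz'
    have d1 := hseg i j a z hz
    have d2 := hseg k l b z hz'
    have d3 := hδ i j k l hij hkl hik hil hjk hjl (q a) (q b)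
    have d4 := dist_triangle_left (P i j (q a)) (P k l (q b)) z
    linarith
  · intro i j k l hij hkl hik hil hjk hjl a _ b _
    exact hd i j k l hij hkl hik hil hjk hjl (q a) (q b)

end Pool.Agent.Lib.VKF
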