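import Mathlib
import Pool.Agent.Lib.K5Model
import Pool.Agent.Lib.VanKampenFlores
set_option autoImplicit false
namespace Pool.Agent.Lib.Planar

/-- the embedding hypothesis of S11295, verbatim -/
def PlaneEmbedded {V : Type} (G : SimpleGraph V) : Prop :=
  ∃ f : V → ℂ, Function.Injective f ∧
    ∃ γ : V → V → unitInterval → ℂ,
      (∀ u v : V, G.Adj u v →
        Continuous (γ u v) ∧ Function.Injective (γ u v) ∧
          γ u v 0 = f u ∧ γ u v 1 = f v) ∧
      (∀ (u v w : V) (t : unitInterval), G.Adj u v → t ≠ 0 → t ≠ 1 →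
        γ u v t ≠ f w) ∧
      (∀ (u v x y : V) (a b : unitInterval), G.Adj u v → G.Adj x y →
        Sym2.mk (u, v) ≠ Sym2.mk (x, y) →
        a ≠ 0 → a ≠ 1 → b ≠ 0 → b ≠ 1 → γ u v a ≠ γ x y b)

/-- the part of the drawing spanned by a vertex set -/
def carrier {V : Type} (G : SimpleGraph V) (f : V → ℂ) (γ : V → V → unitInterval → ℂ)
    (S : Set V) : Set ℂ :=
  {z | (∃ w ∈ S, z = f w) ∨ ∃ u ∈ S, ∃ v ∈ S, G.Adj u v ∧ ∃ a, z = γ u v a}

section

variable {V : Type} {G : SimpleGraph V} {f : V → ℂ} {γ : V → V → unitInterval → ℂ}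

theorem carrier_vertex {S : Set V} {w : V} (hw : w ∈ S) : f w ∈ carrier G f γ S :=
  Or.inl ⟨w, hw, rfl⟩

theorem joined_adj (h1 : ∀ u v : V, G.Adj u v →
        Continuous (γ u v) ∧ Function.Injective (γ u v) ∧ γ u v 0 = f u ∧ γ u v 1 = f v)
    {S : Set V} {u v : V} (hu : u ∈ S) (hv : v ∈ S) (h : G.Adj u v) :
    JoinedIn (carrier G f γ S) (f u) (f v) := by
  obtain ⟨hc, -, h0, h1'⟩ := h1 u v h
  exact ⟨⟨⟨γ u v, hc⟩, h0, h1'⟩, fun t => Or.inr ⟨u, hu, v, hv, h, t, rfl⟩⟩

theorem joined_walk (h1 : ∀ u v : V, G.Adj u v →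
        Continuous (γ u v) ∧ Function.Injective (γ u v) ∧ γ u v 0 = f u ∧ γ u v 1 = f v)
    {B S : Set V} (hBS : B ⊆ S) {u v : B} (p : (G.induce B).Walk u v) :
    JoinedIn (carrier G f γ S) (f u.1) (f v.1) := by
  induction p with
  | nil => exact JoinedIn.refl (carrier_vertex (hBS (Subtype.coe_prop _)))
  | @cons a b c h p ih =>
    exact (joined_adj h1 (hBS a.2) (hBS b.2) h).trans ih

theorem carrier_disjoint (hf : Function.Injective f)
    (h1 : ∀ u v : V, G.Adj u v →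
        Continuous (γ u v) ∧ Function.Injective (γ u v) ∧ γ u v 0 = f u ∧ γ u v 1 = f v)
    (h2 : ∀ (u v w : V) (t : unitInterval), G.Adj u v → t ≠ 0 → t ≠ 1 → γ u v t ≠ f w)
    (h3 : ∀ (u v x y : V) (a b : unitInterval), G.Adj u v → G.Adj x y →
        Sym2.mk (u, v) ≠ Sym2.mk (x, y) →
        a ≠ 0 → a ≠ 1 → b ≠ 0 → b ≠ 1 → γ u v a ≠ γ x y b)
    {S T : Set V} (hST : Disjoint S T) {z : ℂ} (hS : z ∈ carrier G f γ S)
    (hT : z ∈ carrier G f γ T) : False := by
  rw [Set.disjoint_left] at hST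
  -- a vertex point of one carrier is not in the other one
  have key : ∀ (S T : Set V), (∀ a, a ∈ S → a ∉ T) → ∀ w ∈ S, f w ∉ carrier G f γ T := by
    intro S T hd w hw hz
    rcases hz with ⟨x, hx, e⟩ | ⟨x, hx, y, hy, hxy, b, e⟩
    · exact hd w hw (hf e ▸ hx)
    · obtain ⟨-, -, e0, e1⟩ := h1 x y hxy
      by_cases b0 : b = 0
      · rw [b0, e0] at e; exact hd w hw (hf e ▸ hx)
      · by_cases b1 : b = 1
        · rw [b1, e1] at e; exact hd w hw (hf e ▸ hy)
        · exact h2 x y w b hxy b0 b1 e.symm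
  rcases hS with ⟨w, hw, rfl⟩ | ⟨u, hu, v, hv, huv, a, e⟩
  · exact key S T (fun a ha hb => hST ha hb) w hw hT
  · obtain ⟨-, -, e0, e1⟩ := h1 u v huv
    by_cases a0 : a = 0
    · rw [a0, e0] at e; rw [e] at hT; exact key S T (fun a ha hb => hST ha hb) u hu hT
    · by_cases a1 : a = 1
      · rw [a1, e1] at e; rw [e] at hT; exact key S T (fun a ha hb => hST ha hb) v hv hT
      · rcases hT with ⟨w, hw, e'⟩ | ⟨x, hx, y, hy, hxy, b, e'⟩
        · exact h2 u v w a huv a0 a1 (e.symm.trans e')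
        · obtain ⟨-, -, e0', e1'⟩ := h1 x y hxy
          by_cases b0 : b = 0
          · rw [b0, e0'] at e'
            exact h2 u v x a huv a0 a1 (e.symm.trans e')
          · by_cases b1 : b = 1
            · rw [b1, e1'] at e'
              exact h2 u v y a huv a0 a1 (e.symm.trans e')
            · refine h3 u v x y a b huv hxy ?_ a0 a1 b0 b1 (e.symm.trans e')
              intro hs
              have h4 := congrFun hs (u, v)
              rw [Sym2.eq_iff] at h4
              have h5 : (u, v) = (x, y) := by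
                rcases h4 with ⟨h, -⟩ | ⟨-, h⟩ <;> exact h
              have h6 : u = x := congrArg Prod.fst h5
              exact hST hu (h6 ▸ hx)

end

theorem not_hasK5Model {V : Type} [Fintype V] (G : SimpleGraph V) (h : PlaneEmbedded G) :
    ¬ Pool.Agent.Lib.K5.HasK5Model G := by
  rintro ⟨B, hconn, hdisj, hadj⟩
  obtain ⟨f, hf, γ, h1, h2, h3⟩ := h
  have hne : ∀ i, (B i).Nonempty := by
    intro i
    obtain ⟨x⟩ := (hconn i).nonempty
    exact ⟨x.1, x.2⟩
  choose r hr using hne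
  have hj : ∀ i j : Fin 5, i ≠ j →
      JoinedIn (carrier G f γ (B i ∪ B j)) (f (r i)) (f (r j)) := by
    intro i j hij
    obtain ⟨u, hu, v, hv, huv⟩ := hadj i j hij
    obtain ⟨p⟩ := (hconn i).preconnected ⟨r i, hr i⟩ ⟨u, hu⟩
    obtain ⟨q⟩ := (hconn j).preconnected ⟨v, hv⟩ ⟨r j, hr j⟩
    have a1 := joined_walk h1 (S := B i ∪ B j) Set.subset_union_left p
    have a2 := joined_adj h1 (S := B i ∪ B j) (Or.inl hu) (Or.inr hv) huv
    have a3 := joined_walk h1 (S := B i ∪ B j) Set.subset_union_right q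
    exact (a1.trans a2).trans a3
  have hP : ∀ i j : Fin 5, ∃ P : Path (f (r i)) (f (r j)), i ≠ j →
      ∀ t, P t ∈ carrier G f γ (B i ∪ B j) := by
    intro i j
    by_cases hij : i = j
    · subst hij
      exact ⟨Path.refl _, fun h => absurd rfl h⟩
    · obtain ⟨P, hP⟩ := hj i j hij
      exact ⟨P, fun _ => hP⟩
  choose P hP using hP
  obtain ⟨i, j, k, l, hij, hkl, hik, hil, hjk, hjl, s, t, hst⟩ :=
    Pool.Agent.Lib.VKF.vkf (fun i => f (r i)) P
  have z1 := hP i j hij.ne s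
  have z2 := hP k l hkl.ne t
  rw [hst] at z1
  refine carrier_disjoint hf h1 h2 h3 ?_ z1 z2
  rw [Set.disjoint_union_left, Set.disjoint_union_right, Set.disjoint_union_right]
  exact ⟨⟨hdisj i k hik, hdisj i l hil⟩, hdisj j k hjk, hdisj j l hjl⟩

end Pool.Agent.Lib.Planar
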