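import Mathlib

/-!
# Elementary prime sums, Mertens type bounds and Rankin's bound for smooth numbers
-/

namespace Pool.Agent.Lib.PrimeSums

open Finset

/-- `n ↦ n^(-σ)` as a monoid homomorphism. -/
noncomputable def powHom (σ : ℝ) : ℕ →* ℝ where
  toFun n := (n : ℝ) ^ (-σ)
  map_one' := by simp
  map_mul' m n := by
    push_cast
    exact Real.mul_rpow (Nat.cast_nonneg m) (Nat.cast_nonneg n)

lemma powHom_lt_one {σ : ℝ} (hσ : 0 < σ) {p : ℕ} (hp : p.Prime) : ‖powHom σ p‖ < 1 := by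
  have h : powHom σ p = (p : ℝ) ^ (-σ) := rfl
  rw [h, Real.norm_of_nonneg (by positivity)]
  exact Real.rpow_lt_one_of_one_lt_of_neg (by exact_mod_cast hp.one_lt) (by linarith)

/-- a finite set of `k`-smooth numbers has `∑ n^(-σ)` at most the Euler product. -/
lemma sum_smooth_le {σ : ℝ} (hσ : 0 < σ) (k : ℕ) (S : Finset ℕ) (hS : ∀ n ∈ S, n ∈ k.smoothNumbers) :
    ∑ n ∈ S, (n : ℝ) ^ (-σ) ≤ ∏ p ∈ k.primesBelow, (1 - (p : ℝ) ^ (-σ))⁻¹ := by
  obtain ⟨h1, h2⟩ := EulerProduct.summable_and_hasSum_smoothNumbers_prod_primesBelow_geometric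
    (f := powHom σ) (fun hp => powHom_lt_one hσ hp) k
  have h3 : ∏ p ∈ k.primesBelow, (1 - (p : ℝ) ^ (-σ))⁻¹
      = ∑' m : k.smoothNumbers, ((m : ℕ) : ℝ) ^ (-σ) := h2.tsum_eq.symm
  rw [h3]
  classical
  have h4 := Finset.sum_subtype_of_mem (s := S) (p := fun n => n ∈ k.smoothNumbers)
    (fun n : ℕ => (n : ℝ) ^ (-σ)) hS
  rw [← h4]
  exact h2.summable.sum_le_tsum _ (fun m _ => by
    show 0 ≤ ((m : ℕ) : ℝ) ^ (-σ)
    positivity)

/-- **Rankin's bound** for smooth numbers. -/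
lemma rankin {σ : ℝ} (hσ : 0 < σ) (k N : ℕ) :
    (#{n ∈ Icc 1 N | n ∈ k.smoothNumbers} : ℝ)
      ≤ (N : ℝ) ^ σ * ∏ p ∈ k.primesBelow, (1 - (p : ℝ) ^ (-σ))⁻¹ := by
  classical
  have h1 := sum_smooth_le hσ k {n ∈ Icc 1 N | n ∈ k.smoothNumbers} (fun n hn => (mem_filter.mp hn).2)
  rcases Nat.eq_zero_or_pos N with rfl | hN
  · simp
    rw [Real.zero_rpow hσ.ne']; simp
  have hN' : (0 : ℝ) < N := by exact_mod_cast hN
  have h2 : (#{n ∈ Icc 1 N | n ∈ k.smoothNumbers} : ℝ) * (N : ℝ) ^ (-σ)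
      ≤ ∑ n ∈ {n ∈ Icc 1 N | n ∈ k.smoothNumbers}, (n : ℝ) ^ (-σ) := by
    rw [← nsmul_eq_mul, ← sum_const]
    refine sum_le_sum fun n hn => ?_
    obtain ⟨h1, h2⟩ := mem_Icc.mp (mem_filter.mp hn).1
    exact Real.rpow_le_rpow_of_nonpos (by exact_mod_cast h1) (by exact_mod_cast h2) (by linarith)
  have h3 := h2.trans h1
  rw [Real.rpow_neg hN'.le] at h3
  rwa [← div_eq_mul_inv, div_le_iff₀ (by positivity), mul_comm] at h3

/-- **Mertens' product**, upper bound. -/
lemma prod_one_sub_le (z : ℕ) (hz : 1 ≤ z) :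
    ∏ p ∈ Nat.primesLE z, (1 - 1 / (p : ℝ)) ≤ 1 / Real.log (z + 1) := by
  have h1 := sum_smooth_le (σ := 1) one_pos (z + 1) (Icc 1 z) (by
    intro n hn
    rw [mem_Icc] at hn
    exact Nat.mem_smoothNumbers_of_lt hn.1 (by omega))
  have h2 : Real.log (z + 1) ≤ ∑ n ∈ Icc 1 z, (n : ℝ) ^ (-1 : ℝ) := by
    have h := log_add_one_le_harmonic z
    rw [harmonic_eq_sum_Icc] at h
    push_cast at h
    refine h.trans (le_of_eq (sum_congr rfl fun n _ => ?_))
    rw [Real.rpow_neg_one]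
  have h3 := h2.trans h1
  have hlog : 0 < Real.log (z + 1) := Real.log_pos (by
    have : (1 : ℝ) ≤ z := by exact_mod_cast hz
    linarith)
  have e : (z + 1).primesBelow = Nat.primesLE z := by
    ext p; simp [Nat.mem_primesBelow, Nat.mem_primesLE]
  rw [e, prod_inv_distrib] at h3
  have h4 : ∏ p ∈ Nat.primesLE z, (1 - (p : ℝ) ^ (-1 : ℝ)) = ∏ p ∈ Nat.primesLE z, (1 - 1 / (p : ℝ)) := by
    refine prod_congr rfl fun p _ => ?_
    rw [Real.rpow_neg_one, one_div]
  rw [h4] at h3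
  have hpos : 0 < ∏ p ∈ Nat.primesLE z, (1 - 1 / (p : ℝ)) := by
    refine prod_pos fun p hp => ?_
    have hpp := (Nat.mem_primesLE.mp hp).2
    have : (1 : ℝ) < p := by exact_mod_cast hpp.one_lt
    rw [sub_pos, div_lt_one (by linarith)]
    exact this
  rw [le_div_iff₀ hlog]
  have := mul_le_mul_of_nonneg_left h3 hpos.le
  rwa [mul_inv_cancel₀ hpos.ne'] at this

/-- **Mertens' first theorem**, upper bound. -/
lemma sum_log_div_le (n : ℕ) (hn : 1 ≤ n) :
    ∑ p ∈ Nat.primesLE n, Real.log p / p ≤ Real.log n + Real.log 4 := by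
  have hn0 : (0 : ℝ) < n := by exact_mod_cast hn
  -- log n! ≥ ∑ log p ⌊n/p⌋
  have h1 : ∑ p ∈ Nat.primesLE n, Real.log p * ((n / p : ℕ) : ℝ) ≤ n * Real.log n := by
    have e1 : ∀ m ∈ range n, ∑ p ∈ Nat.primesLE n, (if p ∣ m + 1 then Real.log p else 0)
        ≤ Real.log n := by
      intro m hm
      have hm' := mem_range.mp hm
      rw [← sum_filter]
      have e2 : ∑ p ∈ {p ∈ Nat.primesLE n | p ∣ m + 1}, Real.log p
          = Real.log ((∏ p ∈ {p ∈ Nat.primesLE n | p ∣ m + 1}, p : ℕ) : ℝ) := by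
        push_cast
        rw [Real.log_prod]
        intro p hp
        have := (Nat.mem_primesLE.mp (mem_filter.mp hp).1).2
        exact_mod_cast this.ne_zero
      rw [e2]
      have e3 : (∏ p ∈ {p ∈ Nat.primesLE n | p ∣ m + 1}, p) ∣ m + 1 := by
        refine Finset.prod_primes_dvd _ (fun p hp => ?_) (fun p hp => (mem_filter.mp hp).2)
        exact (Nat.mem_primesLE.mp (mem_filter.mp hp).1).2.prime
      have e4 : (∏ p ∈ {p ∈ Nat.primesLE n | p ∣ m + 1}, p) ≤ n :=
        (Nat.le_of_dvd (by omega) e3).trans (by omega)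
      refine Real.log_le_log ?_ (by exact_mod_cast e4)
      have : 0 < ∏ p ∈ {p ∈ Nat.primesLE n | p ∣ m + 1}, p := prod_pos fun p hp =>
        (Nat.mem_primesLE.mp (mem_filter.mp hp).1).2.pos
      exact_mod_cast this
    have e5 := sum_le_sum e1
    rw [sum_comm, sum_const, card_range, nsmul_eq_mul] at e5
    refine le_trans (le_of_eq (sum_congr rfl fun p _ => ?_)) e5
    rw [← sum_filter, sum_const, nsmul_eq_mul, Nat.card_multiples, mul_comm]
  have h2 : ∑ p ∈ Nat.primesLE n, Real.log p ≤ Real.log 4 * n := by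
    have := Chebyshev.theta_le_log4_mul_x (x := (n : ℝ)) hn0.le
    rwa [Chebyshev.theta_eq_sum_primesLE_log] at this
  have h3 : ∀ p ∈ Nat.primesLE n, n * (Real.log p / p)
      ≤ Real.log p * ((n / p : ℕ) : ℝ) + Real.log p := by
    intro p hp
    have hpp := (Nat.mem_primesLE.mp hp).2
    have hp0 : (0 : ℝ) < p := by exact_mod_cast hpp.pos
    have hl : 0 ≤ Real.log p := Real.log_nonneg (by exact_mod_cast hpp.one_le)
    have e1 : (n : ℝ) / p ≤ ((n / p : ℕ) : ℝ) + 1 := by
      rw [div_le_iff₀ hp0]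
      have := Nat.lt_div_mul_add (a := n) hpp.pos
      have h' : n ≤ (n / p) * p + p := this.le
      calc (n : ℝ) ≤ ((n / p * p + p : ℕ) : ℝ) := by exact_mod_cast h'
        _ = _ := by push_cast; ring
    calc n * (Real.log p / p) = Real.log p * (n / p) := by ring
      _ ≤ Real.log p * (((n / p : ℕ) : ℝ) + 1) := by gcongr
      _ = _ := by ring
  have h4 := sum_le_sum h3
  rw [sum_add_distrib, ← mul_sum] at h4
  have h5 : n * ∑ p ∈ Nat.primesLE n, Real.log p / p ≤ n * (Real.log n + Real.log 4) := by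
    linarith
  exact le_of_mul_le_mul_left h5 hn0

lemma primesLE_succ (n : ℕ) : Nat.primesLE (n + 1)
    = if (n + 1).Prime then insert (n + 1) (Nat.primesLE n) else Nat.primesLE n := by
  ext p
  split_ifs with h
  · simp only [Nat.mem_primesLE, mem_insert]
    constructor
    · rintro ⟨h1, h2⟩
      rcases Nat.lt_or_ge n p with h3 | h3
      · left; omega
      · right; exact ⟨h3, h2⟩
    · rintro (rfl | ⟨h1, h2⟩)
      · exact ⟨le_refl _, h⟩
      · exact ⟨by omega, h2⟩
  · simp only [Nat.mem_primesLE]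
    constructor
    · rintro ⟨h1, h2⟩
      refine ⟨?_, h2⟩
      by_contra h3
      have : p = n + 1 := by omega
      exact h (this ▸ h2)
    · rintro ⟨h1, h2⟩
      exact ⟨by omega, h2⟩

lemma not_mem_primesLE_succ (n : ℕ) : n + 1 ∉ Nat.primesLE n := by
  rw [Nat.mem_primesLE]; omega

/-- Abel summation over primes. -/
lemma abel (g : ℕ → ℝ) (k n : ℕ) (hk : 2 ≤ k) (hkn : k ≤ n) :
    ∑ p ∈ Nat.primesLE n, g p - ∑ p ∈ Nat.primesLE k, g p
      = (∑ p ∈ Nat.primesLE n, g p * Real.log p) / Real.log n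
        - (∑ p ∈ Nat.primesLE k, g p * Real.log p) / Real.log k
        + ∑ m ∈ Ico k n, (∑ p ∈ Nat.primesLE m, g p * Real.log p)
          * (1 / Real.log m - 1 / Real.log (m + 1)) := by
  induction n, hkn using Nat.le_induction with
  | base => simp
  | succ n hn ih =>
    have hlog : Real.log ((n + 1 : ℕ) : ℝ) ≠ 0 := by
      refine (Real.log_pos ?_).ne'
      exact_mod_cast (by omega : 1 < n + 1)
    rw [sum_Ico_succ_top (by omega), primesLE_succ]
    split_ifs with h
    · rw [sum_insert (not_mem_primesLE_succ n), sum_insert (not_mem_primesLE_succ n)]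
      have : g (n + 1) + ∑ p ∈ Nat.primesLE n, g p - ∑ p ∈ Nat.primesLE k, g p
        = g (n + 1) + (∑ p ∈ Nat.primesLE n, g p - ∑ p ∈ Nat.primesLE k, g p) := by ring
      rw [this, ih]
      push_cast at hlog ⊢
      field_simp
      ring
    · rw [ih]
      push_cast
      ring

lemma loglog_step (m : ℕ) (hm : 2 ≤ m) :
    Real.log m * (1 / Real.log m - 1 / Real.log (m + 1))
      ≤ Real.log (Real.log (m + 1)) - Real.log (Real.log m) := by
  have h1 : 0 < Real.log m := Real.log_pos (by exact_mod_cast (by omega : 1 < m))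
  have h2 : 0 < Real.log ((m : ℝ) + 1) := Real.log_pos (by
    have : (2 : ℝ) ≤ m := by exact_mod_cast hm
    linarith)
  rw [← Real.log_div h2.ne' h1.ne']
  have h3 := Real.one_sub_inv_le_log_of_pos (div_pos h2 h1)
  have e : Real.log m * (1 / Real.log m - 1 / Real.log (m + 1))
      = 1 - (Real.log (m + 1) / Real.log m)⁻¹ := by
    field_simp
  rw [e]; exact h3

lemma inv_log_anti (m : ℕ) (hm : 2 ≤ m) : 0 ≤ 1 / Real.log m - 1 / Real.log ((m : ℝ) + 1) := by
  have h1 : 0 < Real.log m := Real.log_pos (by exact_mod_cast (by omega : 1 < m))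
  have h2 : Real.log m ≤ Real.log ((m : ℝ) + 1) := Real.log_le_log (by
    exact_mod_cast (by omega : 0 < m)) (by linarith)
  rw [sub_nonneg]
  exact one_div_le_one_div_of_le h1 h2

/-- upper bound for `∑ g p` from an upper bound for `∑ g p log p`. -/
lemma sum_le_loglog (g : ℕ → ℝ) (c c' : ℝ) (k n : ℕ) (hk : 2 ≤ k) (hkn : k ≤ n)
    (hup : ∀ m, k ≤ m → ∑ p ∈ Nat.primesLE m, g p * Real.log p ≤ Real.log m + c)
    (hlo : Real.log k - c' ≤ ∑ p ∈ Nat.primesLE k, g p * Real.log p) :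
    ∑ p ∈ Nat.primesLE n, g p - ∑ p ∈ Nat.primesLE k, g p
      ≤ Real.log (Real.log n) - Real.log (Real.log k) + (c + c') / Real.log k := by
  rw [abel g k n hk hkn]
  have hlogk : 0 < Real.log k := Real.log_pos (by exact_mod_cast (by omega : 1 < k))
  have hlogn : 0 < Real.log n := Real.log_pos (by exact_mod_cast (by omega : 1 < n))
  have h1 : ∀ m ∈ Ico k n, (∑ p ∈ Nat.primesLE m, g p * Real.log p)
      * (1 / Real.log m - 1 / Real.log (m + 1))
      ≤ (Real.log (Real.log ((m + 1 : ℕ) : ℝ)) - Real.log (Real.log (m : ℕ)))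
        - c * (1 / Real.log ((m + 1 : ℕ) : ℝ) - 1 / Real.log (m : ℕ)) := by
    intro m hm
    have hkm := (mem_Ico.mp hm).1
    have e1 := mul_le_mul_of_nonneg_right (hup m hkm) (inv_log_anti m (by omega))
    have e2 := loglog_step m (by omega)
    push_cast
    linarith
  have h2 := sum_le_sum h1
  rw [sum_sub_distrib, ← mul_sum, sum_Ico_sub (fun m : ℕ => Real.log (Real.log (m : ℝ))) hkn,
    sum_Ico_sub (fun m : ℕ => 1 / Real.log (m : ℝ)) hkn] at h2
  have h3 : (∑ p ∈ Nat.primesLE n, g p * Real.log p) / Real.log n ≤ 1 + c / Real.log n := by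
    rw [div_le_iff₀ hlogn, add_mul, one_mul, div_mul_cancel₀ _ hlogn.ne']
    exact hup n hkn
  have h4 : 1 - c' / Real.log k ≤ (∑ p ∈ Nat.primesLE k, g p * Real.log p) / Real.log k := by
    rw [le_div_iff₀ hlogk, sub_mul, one_mul, div_mul_cancel₀ _ hlogk.ne']
    exact hlo
  have e : (c + c') / Real.log k = c * (1 / Real.log k) + c' / Real.log k := by ring
  have e2 : c / Real.log n = c * (1 / Real.log n) := by ring
  rw [e]
  rw [e2] at h3
  linarith

/-- **Mertens' second theorem**, upper bound. -/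
lemma sum_inv_le (n : ℕ) (hn : 2 ≤ n) :
    ∑ p ∈ Nat.primesLE n, 1 / (p : ℝ) ≤ Real.log (Real.log n) + 4 := by
  have h := sum_le_loglog (fun p => 1 / (p : ℝ)) (Real.log 4) (Real.log 2 / 2) 2 n (le_refl 2) hn
    (fun m hm => by
      refine le_trans (le_of_eq (sum_congr rfl fun p _ => ?_)) (sum_log_div_le m (by omega))
      ring)
    (by
      have : Nat.primesLE 2 = {2} := by decide
      rw [this, sum_singleton]
      push_cast
      linarith)
  have e1 : Nat.primesLE 2 = {2} := by decide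
  rw [e1, sum_singleton] at h
  have hl2 : 0 < Real.log 2 := Real.log_pos (by norm_num)
  have e2 : (Real.log 4 + Real.log 2 / 2) / Real.log (2 : ℕ) = 5 / 2 := by
    have : Real.log 4 = 2 * Real.log 2 := by
      rw [show (4 : ℝ) = 2 ^ 2 by norm_num, Real.log_pow]; norm_num
    rw [this]
    push_cast
    field_simp
    norm_num
  rw [e2] at h
  have e3 : - (1 / 2) ≤ Real.log (Real.log (2 : ℕ)) := by
    push_cast
    have h1 := Real.log_two_gt_d9
    have h2 : Real.exp (-(1 / 2)) ≤ Real.log 2 := by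
      have h3 : Real.exp (-(1 / 2)) ≤ 0.65 := by
        rw [Real.exp_neg, inv_le_comm₀ (Real.exp_pos _) (by norm_num)]
        have h4 := Real.quadratic_le_exp_of_nonneg (by norm_num : (0 : ℝ) ≤ 1 / 2)
        have h5 : Real.exp (1 / 2) ^ 2 = Real.exp 1 := by
          rw [← Real.exp_nat_mul]; norm_num
        have h6 := Real.exp_one_gt_d9
        nlinarith [Real.exp_pos (1 / 2 : ℝ)]
      linarith
    have := Real.log_le_log (Real.exp_pos _) h2
    rwa [Real.log_exp] at this
  push_cast at h e3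
  linarith

lemma inv_one_sub_le_exp {t : ℝ} (h0 : 0 ≤ t) (h1 : t ≤ 3 / 4) : (1 - t)⁻¹ ≤ Real.exp (4 * t) := by
  have h2 := Real.quadratic_le_exp_of_nonneg (by positivity : 0 ≤ 4 * t)
  refine le_trans ?_ h2
  rw [inv_le_iff_one_le_mul₀ (by linarith)]
  nlinarith [mul_nonneg h0 h0]

lemma exp_convex_bound {t L : ℝ} (h0 : 0 ≤ t) (h1 : t ≤ 1) :
    Real.exp (t * L) ≤ 1 + t * (Real.exp L - 1) := by
  have h := convexOn_exp.2 (Set.mem_univ L) (Set.mem_univ 0) h0 (by linarith : 0 ≤ 1 - t) (by ring)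
  simp only [smul_eq_mul, mul_zero, add_zero, Real.exp_zero, mul_one] at h
  linarith

/-- **Smooth number bound**: `Ψ(N, z) ≤ N exp(- u' log u + 4 (∑ 1/p) + 4 (u-1)(log z + log 4)/log z)`
where `u' = log N / log z`, for any `u ≥ 1` with `u² ≤ z`. -/
lemma smooth_bound (N z : ℕ) (u : ℝ) (hN : 1 ≤ N) (hz : 2 ≤ z) (hu : 1 ≤ u) (huz : u ^ 2 ≤ z) :
    (#{n ∈ Icc 1 N | n ∈ (z + 1).smoothNumbers} : ℝ)
      ≤ N * Real.exp (-(Real.log N / Real.log z * Real.log u)
        + 4 * (∑ p ∈ Nat.primesLE z, 1 / (p : ℝ)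
          + (u - 1) * ((Real.log z + Real.log 4) / Real.log z))) := by
  have hN0 : (0 : ℝ) < N := by exact_mod_cast hN
  have hz0 : (0 : ℝ) < z := by exact_mod_cast (by omega : 0 < z)
  have hlz : 0 < Real.log z := Real.log_pos (by exact_mod_cast (by omega : 1 < z))
  have hu0 : 0 < u := by linarith
  have hlu : 0 ≤ Real.log u := Real.log_nonneg hu
  set η := Real.log u / Real.log z with hη
  have hη0 : 0 ≤ η := div_nonneg hlu hlz.le
  have hη2 : η ≤ 1 / 2 := by
    rw [hη, div_le_iff₀ hlz]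
    have := Real.log_le_log (by positivity) huz
    rw [Real.log_pow] at this
    push_cast at this
    linarith
  have hσ : 0 < 1 - η := by linarith
  refine (rankin hσ (z + 1) N).trans ?_
  have e : (z + 1).primesBelow = Nat.primesLE z := by
    ext p; simp [Nat.mem_primesBelow, Nat.mem_primesLE]
  rw [e]
  have h1 : (N : ℝ) ^ (1 - η) = N * Real.exp (-(Real.log N / Real.log z * Real.log u)) := by
    rw [Real.rpow_sub hN0, Real.rpow_one, div_eq_mul_inv, ← Real.rpow_neg hN0.le,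
      Real.rpow_def_of_pos hN0]
    congr 2
    rw [hη]; ring
  have hpt : ∀ p ∈ Nat.primesLE z, (1 - (p : ℝ) ^ (-(1 - η)))⁻¹
      ≤ Real.exp (4 * (1 / (p : ℝ) + (u - 1) / Real.log z * (Real.log p / p))) := by
    intro p hp
    obtain ⟨hpz, hpp⟩ := Nat.mem_primesLE.mp hp
    have hp0 : (0 : ℝ) < p := by exact_mod_cast hpp.pos
    have hp2 : (2 : ℝ) ≤ p := by exact_mod_cast hpp.two_le
    have h2 : (p : ℝ) ^ (-(1 - η)) ≤ 3 / 4 := by
      have e1 : (p : ℝ) ^ (-(1 - η)) ≤ (2 : ℝ) ^ (-(1 - η)) :=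
        Real.rpow_le_rpow_of_nonpos (by norm_num) hp2 (by linarith)
      have e2 : (2 : ℝ) ^ (-(1 - η)) ≤ (2 : ℝ) ^ (-(1 / 2) : ℝ) :=
        Real.rpow_le_rpow_of_exponent_le (by norm_num) (by linarith)
      have e3 : (2 : ℝ) ^ (-(1 / 2) : ℝ) ≤ 3 / 4 := by
        have e4 : ((2 : ℝ) ^ (-(1 / 2) : ℝ)) ^ 2 = 1 / 2 := by
          rw [← Real.rpow_natCast, ← Real.rpow_mul (by norm_num)]
          norm_num
        have e5 : (0 : ℝ) ≤ (2 : ℝ) ^ (-(1 / 2) : ℝ) := by positivity
        nlinarith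
      linarith
    have h3 := inv_one_sub_le_exp (t := (p : ℝ) ^ (-(1 - η))) (by positivity) h2
    refine h3.trans (Real.exp_le_exp.mpr ?_)
    have h4 : (p : ℝ) ^ (-(1 - η)) = Real.exp (Real.log p / Real.log z * Real.log u) / p := by
      rw [show -(1 - η) = η - 1 by ring, Real.rpow_sub hp0, Real.rpow_one,
        Real.rpow_def_of_pos hp0]
      congr 2
      rw [hη]; ring
    have hlp : 0 ≤ Real.log p := Real.log_nonneg (by linarith)
    have h5 : Real.exp (Real.log p / Real.log z * Real.log u)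
        ≤ 1 + Real.log p / Real.log z * (u - 1) := by
      have := exp_convex_bound (t := Real.log p / Real.log z) (L := Real.log u)
        (div_nonneg hlp hlz.le) (by
          rw [div_le_one hlz]
          exact Real.log_le_log hp0 (by exact_mod_cast hpz))
      rwa [Real.exp_log hu0] at this
    rw [h4]
    have h6 := div_le_div_of_nonneg_right h5 hp0.le
    have h7 : (1 + Real.log p / Real.log z * (u - 1)) / p
        = 1 / (p : ℝ) + (u - 1) / Real.log z * (Real.log p / p) := by ring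
    rw [h7] at h6
    linarith
  have hprod : ∏ p ∈ Nat.primesLE z, (1 - (p : ℝ) ^ (-(1 - η)))⁻¹
      ≤ Real.exp (4 * (∑ p ∈ Nat.primesLE z, 1 / (p : ℝ)
          + (u - 1) * ((Real.log z + Real.log 4) / Real.log z))) := by
    calc ∏ p ∈ Nat.primesLE z, (1 - (p : ℝ) ^ (-(1 - η)))⁻¹
        ≤ ∏ p ∈ Nat.primesLE z, Real.exp (4 * (1 / (p : ℝ) + (u - 1) / Real.log z * (Real.log p / p))) := by
          refine prod_le_prod (fun p hp => ?_) hpt
          have hpp := (Nat.mem_primesLE.mp hp).2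
          have : (p : ℝ) ^ (-(1 - η)) ≤ 1 :=
            Real.rpow_le_one_of_one_le_of_nonpos (by exact_mod_cast hpp.one_le) (by linarith)
          exact inv_nonneg.mpr (by linarith)
      _ = Real.exp (4 * (∑ p ∈ Nat.primesLE z, 1 / (p : ℝ)
          + (u - 1) / Real.log z * ∑ p ∈ Nat.primesLE z, Real.log p / p)) := by
          rw [← Real.exp_sum, ← mul_sum, sum_add_distrib, ← mul_sum]
      _ ≤ _ := by
          rw [Real.exp_le_exp]
          have h8 := sum_log_div_le z (by omega)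
          have h9 : (u - 1) / Real.log z * ∑ p ∈ Nat.primesLE z, Real.log p / p
              ≤ (u - 1) / Real.log z * (Real.log z + Real.log 4) :=
            mul_le_mul_of_nonneg_left h8 (div_nonneg (by linarith) hlz.le)
          have h10 : (u - 1) / Real.log z * (Real.log z + Real.log 4)
              = (u - 1) * ((Real.log z + Real.log 4) / Real.log z) := by ring
          linarith
  rw [h1, Real.exp_add, ← mul_assoc]
  exact mul_le_mul_of_nonneg_left hprod (by positivity)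

end Pool.Agent.Lib.PrimeSums
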