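import Mathlib

/-!
A zero-one law for infinite product measures `Measure.infinitePi (fun _ : V => ν)`: relabelling the
coordinates by a permutation preserves the measure, and an event that is almost surely invariant
under permutations moving any given finite set of coordinates off itself has probability 0 or 1.
-/

open MeasureTheory ProbabilityTheory Set
open scoped symmDiff

namespace Pool.Agent.Lib.ProductZeroOne

section zeroone

variable {V : Type*} {X : Type*} [MeasurableSpace X] (ν : Measure X) [IsProbabilityMeasure ν]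

lemma relabel_measurePreserving (e : V ≃ V) :
    MeasurePreserving (fun (ω : V → X) (v : V) => ω (e v))
      (Measure.infinitePi fun _ : V => ν) (Measure.infinitePi fun _ : V => ν) := by
  have hm : Measurable (fun (ω : V → X) (v : V) => ω (e v)) := by fun_prop
  refine ⟨hm, Measure.eq_infinitePi _ fun s t ht => ?_⟩
  rw [Measure.map_apply hm (MeasurableSet.pi s.countable_toSet fun i _ => ht i)]
  have h1 : (fun (ω : V → X) (v : V) => ω (e v)) ⁻¹' (Set.pi s t) =
      Set.pi (s.map e.toEmbedding) (fun v => t (e.symm v)) := by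
    ext ω
    simp only [mem_preimage, Set.mem_pi, Finset.mem_coe, Finset.mem_map, Equiv.coe_toEmbedding]
    constructor
    · rintro h _ ⟨v, hv, rfl⟩
      simpa using h v hv
    · intro h v hv
      have := h (e v) ⟨v, hv, rfl⟩
      simpa using this
  rw [h1, Measure.infinitePi_pi _ (fun i _ => ht _), Finset.prod_map]
  simp

/-- Zero-one law: an event of a product space that is almost invariant under permutations of the
index set moving any given finite set off itself has probability `0` or `1`. -/
lemma zero_or_one {A : Set (V → X)} (hA : MeasurableSet A)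
    (h : ∀ J : Finset V, ∃ e : V ≃ V, (∀ v ∈ J, e v ∉ J) ∧
      (Measure.infinitePi fun _ : V => ν) (((fun (ω : V → X) (v : V) => ω (e v)) ⁻¹' A) ∆ A) = 0) :
    (Measure.infinitePi fun _ : V => ν).real A = 0 ∨
      (Measure.infinitePi fun _ : V => ν).real A = 1 := by
  classical
  set μ : Measure (V → X) := Measure.infinitePi fun _ : V => ν with hμ
  set a := μ.real A with ha
  have ha0 : 0 ≤ a := measureReal_nonneg
  have ha1 : a ≤ 1 := measureReal_le_one
  have key : ∀ ε : ℝ, 0 < ε → |a - a ^ 2| ≤ 4 * ε := by
    intro ε hε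
    have hdense := Measure.MeasureDense.of_generateFrom_isSetAlgebra_finite μ
      (isSetAlgebra_measurableCylinders (α := fun _ : V => X))
      (generateFrom_measurableCylinders (α := fun _ : V => X)).symm
    obtain ⟨C, hC, hCε⟩ := hdense.approx A hA (measure_ne_top _ _) ε hε
    obtain ⟨J, S, hS, rfl⟩ := (mem_measurableCylinders C).1 hC
    obtain ⟨e, he, hinv⟩ := h J
    set T : (V → X) → (V → X) := fun ω v => ω (e v) with hT
    have hTp : MeasurePreserving T μ μ := relabel_measurePreserving ν e
    set C : Set (V → X) := cylinder (α := fun _ : V => X) J S with hCdef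
    have hCm : MeasurableSet C := hS.cylinder
    set c := μ.real C with hc
    have hc0 : 0 ≤ c := measureReal_nonneg
    have hc1 : c ≤ 1 := measureReal_le_one
    have hsd : μ.real (A ∆ C) ≤ ε := by
      rw [measureReal_def]
      exact ENNReal.toReal_le_of_le_ofReal hε.le hCε.le
    -- independence
    have hind : μ.real (C ∩ T ⁻¹' C) = c * c := by
      have hI : iIndepFun (fun (v : V) (ω : V → X) => ω v) μ := by
        rw [iIndepFun_iff_map_fun_eq_infinitePi_map (fun v => measurable_pi_apply v)]
        have : (fun (ω : V → X) (i : V) => ω i) = id := rfl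
        rw [this, Measure.map_id]
        have h5 : (fun v : V => Measure.map (fun (ω : V → X) => ω v) μ) = fun _ => ν := by
          funext v
          rw [hμ, Measure.infinitePi_map_eval]
        rw [h5]
      have hdis : Disjoint J (J.map e.toEmbedding) := by
        rw [Finset.disjoint_left]
        intro v hv hv2
        obtain ⟨w, hw, rfl⟩ := Finset.mem_map.1 hv2
        exact he w hw hv
      have h2 := hI.indepFun_finset J (J.map e.toEmbedding) hdis (fun v => measurable_pi_apply v)
      set S' : Set ((i : (J.map e.toEmbedding : Finset V)) → X) :=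
        (fun x (j : J) => x ⟨e j, Finset.mem_map_of_mem e.toEmbedding j.2⟩) ⁻¹' S with hS'
      have hS'm : MeasurableSet S' := by
        refine MeasurableSet.preimage hS ?_
        fun_prop
      have h3 := h2.measure_inter_preimage_eq_mul S S' hS hS'm
      have e1 : (fun (a : V → X) (i : J) => a i) ⁻¹' S = C := rfl
      have e2 : (fun (a : V → X) (i : (J.map e.toEmbedding : Finset V)) => a i) ⁻¹' S' = T ⁻¹' C := rfl
      rw [e1, e2] at h3
      rw [measureReal_def, h3, ENNReal.toReal_mul, hTp.measure_preimage hCm.nullMeasurableSet]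
      rfl
    have hAT : μ.real (A ∩ T ⁻¹' A) = a := by
      have h4 : μ (A ∩ T ⁻¹' A) = μ A := by
        refine le_antisymm (measure_mono inter_subset_left) ?_
        have : A ⊆ (A ∩ T ⁻¹' A) ∪ ((T ⁻¹' A) ∆ A) := by
          intro ω hω
          by_cases h5 : ω ∈ T ⁻¹' A
          · exact Or.inl ⟨hω, h5⟩
          · exact Or.inr (Or.inr ⟨hω, h5⟩)
        calc μ A ≤ μ ((A ∩ T ⁻¹' A) ∪ ((T ⁻¹' A) ∆ A)) := measure_mono this
          _ ≤ μ (A ∩ T ⁻¹' A) + μ ((T ⁻¹' A) ∆ A) := measure_union_le _ _
          _ = μ (A ∩ T ⁻¹' A) := by rw [hinv, add_zero]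
      rw [measureReal_def, h4]; rfl
    have hTsd : μ.real ((T ⁻¹' A) ∆ (T ⁻¹' C)) ≤ ε := by
      have : (T ⁻¹' A) ∆ (T ⁻¹' C) = T ⁻¹' (A ∆ C) := by
        simp [symmDiff_def]
      rw [this, measureReal_def, hTp.measure_preimage (hA.symmDiff hCm).nullMeasurableSet]
      exact hsd
    have habs : ∀ D E : Set (V → X), |μ.real D - μ.real E| ≤ μ.real (D ∆ E) := by
      intro D E
      rw [abs_le]
      constructor
      · have : μ.real E ≤ μ.real D + μ.real (D ∆ E) := by
          refine (measureReal_mono ?_).trans (measureReal_union_le _ _)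
          intro ω hω
          by_cases h5 : ω ∈ D
          · exact Or.inl h5
          · exact Or.inr (Or.inr ⟨hω, h5⟩)
        linarith
      · have : μ.real D ≤ μ.real E + μ.real (D ∆ E) := by
          refine (measureReal_mono ?_).trans (measureReal_union_le _ _)
          intro ω hω
          by_cases h5 : ω ∈ E
          · exact Or.inl h5
          · exact Or.inr (Or.inl ⟨hω, h5⟩)
        linarith
    have h1 : |a - c| ≤ ε := (habs A C).trans hsd
    have h2 : |a - c * c| ≤ 2 * ε := by
      rw [← hAT, ← hind]
      refine (habs _ _).trans ?_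
      have : (A ∩ T ⁻¹' A) ∆ (C ∩ T ⁻¹' C) ⊆ (A ∆ C) ∪ ((T ⁻¹' A) ∆ (T ⁻¹' C)) := by
        intro ω hω
        simp only [mem_symmDiff, mem_inter_iff, mem_union] at hω ⊢
        tauto
      calc μ.real ((A ∩ T ⁻¹' A) ∆ (C ∩ T ⁻¹' C)) ≤ μ.real ((A ∆ C) ∪ ((T ⁻¹' A) ∆ (T ⁻¹' C))) :=
            measureReal_mono this
        _ ≤ μ.real (A ∆ C) + μ.real ((T ⁻¹' A) ∆ (T ⁻¹' C)) := measureReal_union_le _ _
        _ ≤ 2 * ε := by linarith
    rw [abs_le] at h1 h2 ⊢
    constructor <;> nlinarith
  have h0 : |a - a ^ 2| ≤ 0 := by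
    refine le_of_forall_pos_le_add fun ε hε => ?_
    have := key (ε / 4) (by linarith)
    linarith
  have h1 : a - a ^ 2 = 0 := abs_nonpos_iff.1 h0
  have h2 : a * (1 - a) = 0 := by linarith
  rcases mul_eq_zero.1 h2 with h3 | h3
  · exact Or.inl h3
  · exact Or.inr (by linarith)

end zeroone

end Pool.Agent.Lib.ProductZeroOne
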