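import Mathlib

set_option autoImplicit false

open Finset Classical

namespace Pool.Agent.Lib.Fan

variable {N : ℕ}

/-- A maximal chain of sign vectors is coded by a permutation (the order in which the coordinates
are filled) and the signs. -/
abbrev Flag (N : ℕ) := Equiv.Perm (Fin N) × (Fin N → Bool)

/-- the sign of a Boolean -/
def sg (b : Bool) : SignType := if b then 1 else -1

lemma sg_not (b : Bool) : sg (!b) = - sg b := by cases b <;> simp [sg]

lemma sg_ne_zero (b : Bool) : sg b ≠ 0 := by cases b <;> simp [sg]

/-- The sign vector number `i` of the chain: the first `i` coordinates are filled. -/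
def vec (σ : Flag N) (i : ℕ) : Fin N → SignType :=
  fun c => if (σ.1.symm c).val < i then sg (σ.2 c) else 0

/-- flags living on the first `j` coordinates -/
def M (N j : ℕ) : Finset (Flag N) :=
  univ.filter (fun σ => (∀ c : Fin N, j ≤ c.val → σ.1 c = c) ∧ (∀ c : Fin N, j ≤ c.val → σ.2 c = true))

/-- the expected sign at place `i` -/
def ex (i : ℕ) : Bool := decide (i % 2 = 0)

lemma ex_succ (i : ℕ) : ex (i + 1) = !(ex i) := by
  unfold ex
  rcases Nat.mod_two_eq_zero_or_one i with h | h
  · have : (i + 1) % 2 = 1 := by omega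
    simp [h, this]
  · have : (i + 1) % 2 = 0 := by omega
    simp [h, this]

/-- The parity lemma behind the counting. -/
lemma parity_drop (b : ℕ → Bool) (j : ℕ) :
    (∑ q ∈ range (j + 1), (if (∀ i < q, b i = true) ∧ (∀ i, q < i → i < j + 1 → b i = false)
      then (1 : ZMod 2) else 0))
    = (if ∀ i < j + 1, b i = true then 1 else 0) + (if ∀ i < j + 1, b i = false then 1 else 0) := by
  classical
  set u : ℕ → ZMod 2 := fun q =>
    if (∀ i < q, b i = true) ∧ (∀ i, q ≤ i → i < j + 1 → b i = false) then 1 else 0 with hu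
  have h1 : ∀ q ∈ range (j + 1),
      (if (∀ i < q, b i = true) ∧ (∀ i, q < i → i < j + 1 → b i = false)
        then (1 : ZMod 2) else 0) = u (q + 1) - u q := by
    intro q hq
    rw [mem_range] at hq
    have h2 : (2 : ZMod 2) = 0 := by decide
    have hneg : ∀ a : ZMod 2, -a = a := by decide
    by_cases hc : (∀ i < q, b i = true) ∧ (∀ i, q < i → i < j + 1 → b i = false)
    · rw [if_pos hc]
      cases hb : b q
      · have e1 : u q = 1 := by
          simp only [hu]
          rw [if_pos]
          refine ⟨hc.1, ?_⟩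
          intro i hi hij
          rcases Nat.eq_or_lt_of_le hi with rfl | h
          · exact hb
          · exact hc.2 i h hij
        have e2 : u (q + 1) = 0 := by
          simp only [hu]
          rw [if_neg]
          rintro ⟨h3, _⟩
          have := h3 q (by omega)
          rw [hb] at this
          exact absurd this (by simp)
        rw [e1, e2]
        decide
      · have e1 : u q = 0 := by
          simp only [hu]
          rw [if_neg]
          rintro ⟨_, h3⟩
          have := h3 q le_rfl hq
          rw [hb] at this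
          exact absurd this (by simp)
        have e2 : u (q + 1) = 1 := by
          simp only [hu]
          rw [if_pos]
          refine ⟨?_, ?_⟩
          · intro i hi
            rcases Nat.lt_succ_iff_lt_or_eq.1 hi with h | rfl
            · exact hc.1 i h
            · exact hb
          · intro i hi hij
            exact hc.2 i (by omega) hij
        rw [e1, e2]
        decide
    · rw [if_neg hc]
      have e1 : u q = 0 := by
        simp only [hu]
        rw [if_neg]
        rintro ⟨h3, h4⟩
        exact hc ⟨h3, fun i hi hij => h4 i hi.le hij⟩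
      have e2 : u (q + 1) = 0 := by
        simp only [hu]
        rw [if_neg]
        rintro ⟨h3, h4⟩
        exact hc ⟨fun i hi => h3 i (by omega), fun i hi hij => h4 i hi hij⟩
      rw [e1, e2]
      decide
  rw [sum_congr rfl h1, sum_range_sub]
  have hneg : ∀ a b : ZMod 2, a - b = a + b := by decide
  rw [hneg]
  congr 1
  · simp only [hu]
    congr 1
    apply propext
    constructor
    · rintro ⟨h, _⟩; exact h
    · intro h
      exact ⟨h, fun i hi hij => by omega⟩
  · simp only [hu]
    congr 1
    apply propext
    constructor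
    · rintro ⟨_, h⟩
      exact fun i hi => h i (Nat.zero_le _) hi
    · intro h
      exact ⟨fun i hi => absurd hi (Nat.not_lt_zero _), fun i _ hij => h i hij⟩


/-- does the sign of the `(i+1)`-st vector of the chain match the expected one? -/
def bb (S : (Fin N → SignType) → Bool) (σ : Flag N) (i : ℕ) : Bool := S (vec σ (i + 1)) == ex i

/-- exchange of two consecutive steps of the chain -/
def sw (q : ℕ) (hq : q + 1 < N) (σ : Flag N) : Flag N :=
  (σ.1 * Equiv.swap ⟨q, by omega⟩ ⟨q + 1, hq⟩, σ.2)

lemma sw_sw (q : ℕ) (hq : q + 1 < N) (σ : Flag N) : sw q hq (sw q hq σ) = σ := by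
  unfold sw
  simp [mul_assoc]

lemma sw_ne (q : ℕ) (hq : q + 1 < N) (σ : Flag N) : sw q hq σ ≠ σ := by
  unfold sw
  intro h
  have h1 := congrArg Prod.fst h
  simp only at h1
  have h2 : Equiv.swap (⟨q, by omega⟩ : Fin N) ⟨q + 1, hq⟩ = 1 := by
    have := mul_left_cancel (h1.trans (mul_one σ.1).symm)
    exact this
  rw [Equiv.swap_eq_one_iff] at h2
  have := congrArg Fin.val h2
  simp at this

lemma vec_sw (q : ℕ) (hq : q + 1 < N) (σ : Flag N) (i : ℕ) (hi : i ≠ q) :
    vec (sw q hq σ) (i + 1) = vec σ (i + 1) := by
  funext c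
  unfold vec sw
  have h1 : ((σ.1 * Equiv.swap (⟨q, by omega⟩ : Fin N) ⟨q + 1, hq⟩).symm c)
      = Equiv.swap (⟨q, by omega⟩ : Fin N) ⟨q + 1, hq⟩ (σ.1.symm c) := by
    rw [Equiv.symm_apply_eq]
    simp [Equiv.Perm.mul_apply]
  simp only [h1]
  have h2 : ((Equiv.swap (⟨q, by omega⟩ : Fin N) ⟨q + 1, hq⟩ (σ.1.symm c)).val < i + 1) ↔
      ((σ.1.symm c).val < i + 1) := by
    rw [Equiv.swap_apply_def]
    split_ifs with h3 h4
    · rw [h3]; simp only; omega
    · rw [h4]; simp only; omega
    · rfl
  by_cases h : (σ.1.symm c).val < i + 1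
  · rw [if_pos h, if_pos (h2.2 h)]
  · rw [if_neg h, if_neg (fun h' => h (h2.1 h'))]

lemma sw_mem (q : ℕ) (hq : q + 1 < N) (σ : Flag N) (j : ℕ) (hj : q + 1 < j) (h : σ ∈ M N j) :
    sw q hq σ ∈ M N j := by
  unfold M at h ⊢
  rw [mem_filter] at h ⊢
  refine ⟨mem_univ _, ?_, h.2.2⟩
  intro c hc
  unfold sw
  simp only [Equiv.Perm.mul_apply]
  rw [Equiv.swap_apply_of_ne_of_ne]
  · exact h.2.1 c hc
  · intro h'
    have := congrArg Fin.val h'
    simp at this
    omega
  · intro h'
    have := congrArg Fin.val h'
    simp at this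
    omega

/-- change of the sign of the coordinate filled at step `j` -/
def fl (j : ℕ) (hj : j < N) (σ : Flag N) : Flag N :=
  (σ.1, Function.update σ.2 (σ.1 ⟨j, hj⟩) (!σ.2 (σ.1 ⟨j, hj⟩)))

lemma fl_fl (j : ℕ) (hj : j < N) (σ : Flag N) : fl j hj (fl j hj σ) = σ := by
  unfold fl
  simp

lemma fl_ne (j : ℕ) (hj : j < N) (σ : Flag N) : fl j hj σ ≠ σ := by
  unfold fl
  intro h
  have h1 := congrArg Prod.snd h
  simp only at h1
  have h2 := congrFun h1 (σ.1 ⟨j, hj⟩)
  simp at h2

lemma vec_fl (j : ℕ) (hj : j < N) (σ : Flag N) (i : ℕ) (hi : i < j) :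
    vec (fl j hj σ) (i + 1) = vec σ (i + 1) := by
  funext c
  unfold vec fl
  simp only
  by_cases h : (σ.1.symm c).val < i + 1
  · rw [if_pos h, if_pos h]
    have : c ≠ σ.1 ⟨j, hj⟩ := by
      rintro rfl
      simp at h
      omega
    rw [Function.update_of_ne this]
  · rw [if_neg h, if_neg h]

lemma perm_le {j : ℕ} (hj : j < N) {σ : Flag N} (h : σ ∈ M N (j + 1)) : (σ.1 ⟨j, hj⟩).val ≤ j := by
  unfold M at h
  rw [mem_filter] at h
  by_contra hc
  push Not at hc
  have h1 := h.2.1 (σ.1 ⟨j, hj⟩) (by omega)
  have h2 := σ.1.injective h1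
  rw [h2] at hc
  simp at hc

lemma fl_mem {j : ℕ} (hj : j < N) {σ : Flag N} (h : σ ∈ M N (j + 1)) :
    fl j hj σ ∈ M N (j + 1) := by
  have hle := perm_le hj h
  unfold M at h ⊢
  rw [mem_filter] at h ⊢
  refine ⟨mem_univ _, h.2.1, ?_⟩
  intro c hc
  unfold fl
  simp only
  rw [Function.update_of_ne]
  · exact h.2.2 c hc
  · rintro rfl
    omega

/-- the antipodal map on the flags living on the first `j` coordinates -/
def anti (j : ℕ) (σ : Flag N) : Flag N := (σ.1, fun c => if c.val < j then !σ.2 c else σ.2 c)

lemma anti_anti (j : ℕ) (σ : Flag N) : anti j (anti j σ) = σ := by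
  unfold anti
  ext c
  · simp
  · simp only
    by_cases h : c.val < j <;> simp [h]

lemma anti_mem {j : ℕ} {σ : Flag N} (h : σ ∈ M N j) : anti j σ ∈ M N j := by
  unfold M at h ⊢
  rw [mem_filter] at h ⊢
  refine ⟨mem_univ _, h.2.1, ?_⟩
  intro c hc
  unfold anti
  simp only
  rw [if_neg (by omega)]
  exact h.2.2 c hc

lemma vec_anti {j : ℕ} {σ : Flag N} (h : σ ∈ M N j) (i : ℕ) (hi : i < j) :
    vec (anti j σ) (i + 1) = - vec σ (i + 1) := by
  unfold M at h
  rw [mem_filter] at h
  funext c
  unfold vec anti
  simp only [Pi.neg_apply]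
  by_cases hc : (σ.1.symm c).val < i + 1
  · rw [if_pos hc, if_pos hc]
    have hcj : c.val < j := by
      by_contra hcj
      push Not at hcj
      have h1 := h.2.1 c hcj
      have h2 : σ.1.symm c = c := by rw [Equiv.symm_apply_eq]; exact h1.symm
      rw [h2] at hc
      omega
    rw [if_pos hcj, sg_not]
  · rw [if_neg hc, if_neg hc]
    simp

lemma vec_ne_zero {σ : Flag N} {i : ℕ} (hi : i < N) : vec σ (i + 1) ≠ 0 := by
  intro h
  have h1 := congrFun h (σ.1 ⟨i, hi⟩)
  unfold vec at h1
  simp only [Equiv.symm_apply_apply, lt_add_iff_pos_right, zero_lt_one, if_true,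
    Pi.zero_apply] at h1
  exact sg_ne_zero _ h1


lemma zmod2_add_self (a : ZMod 2) : a + a = 0 := by revert a; decide

lemma bb_anti {S : (Fin N → SignType) → Bool} (hS : ∀ x, x ≠ 0 → S (-x) = !S x)
    {j : ℕ} (hj : j ≤ N) {σ : Flag N} (h : σ ∈ M N j) (i : ℕ) (hi : i < j) :
    bb S (anti j σ) i = !bb S σ i := by
  unfold bb
  rw [vec_anti h i hi, hS _ (vec_ne_zero (by omega))]
  cases S (vec σ (i + 1)) <;> cases ex i <;> rfl

theorem count (S : (Fin N → SignType) → Bool) (hS : ∀ x, x ≠ 0 → S (-x) = !S x) :
    ∀ j ≤ N, (∑ σ ∈ M N j, (if ∀ i < j, bb S σ i = true then (1 : ZMod 2) else 0)) = 1 := by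
  intro j
  induction j with
  | zero =>
    intro _
    have hM : M N 0 = {((1 : Equiv.Perm (Fin N)), fun _ => true)} := by
      ext σ
      unfold M
      simp only [mem_filter, mem_univ, true_and, Nat.zero_le, forall_true_left, mem_singleton]
      constructor
      · rintro ⟨h1, h2⟩
        ext c
        · simp [h1 c]
        · simp [h2 c]
      · rintro rfl
        simp
    rw [hM]
    simp
  | succ j ih =>
    intro hjN
    have hj : j < N := hjN
    have ih' := ih (by omega)
    set P : Flag N → ZMod 2 := fun σ => if ∀ i < j + 1, bb S σ i = true then 1 else 0 with hP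
    set Q : Flag N → ZMod 2 := fun σ => if ∀ i < j + 1, bb S σ i = false then 1 else 0 with hQ
    set D : Flag N → ℕ → ZMod 2 := fun σ q =>
      if (∀ i < q, bb S σ i = true) ∧ (∀ i, q < i → i < j + 1 → bb S σ i = false) then 1 else 0
      with hD
    set Mp := (M N (j + 1)).filter (fun σ => σ.2 ⟨j, hj⟩ = true) with hMp
    have h1 : ∑ σ ∈ M N (j + 1), P σ = ∑ σ ∈ Mp, P σ +
        ∑ σ ∈ (M N (j + 1)).filter (fun σ => ¬ σ.2 ⟨j, hj⟩ = true), P σ :=
      (sum_filter_add_sum_filter_not _ _ _).symm
    have h2 : ∑ σ ∈ (M N (j + 1)).filter (fun σ => ¬ σ.2 ⟨j, hj⟩ = true), P σ =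
        ∑ σ ∈ Mp, Q σ := by
      refine sum_nbij' (anti (j + 1)) (anti (j + 1)) ?_ ?_ ?_ ?_ ?_
      · intro σ hσ
        rw [mem_filter] at hσ
        rw [hMp, mem_filter]
        refine ⟨anti_mem hσ.1, ?_⟩
        have := hσ.2
        unfold anti
        simp only [lt_add_iff_pos_right, zero_lt_one, if_true]
        simpa using this
      · intro σ hσ
        rw [hMp, mem_filter] at hσ
        rw [mem_filter]
        refine ⟨anti_mem hσ.1, ?_⟩
        have := hσ.2
        unfold anti
        simp only [lt_add_iff_pos_right, zero_lt_one, if_true]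
        simpa using this
      · intro σ _
        exact anti_anti _ _
      · intro σ _
        exact anti_anti _ _
      · intro σ hσ
        rw [mem_filter] at hσ
        simp only [hP, hQ]
        congr 1
        apply propext
        constructor
        · intro h i hi
          rw [bb_anti hS hjN hσ.1 i hi, h i hi]
          rfl
        · intro h i hi
          have := h i hi
          rw [bb_anti hS hjN hσ.1 i hi] at this
          simpa using this
    have h3 : ∑ σ ∈ Mp, P σ + ∑ σ ∈ Mp, Q σ = ∑ q ∈ range (j + 1), ∑ σ ∈ Mp, D σ q := by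
      rw [sum_comm, ← sum_add_distrib]
      apply sum_congr rfl
      intro σ _
      exact (parity_drop (bb S σ) j).symm
    have h4 : ∀ q ∈ range j, ∑ σ ∈ Mp, D σ q = 0 := by
      intro q hq
      rw [mem_range] at hq
      have hqN : q + 1 < N := by omega
      have hbb : ∀ σ : Flag N, ∀ i, i ≠ q → bb S (sw q hqN σ) i = bb S σ i := by
        intro σ i hi
        unfold bb
        rw [vec_sw q hqN σ i hi]
      refine sum_involution (fun σ _ => sw q hqN σ) ?_ ?_ ?_ ?_
      · intro σ _
        have : D (sw q hqN σ) q = D σ q := by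
          simp only [hD]
          congr 1
          apply propext
          constructor
          · rintro ⟨h5, h6⟩
            refine ⟨fun i hi => ?_, fun i hi hij => ?_⟩
            · rw [← hbb σ i (by omega)]; exact h5 i hi
            · rw [← hbb σ i (by omega)]; exact h6 i hi hij
          · rintro ⟨h5, h6⟩
            refine ⟨fun i hi => ?_, fun i hi hij => ?_⟩
            · rw [hbb σ i (by omega)]; exact h5 i hi
            · rw [hbb σ i (by omega)]; exact h6 i hi hij
        simp only [this]
        exact zmod2_add_self _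
      · intro σ _ _
        exact sw_ne q hqN σ
      · intro σ hσ
        rw [hMp, mem_filter] at hσ ⊢
        exact ⟨sw_mem q hqN σ (j + 1) (by omega) hσ.1, hσ.2⟩
      · intro σ _
        exact sw_sw q hqN σ
    have h5 : ∑ σ ∈ Mp, D σ j = 1 := by
      rw [← sum_filter_add_sum_filter_not Mp (fun σ => σ.1 ⟨j, hj⟩ = ⟨j, hj⟩)]
      have h6 : ∑ σ ∈ Mp.filter (fun σ => ¬ σ.1 ⟨j, hj⟩ = ⟨j, hj⟩), D σ j = 0 := by
        refine sum_involution (fun σ _ => fl j hj σ) ?_ ?_ ?_ ?_
        · intro σ _
          have : D (fl j hj σ) j = D σ j := by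
            simp only [hD]
            congr 1
            apply propext
            constructor
            · rintro ⟨h5, h6⟩
              refine ⟨fun i hi => ?_, fun i hi hij => by omega⟩
              have := h5 i hi
              unfold bb at this ⊢
              rwa [vec_fl j hj σ i hi] at this
            · rintro ⟨h5, h6⟩
              refine ⟨fun i hi => ?_, fun i hi hij => by omega⟩
              unfold bb
              rw [vec_fl j hj σ i hi]
              exact h5 i hi
          simp only [this]
          exact zmod2_add_self _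
        · intro σ _ _
          exact fl_ne j hj σ
        · intro σ hσ
          rw [mem_filter, hMp, mem_filter] at hσ ⊢
          refine ⟨⟨fl_mem hj hσ.1.1, ?_⟩, ?_⟩
          · unfold fl
            simp only
            rw [Function.update_of_ne (fun h => hσ.2 h.symm)]
            exact hσ.1.2
          · exact hσ.2
        · intro σ _
          exact fl_fl j hj σ
      have h7 : Mp.filter (fun σ => σ.1 ⟨j, hj⟩ = ⟨j, hj⟩) = M N j := by
        ext σ
        rw [mem_filter, hMp, mem_filter]
        unfold M
        simp only [mem_filter, mem_univ, true_and]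
        constructor
        · rintro ⟨⟨⟨h8, h9⟩, h10⟩, h11⟩
          refine ⟨fun c hc => ?_, fun c hc => ?_⟩
          · rcases Nat.eq_or_lt_of_le hc with h | h
            · have : c = ⟨j, hj⟩ := Fin.ext h.symm
              rw [this]; exact h11
            · exact h8 c h
          · rcases Nat.eq_or_lt_of_le hc with h | h
            · have : c = ⟨j, hj⟩ := Fin.ext h.symm
              rw [this]; exact h10
            · exact h9 c h
        · rintro ⟨h8, h9⟩
          exact ⟨⟨⟨fun c hc => h8 c (by omega), fun c hc => h9 c (by omega)⟩,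
            h9 _ le_rfl⟩, h8 _ le_rfl⟩
      rw [h6, add_zero, h7]
      rw [← ih']
      apply sum_congr rfl
      intro σ _
      simp only [hD]
      congr 1
      apply propext
      constructor
      · rintro ⟨h, _⟩; exact h
      · intro h
        exact ⟨h, fun i hi hij => by omega⟩
    rw [h1, h2, h3, sum_range_succ, sum_eq_zero h4, zero_add, h5]

/-- **Sign lemma** (a consequence of Fan's lemma for the octahedral sphere). For every odd sign
function on the non-zero sign vectors there is a maximal chain on which the sign alternates,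
starting with `true`. -/
theorem exists_alternating (S : (Fin N → SignType) → Bool) (hS : ∀ x, x ≠ 0 → S (-x) = !S x) :
    ∃ σ : Flag N, ∀ i < N, S (vec σ (i + 1)) = ex i := by
  by_contra hcon
  push Not at hcon
  have h := count S hS N le_rfl
  rw [sum_eq_zero] at h
  · exact absurd h (by decide)
  · intro σ _
    rw [if_neg]
    intro h'
    obtain ⟨i, hi, hne⟩ := hcon σ
    apply hne
    have := h' i hi
    unfold bb at this
    simpa using this

end Pool.Agent.Lib.Fan
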