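import Mathlib
import Pool.Agent.Lib.SignLemma

set_option autoImplicit false

open Finset Classical

namespace Pool.Agent.Lib.Schrijver

open Pool.Agent.Lib.Fan

variable {n : ℕ}

/-- `x` has an alternating subsequence of length `m` starting with sign `b` -/
def Alt (x : Fin n → SignType) (m : ℕ) (b : Bool) : Prop :=
  ∃ f : ℕ → Fin n, (∀ i j, i < j → j < m → f i < f j) ∧
    ∀ i < m, x (f i) = sg (xor b (decide (i % 2 = 1)))

/-- `x ≼ y` -/
def Le (x y : Fin n → SignType) : Prop := ∀ c, x c ≠ 0 → y c = x c

lemma Alt.mono_len {x : Fin n → SignType} {m m' : ℕ} {b : Bool} (h : Alt x m b) (hm : m' ≤ m) :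
    Alt x m' b := by
  obtain ⟨f, h1, h2⟩ := h
  exact ⟨f, fun i j hij hj => h1 i j hij (by omega), fun i hi => h2 i (by omega)⟩

lemma Alt.mono {x y : Fin n → SignType} {m : ℕ} {b : Bool} (h : Alt x m b) (hxy : Le x y) :
    Alt y m b := by
  obtain ⟨f, h1, h2⟩ := h
  refine ⟨f, h1, fun i hi => ?_⟩
  rw [hxy, h2 i hi]
  rw [h2 i hi]
  exact sg_ne_zero _

lemma Alt.neg {x : Fin n → SignType} {m : ℕ} {b : Bool} (h : Alt x m b) :
    Alt (-x) m (!b) := by
  obtain ⟨f, h1, h2⟩ := h
  refine ⟨f, h1, fun i hi => ?_⟩
  rw [Pi.neg_apply, h2 i hi, ← sg_not]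
  congr 1
  cases b <;> cases (decide (i % 2 = 1)) <;> rfl

lemma alt_neg_iff (x : Fin n → SignType) (m : ℕ) (b : Bool) : Alt (-x) m b ↔ Alt x m (!b) := by
  constructor
  · intro h
    have := h.neg
    rwa [neg_neg] at this
  · intro h
    have := h.neg
    rwa [Bool.not_not] at this

lemma alt_both {x : Fin n → SignType} {m : ℕ} (hm : 1 ≤ m) (h1 : Alt x m true)
    (h2 : Alt x m false) : Alt x (m + 1) true ∨ Alt x (m + 1) false := by
  obtain ⟨f, hf1, hf2⟩ := h1
  obtain ⟨g, hg1, hg2⟩ := h2
  have key : ∀ (b : Bool) (f g : ℕ → Fin n), (∀ i < m, x (f i) = sg (xor b (decide (i % 2 = 1)))) →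
      (∀ i j, i < j → j < m → g i < g j) →
      (∀ i < m, x (g i) = sg (xor (!b) (decide (i % 2 = 1)))) → f 0 < g 0 → Alt x (m + 1) b := by
    intro b f g hf hg1 hg2 hlt
    refine ⟨fun i => if i = 0 then f 0 else g (i - 1), ?_, ?_⟩
    · intro i j hij hj
      have hj0 : j ≠ 0 := by omega
      simp only [hj0, if_false]
      by_cases hi : i = 0
      · simp only [hi, if_true]
        by_cases hj1 : j = 1
        · rw [hj1]; exact hlt
        · exact hlt.trans (hg1 0 (j - 1) (by omega) (by omega))
      · simp only [hi, if_false]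
        exact hg1 (i - 1) (j - 1) (by omega) (by omega)
    · intro i hi
      by_cases hi0 : i = 0
      · simp only [hi0, if_true]
        have := hf 0 (by omega)
        simpa using this
      · simp only [hi0, if_false]
        rw [hg2 (i - 1) (by omega)]
        congr 1
        have : decide ((i - 1) % 2 = 1) = !(decide (i % 2 = 1)) := by
          rcases Nat.mod_two_eq_zero_or_one i with h | h
          · have : (i - 1) % 2 = 1 := by omega
            simp [h, this]
          · have : (i - 1) % 2 = 0 := by omega
            simp [h, this]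
        rw [this]
        cases b <;> cases (decide (i % 2 = 1)) <;> rfl
  have hne : f 0 ≠ g 0 := by
    intro h
    have e1 := hf2 0 (by omega)
    have e2 := hg2 0 (by omega)
    rw [h, e2] at e1
    simp [sg] at e1
  rcases lt_or_gt_of_ne hne with h | h
  · left
    exact key true f g hf2 hg1 (by simpa using hg2) h
  · right
    exact key false g f hg2 hf1 (by simpa using hf2) h

lemma alt_one {x : Fin n → SignType} (hx : x ≠ 0) : Alt x 1 true ∨ Alt x 1 false := by
  obtain ⟨c, hc⟩ := Function.ne_iff.1 hx
  rw [Pi.zero_apply] at hc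
  have : x c = 1 ∨ x c = -1 := by
    revert hc
    cases x c <;> simp
  rcases this with h | h
  · left
    refine ⟨fun _ => c, fun i j hij hj => by omega, fun i hi => ?_⟩
    have : i = 0 := by omega
    subst this
    simpa [sg] using h
  · right
    refine ⟨fun _ => c, fun i j hij hj => by omega, fun i hi => ?_⟩
    have : i = 0 := by omega
    subst this
    simpa [sg] using h

/-- cyclically stable sets: no two cyclically consecutive elements -/
def Stable (A : Finset (Fin n)) : Prop :=
  ∀ i ∈ A, ∀ j ∈ A, i.val + 1 ≠ j.val ∧ ¬ (i.val = 0 ∧ j.val + 1 = n)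

lemma alt_full {x : Fin n → SignType} {k : ℕ} (hk : 1 ≤ k) {b : Bool} (h : Alt x (2 * k) b)
    (b' : Bool) : ∃ A : Finset (Fin n), A.card = k ∧ Stable A ∧ ∀ i ∈ A, x i = sg b' := by
  obtain ⟨f, hf1, hf2⟩ := h
  -- parity of the indices used
  set p : ℕ := if b = b' then 0 else 1 with hp
  have hp2 : p < 2 := by rw [hp]; split_ifs <;> omega
  have hstep : ∀ i j, i < j → j < 2 * k → (f i).val + (j - i) ≤ (f j).val := by
    intro i j hij
    induction j with
    | zero => omega
    | succ j ih =>
      intro hj
      rcases Nat.lt_succ_iff_lt_or_eq.1 hij with h | h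
      · have h1 := ih h (by omega)
        have h2 := hf1 j (j + 1) (by omega) hj
        rw [Fin.lt_def] at h2
        omega
      · subst h
        have h2 := hf1 i (i + 1) (by omega) hj
        rw [Fin.lt_def] at h2
        omega
  have hinj : ∀ i j, i < 2 * k → j < 2 * k → f i = f j → i = j := by
    intro i j hi hj hij
    rcases lt_trichotomy i j with h | h | h
    · have := hf1 i j h hj
      rw [hij] at this
      exact absurd this (lt_irrefl _)
    · exact h
    · have := hf1 j i h hi
      rw [hij] at this
      exact absurd this (lt_irrefl _)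
  refine ⟨(range k).image (fun j => f (2 * j + p)), ?_, ?_, ?_⟩
  · rw [card_image_of_injOn, card_range]
    intro i hi j hj hij
    rw [coe_range, Set.mem_Iio] at hi hj
    have := hinj _ _ (by omega) (by omega) hij
    omega
  · intro u hu v hv
    rw [mem_image] at hu hv
    obtain ⟨i, hi, rfl⟩ := hu
    obtain ⟨j, hj, rfl⟩ := hv
    rw [mem_range] at hi hj
    constructor
    · intro h
      rcases lt_trichotomy i j with h1 | h1 | h1
      · have := hstep (2 * i + p) (2 * j + p) (by omega) (by omega)
        omega
      · rw [h1] at h; omega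
      · have := hstep (2 * j + p) (2 * i + p) (by omega) (by omega)
        omega
    · rintro ⟨h1, h2⟩
      have hi0 : 2 * i + p = 0 := by
        by_contra hne
        have := hstep 0 (2 * i + p) (by omega) (by omega)
        omega
      have hj0 : 2 * j + p = 2 * k - 1 := by
        by_contra hne
        have := hstep (2 * j + p) (2 * k - 1) (by omega) (by omega)
        have := (f (2 * k - 1)).isLt
        omega
      omega
  · intro u hu
    rw [mem_image] at hu
    obtain ⟨j, hj, rfl⟩ := hu
    rw [mem_range] at hj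
    rw [hf2 _ (by omega)]
    congr 1
    rw [hp]
    by_cases hb : b = b'
    · subst hb
      simp
    · rw [if_neg hb]
      have h1 : (2 * j + 1) % 2 = 1 := by omega
      rw [h1]
      revert hb
      cases b <;> cases b' <;> simp


lemma Le.neg {x y : Fin n → SignType} (h : Le x y) : Le (-x) (-y) := by
  intro c hc
  rw [Pi.neg_apply, Pi.neg_apply, h c]
  intro h0
  apply hc
  rw [Pi.neg_apply, h0]
  rfl

/-- `x` has an alternating subsequence of length `2k` -/
def Full (k : ℕ) (x : Fin n → SignType) : Prop := Alt x (2 * k) true ∨ Alt x (2 * k) false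

lemma Full.mono {k : ℕ} {x y : Fin n → SignType} (h : Full k x) (hxy : Le x y) : Full k y :=
  h.imp (fun h => h.mono hxy) (fun h => h.mono hxy)

lemma full_neg (k : ℕ) (x : Fin n → SignType) : Full k (-x) ↔ Full k x := by
  unfold Full
  rw [alt_neg_iff, alt_neg_iff]
  simp only [Bool.not_true, Bool.not_false]
  exact Or.comm

/-- the largest colour of a stable `k`-set on which `x` is constantly `sg b` -/
noncomputable def nu (k : ℕ) (c : Finset (Fin n) → ℕ) (x : Fin n → SignType) (b : Bool) : ℕ :=
  (univ.filter (fun A : Finset (Fin n) => A.card = k ∧ Stable A ∧ ∀ i ∈ A, x i = sg b)).sup c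

/-- the potential -/
noncomputable def mu (k : ℕ) (c : Finset (Fin n) → ℕ) (x : Fin n → SignType) (b : Bool) : ℕ :=
  if Full k x then 2 * k - 2 + nu k c x b else Nat.findGreatest (fun m => Alt x m b) (2 * k - 1)

lemma nu_mono (k : ℕ) (c : Finset (Fin n) → ℕ) {x y : Fin n → SignType} (h : Le x y) (b : Bool) :
    nu k c x b ≤ nu k c y b := by
  unfold nu
  apply Finset.sup_mono
  intro A hA
  rw [mem_filter] at hA ⊢
  refine ⟨mem_univ _, hA.2.1, hA.2.2.1, fun i hi => ?_⟩
  have := hA.2.2.2 i hi
  rw [h i, this]
  rw [this]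
  exact sg_ne_zero _

lemma nu_neg (k : ℕ) (c : Finset (Fin n) → ℕ) (x : Fin n → SignType) (b : Bool) :
    nu k c (-x) b = nu k c x (!b) := by
  unfold nu
  congr 1
  ext A
  simp only [mem_filter, mem_univ, true_and, Pi.neg_apply]
  have : ∀ i, (-x i = sg b ↔ x i = sg (!b)) := by
    intro i
    rw [sg_not]
    constructor
    · intro h; rw [← h, neg_neg]
    · intro h; rw [h, neg_neg]
  simp only [this]

section

variable {k d : ℕ} {c : Finset (Fin n) → ℕ}

lemma nu_attained {x : Fin n → SignType} {b : Bool}
    (h : ∃ A : Finset (Fin n), A.card = k ∧ Stable A ∧ ∀ i ∈ A, x i = sg b) :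
    ∃ A : Finset (Fin n), A.card = k ∧ Stable A ∧ (∀ i ∈ A, x i = sg b) ∧ c A = nu k c x b := by
  unfold nu
  obtain ⟨A, hA⟩ := h
  obtain ⟨B, hB, hB'⟩ := Finset.exists_mem_eq_sup
    (univ.filter (fun A : Finset (Fin n) => A.card = k ∧ Stable A ∧ ∀ i ∈ A, x i = sg b))
    ⟨A, by rw [mem_filter]; exact ⟨mem_univ _, hA⟩⟩ c
  rw [mem_filter] at hB
  exact ⟨B, hB.2.1, hB.2.2.1, hB.2.2.2, hB'.symm⟩

variable (hk : 1 ≤ k) (hn : n = 2 * k + d)
  (hc1 : ∀ A : Finset (Fin n), A.card = k → Stable A → 1 ≤ c A)
  (hc2 : ∀ A : Finset (Fin n), A.card = k → Stable A → c A ≤ d + 1)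
  (hc3 : ∀ A B : Finset (Fin n), A.card = k → Stable A → B.card = k → Stable B → Disjoint A B →
    c A ≠ c B)

include hk hc1 in
lemma nu_pos {x : Fin n → SignType} (hx : Full k x) (b : Bool) : 1 ≤ nu k c x b := by
  have h : ∃ A : Finset (Fin n), A.card = k ∧ Stable A ∧ ∀ i ∈ A, x i = sg b := by
    rcases hx with h | h
    · exact alt_full hk h b
    · exact alt_full hk h b
  obtain ⟨A, h1, h2, _, h4⟩ := nu_attained (c := c) h
  rw [← h4]
  exact hc1 A h1 h2

include hc2 in
lemma nu_le (x : Fin n → SignType) (b : Bool) : nu k c x b ≤ d + 1 := by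
  unfold nu
  apply Finset.sup_le
  intro A hA
  rw [mem_filter] at hA
  exact hc2 A hA.2.1 hA.2.2.1

include hk hc3 in
lemma nu_ne {x : Fin n → SignType} (hx : Full k x) : nu k c x true ≠ nu k c x false := by
  have h : ∀ b, ∃ A : Finset (Fin n), A.card = k ∧ Stable A ∧ ∀ i ∈ A, x i = sg b := by
    intro b
    rcases hx with h | h
    · exact alt_full hk h b
    · exact alt_full hk h b
  obtain ⟨A, h1, h2, h3, h4⟩ := nu_attained (c := c) (h true)
  obtain ⟨B, h1', h2', h3', h4'⟩ := nu_attained (c := c) (h false)
  rw [← h4, ← h4']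
  apply hc3 A B h1 h2 h1' h2'
  rw [Finset.disjoint_left]
  intro i hi hi'
  have e1 := h3 i hi
  have e2 := h3' i hi'
  rw [e1] at e2
  simp [sg] at e2

include hk hc1 in
lemma mu_mono {x y : Fin n → SignType} (h : Le x y) (b : Bool) : mu k c x b ≤ mu k c y b := by
  unfold mu
  by_cases hx : Full k x
  · rw [if_pos hx, if_pos (hx.mono h)]
    have := nu_mono k c h b
    omega
  · rw [if_neg hx]
    by_cases hy : Full k y
    · rw [if_pos hy]
      have h1 := nu_pos hk hc1 hy b
      have h2 := Nat.findGreatest_le (P := fun m => Alt x m b) (2 * k - 1)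
      omega
    · rw [if_neg hy]
      apply Nat.findGreatest_mono _ le_rfl
      intro m hm
      exact hm.mono h

lemma mu_neg (x : Fin n → SignType) (b : Bool) : mu k c (-x) b = mu k c x (!b) := by
  unfold mu
  rw [nu_neg]
  simp only [full_neg, alt_neg_iff]

lemma fg_spec {x : Fin n → SignType} {b : Bool} (h : 1 ≤ Nat.findGreatest (fun m => Alt x m b) (2 * k - 1)) :
    Alt x (Nat.findGreatest (fun m => Alt x m b) (2 * k - 1)) b :=
  Nat.findGreatest_of_ne_zero (P := fun m => Alt x m b) rfl (by omega)

include hk hc3 in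
lemma mu_ne {x : Fin n → SignType} (hx : x ≠ 0) : mu k c x true ≠ mu k c x false := by
  unfold mu
  by_cases hf : Full k x
  · rw [if_pos hf, if_pos hf]
    have := nu_ne hk hc3 hf
    omega
  · rw [if_neg hf, if_neg hf]
    intro heq
    -- both equal to `m`
    set m := Nat.findGreatest (fun m => Alt x m true) (2 * k - 1) with hm
    have hm0 : 1 ≤ m := by
      rcases alt_one hx with h | h
      · exact Nat.le_findGreatest (P := fun m => Alt x m true) (by omega) h
      · rw [heq]
        exact Nat.le_findGreatest (P := fun m => Alt x m false) (by omega) h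
    have h1 : Alt x m true := fg_spec hm0
    have h2 : Alt x m false := by
      rw [heq]
      apply fg_spec
      rw [← heq]
      exact hm0
    have hle : m ≤ 2 * k - 1 := Nat.findGreatest_le _
    rcases alt_both hm0 h1 h2 with h | h
    · rcases Nat.lt_or_ge m (2 * k - 1) with h3 | h3
      · have := Nat.le_findGreatest (P := fun m => Alt x m true) (n := 2 * k - 1) (by omega) h
        rw [← hm] at this
        omega
      · apply hf
        left
        have : m + 1 = 2 * k := by omega
        rwa [this] at h
    · rcases Nat.lt_or_ge m (2 * k - 1) with h3 | h3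
      · have := Nat.le_findGreatest (P := fun m => Alt x m false) (n := 2 * k - 1) (by omega) h
        rw [← heq] at this
        omega
      · apply hf
        right
        have : m + 1 = 2 * k := by omega
        rwa [this] at h

include hk hc1 in
lemma mu_pos {x : Fin n → SignType} (hx : x ≠ 0) : 1 ≤ mu k c x true ∨ 1 ≤ mu k c x false := by
  unfold mu
  by_cases hf : Full k x
  · left
    rw [if_pos hf]
    have := nu_pos hk hc1 hf true
    omega
  · rw [if_neg hf, if_neg hf]
    rcases alt_one hx with h | h
    · left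
      exact Nat.le_findGreatest (P := fun m => Alt x m true) (by omega) h
    · right
      exact Nat.le_findGreatest (P := fun m => Alt x m false) (by omega) h

include hk hn hc2 in
lemma mu_le (x : Fin n → SignType) (b : Bool) : mu k c x b ≤ n - 1 := by
  unfold mu
  by_cases hf : Full k x
  · rw [if_pos hf]
    have := nu_le hc2 x b
    omega
  · rw [if_neg hf]
    have := Nat.findGreatest_le (P := fun m => Alt x m b) (2 * k - 1)
    omega

lemma vec_le (σ : Flag n) (i : ℕ) : Le (vec σ i) (vec σ (i + 1)) := by
  intro c hc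
  unfold vec at hc ⊢
  by_cases h : (σ.1.symm c).val < i
  · rw [if_pos h, if_pos (by omega)]
  · rw [if_neg h] at hc
    exact absurd rfl hc

include hk hn hc1 hc2 hc3 in
/-- **Schrijver's lower bound.** -/
theorem no_colouring : False := by
  set S : (Fin n → SignType) → Bool := fun x => decide (mu k c x false < mu k c x true) with hS
  have hodd : ∀ x, x ≠ 0 → S (-x) = !S x := by
    intro x hx
    simp only [hS, mu_neg, Bool.not_true, Bool.not_false]
    have := mu_ne (c := c) hk hc3 hx
    by_cases h : mu k c x false < mu k c x true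
    · have h' : ¬ (mu k c x true < mu k c x false) := by omega
      simp [h, h']
    · have h' : mu k c x true < mu k c x false := by omega
      simp [h, h']
  obtain ⟨σ, hσ⟩ := exists_alternating S hodd
  have key : ∀ i < n, i + 1 ≤ max (mu k c (vec σ (i + 1)) true) (mu k c (vec σ (i + 1)) false) := by
    intro i
    induction i with
    | zero =>
      intro h0
      rcases mu_pos (c := c) hk hc1 (vec_ne_zero (σ := σ) h0) with h | h
      · exact h.trans (le_max_left _ _)
      · exact h.trans (le_max_right _ _)
    | succ i ih =>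
      intro hi
      have h1 := ih (by omega)
      have hle := vec_le σ (i + 1)
      have m1 := mu_mono (c := c) hk hc1 hle true
      have m2 := mu_mono (c := c) hk hc1 hle false
      have s1 := hσ i (by omega)
      have s2 := hσ (i + 1) hi
      rw [ex_succ] at s2
      have hne := mu_ne (c := c) hk hc3 (vec_ne_zero (σ := σ) hi)
      cases he : ex i
      · rw [he] at s1 s2
        simp only [hS, Bool.not_false, decide_eq_true_eq, decide_eq_false_iff_not, not_lt] at s1 s2
        omega
      · rw [he] at s1 s2
        simp only [hS, Bool.not_true, decide_eq_true_eq, decide_eq_false_iff_not, not_lt] at s1 s2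
        omega
  have h := key (n - 1) (by omega)
  have h1 := mu_le (c := c) hk hn hc2 (vec σ (n - 1 + 1)) true
  have h2 := mu_le (c := c) hk hn hc2 (vec σ (n - 1 + 1)) false
  omega

end

end Pool.Agent.Lib.Schrijver
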