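import Pool.Agent.Lib.SievePrimes

/-!
# Sieving an interval by residue classes
-/

namespace Pool.Agent.Lib.BrunHooley

open Finset

lemma card_modEq_approx (x H m v : ℕ) (hm : 0 < m) :
    |(#{n ∈ Ioc x (x + H) | n ≡ v [MOD m]} : ℝ) - H / m| ≤ 1 := by
  have h := Nat.Ioc_filter_modEq_card x (x + H) hm v
  set N := #{n ∈ Ioc x (x + H) | n ≡ v [MOD m]} with hN
  have hmq : (0 : ℚ) < m := by exact_mod_cast hm
  have key : |(N : ℚ) - H / m| ≤ 1 := by
    have e0 : (((x + H : ℕ) : ℚ) - v) / m = ((x : ℚ) - v) / m + H / m := by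
      push_cast; ring
    have hH : (0 : ℚ) ≤ (H : ℚ) / m := by positivity
    have f1 := Int.floor_le ((((x + H : ℕ) : ℚ) - v) / m)
    have f2 := Int.lt_floor_add_one ((((x + H : ℕ) : ℚ) - v) / m)
    have f3 := Int.floor_le (((x : ℚ) - v) / m)
    have f4 := Int.lt_floor_add_one (((x : ℚ) - v) / m)
    have hmono : ⌊((x : ℚ) - v) / m⌋ ≤ ⌊(((x + H : ℕ) : ℚ) - v) / m⌋ := by
      apply Int.floor_mono; rw [e0]; linarith
    rw [max_eq_left (by linarith)] at h
    have h' : (N : ℚ) = ((⌊(((x + H : ℕ) : ℚ) - v) / m⌋ - ⌊((x : ℚ) - v) / m⌋ : ℤ) : ℚ) := by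
      exact_mod_cast h
    rw [h']
    push_cast at *
    rw [abs_le]
    constructor <;> linarith
  have : ((|(N : ℚ) - H / m| : ℚ) : ℝ) ≤ ((1 : ℚ) : ℝ) := by exact_mod_cast key
  push_cast at this
  exact this

lemma card_residues_approx (x H : ℕ) (C : ℕ → Finset ℕ) (D : Finset ℕ) :
    (∀ p ∈ D, p.Prime) → (∀ p ∈ D, ∀ c ∈ C p, c < p) → ∀ (m v : ℕ), 0 < m →
    (∀ p ∈ D, Nat.Coprime m p) →
    |(#{n ∈ Ioc x (x + H) | n ≡ v [MOD m] ∧ ∀ p ∈ D, n % p ∈ C p} : ℝ)
      - (H / m) * ∏ p ∈ D, ((#(C p) : ℝ) / p)| ≤ ∏ p ∈ D, (#(C p) : ℝ) := by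
  induction D using Finset.induction_on with
  | empty =>
    intro _ _ m v hm _
    simpa using card_modEq_approx x H m v hm
  | insert q D hq ih =>
    intro hD hC m v hm hcop
    have ih := ih (fun p hp => hD p (mem_insert_of_mem hp)) (fun p hp => hC p (mem_insert_of_mem hp))
    have hqp : q.Prime := hD q (mem_insert_self _ _)
    have hmq : Nat.Coprime m q := hcop q (mem_insert_self _ _)
    -- split over residues mod q
    have hsplit : #{n ∈ Ioc x (x + H) | n ≡ v [MOD m] ∧ ∀ p ∈ insert q D, n % p ∈ C p}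
        = ∑ c ∈ C q, #{n ∈ Ioc x (x + H) | n ≡ (Nat.chineseRemainder hmq v c : ℕ) [MOD m * q]
            ∧ ∀ p ∈ D, n % p ∈ C p} := by
      rw [← card_biUnion]
      · congr 1
        ext n
        simp only [mem_filter, mem_biUnion, mem_insert, forall_eq_or_imp]
        constructor
        · rintro ⟨h1, h2, h3, h4⟩
          refine ⟨n % q, h3, h1, ?_, h4⟩
          rw [← Nat.modEq_and_modEq_iff_modEq_mul hmq]
          refine ⟨h2.trans (Nat.chineseRemainder hmq v (n % q)).2.1.symm, ?_⟩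
          exact (Nat.mod_modEq n q).symm.trans (Nat.chineseRemainder hmq v (n % q)).2.2.symm
        · rintro ⟨c, hc, h1, h2, h4⟩
          rw [← Nat.modEq_and_modEq_iff_modEq_mul hmq] at h2
          have e := h2.2.trans (Nat.chineseRemainder hmq v c).2.2
          have hcq : c < q := hC q (mem_insert_self _ _) c hc
          have e' : n % q = c := by
            have := e
            unfold Nat.ModEq at this
            rwa [Nat.mod_eq_of_lt hcq] at this
          exact ⟨h1, h2.1.trans (Nat.chineseRemainder hmq v c).2.1, by rw [e']; exact hc, h4⟩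
      · intro c₁ h₁ c₂ h₂ hne
        rw [Function.onFun, disjoint_left]
        intro n hn₁ hn₂
        simp only [mem_filter] at hn₁ hn₂
        have a1 := (Nat.modEq_and_modEq_iff_modEq_mul hmq).mpr hn₁.2.1
        have a2 := (Nat.modEq_and_modEq_iff_modEq_mul hmq).mpr hn₂.2.1
        have b1 := a1.2.trans (Nat.chineseRemainder hmq v c₁).2.2
        have b2 := a2.2.trans (Nat.chineseRemainder hmq v c₂).2.2
        have b3 := b1.symm.trans b2
        have hc1 : c₁ < q := hC q (mem_insert_self _ _) c₁ h₁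
        have hc2 : c₂ < q := hC q (mem_insert_self _ _) c₂ h₂
        unfold Nat.ModEq at b3
        rw [Nat.mod_eq_of_lt hc1, Nat.mod_eq_of_lt hc2] at b3
        exact hne b3
    have hcop' : ∀ p ∈ D, Nat.Coprime (m * q) p := by
      intro p hp
      refine Nat.Coprime.mul_left (hcop p (mem_insert_of_mem hp)) ?_
      exact (Nat.coprime_primes hqp (hD p (mem_insert_of_mem hp))).mpr (fun e => hq (e ▸ hp))
    have hb : ∀ c ∈ C q, |(#{n ∈ Ioc x (x + H) | n ≡ (Nat.chineseRemainder hmq v c : ℕ) [MOD m * q]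
            ∧ ∀ p ∈ D, n % p ∈ C p} : ℝ) - (H / (m * q : ℕ)) * ∏ p ∈ D, ((#(C p) : ℝ) / p)|
            ≤ ∏ p ∈ D, (#(C p) : ℝ) := fun c _ =>
      ih (m * q) _ (Nat.mul_pos hm hqp.pos) hcop'
    rw [hsplit, prod_insert hq, prod_insert hq]
    push_cast
    have e1 : (H / m : ℝ) * (#(C q) / q * ∏ p ∈ D, ((#(C p) : ℝ) / p))
        = ∑ _c ∈ C q, (H / (m * q : ℕ)) * ∏ p ∈ D, ((#(C p) : ℝ) / p) := by
      rw [sum_const, nsmul_eq_mul]
      push_cast
      have h1 : (m : ℝ) ≠ 0 := by positivity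
      have h2 : (q : ℝ) ≠ 0 := by exact_mod_cast hqp.ne_zero
      field_simp
    rw [e1, ← sum_sub_distrib]
    refine (abs_sum_le_sum_abs _ _).trans ?_
    refine (sum_le_sum hb).trans ?_
    rw [sum_const, nsmul_eq_mul]

/-- the number of integers in `(x, x+H]` avoiding the residues `C p` for all primes `p ≤ z`. -/
def sifted (x H z : ℕ) (C : ℕ → Finset ℕ) : Finset ℕ :=
  {n ∈ Ioc x (x + H) | ∀ p ∈ Nat.primesLE z, n % p ∉ C p}

/-- **Brun-Hooley sieve for intervals.** Uniform in the interval and in the residue classes. -/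
theorem interval_sieve (κ : ℕ) : ∃ B : ℕ, ∀ (r x H : ℕ) (C : ℕ → Finset ℕ),
    (∀ p, p.Prime → ∀ c ∈ C p, c < p) → (∀ p, #(C p) ≤ κ) → (∀ p, p.Prime → #(C p) < p) →
    (H : ℝ) / 2 * ∏ p ∈ Nat.primesLE (Z r), (1 - (#(C p) : ℝ) / p) - (Z r : ℝ) ^ B
      ≤ #(sifted x H (Z r) C) ∧
    (#(sifted x H (Z r) C) : ℝ)
      ≤ 2 * H * ∏ p ∈ Nat.primesLE (Z r), (1 - (#(C p) : ℝ) / p) + (Z r : ℝ) ^ B := by
  obtain ⟨B, hB⟩ := brun_hooley κ
  refine ⟨B, ?_⟩
  intro r x H C hC hκ hlt
  have := hB r ℕ (Ioc x (x + H)) (fun _ => 1) (fun p n => if n % p ∈ C p then 1 else 0) H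
    (fun p => #(C p)) (by simp) (by intro p n _; split_ifs <;> norm_num)
    (by intro p n _; split_ifs <;> norm_num) (Nat.cast_nonneg H) (by simp)
    (by intro p; exact_mod_cast hκ p) (by intro p hp; exact_mod_cast hlt p hp) ?_
  · have e : ∑ n ∈ Ioc x (x + H), (fun _ => (1 : ℝ)) n * ∏ p ∈ Nat.primesLE (Z r),
        (1 - (if n % p ∈ C p then (1 : ℝ) else 0)) = #(sifted x H (Z r) C) := by
      rw [sifted, card_filter]
      push_cast
      refine sum_congr rfl fun n _ => ?_
      rw [one_mul]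
      split_ifs with h
      · exact prod_eq_one fun p hp => by simp [h p hp]
      · push Not at h
        obtain ⟨p, hp, hpn⟩ := h
        exact prod_eq_zero hp (by simp [hpn])
    rw [e] at this
    exact this
  · intro D hD
    have hDp : ∀ p ∈ D, p.Prime := fun p hp => (Nat.mem_primesLE.mp (hD hp)).2
    have h := card_residues_approx x H C D hDp (fun p hp => hC p (hDp p hp)) 1 0 one_pos (by simp)
    simp only [Nat.cast_one, div_one] at h
    have e : ∑ n ∈ Ioc x (x + H), (fun _ => (1 : ℝ)) n * ∏ p ∈ D,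
        (if n % p ∈ C p then (1 : ℝ) else 0)
        = #{n ∈ Ioc x (x + H) | n ≡ 0 [MOD 1] ∧ ∀ p ∈ D, n % p ∈ C p} := by
      rw [card_filter]
      push_cast
      refine sum_congr rfl fun n _ => ?_
      rw [one_mul]
      split_ifs with h
      · exact prod_eq_one fun p hp => by simp [h.2 p hp]
      · have h : ¬ ∀ p ∈ D, n % p ∈ C p := fun h' => h ⟨Nat.modEq_one, h'⟩
        push Not at h
        obtain ⟨p, hp, hpn⟩ := h
        exact prod_eq_zero hp (by simp [hpn])
    rw [e]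
    exact h

/-- a crude lower bound for the sifting density. -/
lemma prod_lower (κ : ℕ) : ∃ c : ℝ, 0 < c ∧ ∀ (r : ℕ) (w : ℕ → ℕ), (∀ p, w p ≤ κ) →
    (∀ p, p.Prime → w p < p) →
    c * Real.exp (-(4 * κ * (r + 1))) ≤ ∏ p ∈ Nat.primesLE (Z r), (1 - (w p : ℝ) / p) := by
  refine ⟨∏ i ∈ range (κ + 1), ∏ p ∈ blk i, (1 / (p : ℝ)), ?_, ?_⟩
  · refine prod_pos fun i _ => prod_pos fun p hp => ?_
    have := (mem_blk_prime hp).pos
    positivity
  · intro r w hw hlt
    rw [← biUnion_blk, prod_biUnion (fun i _ j _ hij => blk_pairwise i j hij)]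
    have h1 : ∀ i, ∀ p ∈ blk i, 1 / (p : ℝ) ≤ 1 - (w p : ℝ) / p := by
      intro i p hp
      have hpp := mem_blk_prime hp
      have hp0 : (0 : ℝ) < p := by exact_mod_cast hpp.pos
      rw [le_sub_iff_add_le, ← add_div, div_le_one hp0]
      have := hlt p hpp
      exact_mod_cast (by omega : 1 + w p ≤ p)
    have hle1 : ∀ i, ∏ p ∈ blk i, (1 / (p : ℝ)) ≤ 1 := by
      intro i
      refine prod_le_one (fun p _ => by positivity) (fun p hp => ?_)
      rw [div_le_one (by exact_mod_cast (mem_blk_prime hp).pos)]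
      exact_mod_cast (mem_blk_prime hp).one_le
    have hpos : ∀ i, 0 < ∏ p ∈ blk i, (1 / (p : ℝ)) := by
      intro i
      refine prod_pos fun p hp => ?_
      have := (mem_blk_prime hp).pos
      positivity
    -- term by term comparison
    have h2 : ∀ i ∈ range (r + 1),
        (if i ≤ κ then ∏ p ∈ blk i, (1 / (p : ℝ)) else 1) * Real.exp (-(4 * κ))
          ≤ ∏ p ∈ blk i, (1 - (w p : ℝ) / p) := by
      intro i _
      split_ifs with hi
      · have e1 : ∏ p ∈ blk i, (1 / (p : ℝ)) ≤ ∏ p ∈ blk i, (1 - (w p : ℝ) / p) :=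
          prod_le_prod (fun p _ => by positivity) (h1 i)
        have e2 : Real.exp (-(4 * κ)) ≤ 1 := by
          rw [Real.exp_le_one_iff]
          have : (0 : ℝ) ≤ κ := Nat.cast_nonneg κ
          linarith
        calc _ ≤ ∏ p ∈ blk i, (1 / (p : ℝ)) * 1 := by
              rw [prod_mul_distrib, prod_const_one]
              exact mul_le_mul_of_nonneg_left e2 (hpos i).le
          _ ≤ _ := by simpa using e1
      · rw [one_mul]
        push Not at hi
        have hi0 : 0 < i := by omega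
        have hhalf : ∀ p ∈ blk i, (w p : ℝ) / p ≤ 1 / 2 := by
          intro p hp
          have h1 := mem_blk_gt hi0 hp
          have h2 : Z κ ≤ Z (i - 1) := Z_mono (by omega)
          have h3 := two_mul_le_Z κ
          have hp0 : (0 : ℝ) < p := by exact_mod_cast (mem_blk_prime hp).pos
          rw [div_le_div_iff₀ hp0 (by norm_num)]
          have h5 := hw p
          exact_mod_cast (by omega : w p * 2 ≤ 1 * p)
        have hlam : ∑ p ∈ blk i, (w p : ℝ) / (p : ℝ) ≤ 2 * κ := by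
          calc ∑ p ∈ blk i, (w p : ℝ) / (p : ℝ) ≤ ∑ p ∈ blk i, κ * (1 / (p : ℝ)) := by
                refine sum_le_sum fun p _ => ?_
                rw [mul_one_div]
                exact div_le_div_of_nonneg_right (by exact_mod_cast hw p) (Nat.cast_nonneg p)
            _ = κ * ∑ p ∈ blk i, 1 / (p : ℝ) := by rw [mul_sum]
            _ ≤ κ * 2 := mul_le_mul_of_nonneg_left (sum_inv_blk i) (Nat.cast_nonneg κ)
            _ = _ := by ring
        calc Real.exp (-(4 * κ)) ≤ Real.exp (∑ p ∈ blk i, -(2 * ((w p : ℝ) / (p : ℝ)))) := by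
              rw [Real.exp_le_exp, sum_neg_distrib, ← mul_sum]; linarith
          _ = ∏ p ∈ blk i, Real.exp (-(2 * ((w p : ℝ) / (p : ℝ)))) := Real.exp_sum _ _
          _ ≤ _ := prod_le_prod (fun p _ => (Real.exp_pos _).le)
              (fun p hp => one_sub_ge_exp (by positivity) (hhalf p hp))
    have h3 := prod_le_prod (fun i (_ : i ∈ range (r + 1)) => ?_) h2
    · rw [prod_mul_distrib, prod_const, card_range] at h3
      refine le_trans ?_ h3
      rw [← Real.exp_nat_mul]
      have e1 : ((r + 1 : ℕ) : ℝ) * -(4 * κ) = -(4 * κ * (r + 1)) := by push_cast; ring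
      rw [e1]
      refine mul_le_mul_of_nonneg_right ?_ (Real.exp_pos _).le
      rw [prod_ite, prod_const_one, mul_one]
      -- compare products over range (κ+1) and over {i ≤ r, i ≤ κ}
      refine prod_le_prod_of_subset_of_le_one ?_ (fun i _ => (hpos i).le) (fun i _ _ => hle1 i)
      intro i hi
      have := (mem_filter.mp hi).2
      exact mem_range.mpr (by omega)
    · split_ifs
      · exact mul_nonneg (hpos i).le (Real.exp_pos _).le
      · rw [one_mul]; exact (Real.exp_pos _).le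

lemma Z_succ (r : ℕ) : Z (r + 1) = Z r * Z r := by
  unfold Z
  rw [← pow_add]
  congr 1
  rw [pow_succ]; ring

lemma sq_le_two_pow (r : ℕ) (hr : 4 ≤ r) : r * r ≤ 2 ^ r := by
  induction r, hr using Nat.le_induction with
  | base => norm_num
  | succ r hr ih =>
    rw [pow_succ]
    nlinarith

/-- `Z r` eventually beats any fixed exponential in `r`. -/
lemma exp_le_Z (a b : ℝ) : ∃ r₀ : ℕ, ∀ r ≥ r₀, Real.exp (a * r + b) ≤ Z r := by
  have hl : 0 < Real.log 2 := Real.log_pos (by norm_num)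
  obtain ⟨r₁, hr₁⟩ := exists_nat_ge ((|a| + |b|) / Real.log 2)
  refine ⟨max 4 r₁, fun r hr => ?_⟩
  have h4 : 4 ≤ r := le_trans (le_max_left _ _) hr
  have h5 : (r₁ : ℝ) ≤ r := by exact_mod_cast le_trans (le_max_right _ _) hr
  have h6 : |a| + |b| ≤ Real.log 2 * r := by
    have := (div_le_iff₀ hl).mp (hr₁.trans h5)
    linarith
  have hr1 : (1 : ℝ) ≤ r := by exact_mod_cast (by omega : 1 ≤ r)
  have h7 : a * r + b ≤ Real.log 2 * 2 ^ r := by
    calc a * r + b ≤ |a| * r + |b| * r := by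
          have e1 := mul_le_mul_of_nonneg_right (le_abs_self a) (by linarith : (0 : ℝ) ≤ r)
          have e2 : |b| * 1 ≤ |b| * r := mul_le_mul_of_nonneg_left hr1 (abs_nonneg b)
          have e3 := le_abs_self b
          linarith
      _ = (|a| + |b|) * r := by ring
      _ ≤ (Real.log 2 * r) * r := by gcongr
      _ = Real.log 2 * (r * r) := by ring
      _ ≤ Real.log 2 * 2 ^ r := by
          gcongr
          exact_mod_cast sq_le_two_pow r h4
  calc Real.exp (a * r + b) ≤ Real.exp (Real.log 2 * 2 ^ r) := Real.exp_le_exp.mpr h7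
    _ = Z r := by
        rw [Real.exp_mul, Real.exp_log (by norm_num), Z]
        push_cast
        rw [← Real.rpow_natCast 2 (2 ^ r)]
        push_cast
        rfl

/-- **Lower bound sieve for intervals, crude form**: for residue sets of size at most `κ`
(and never everything), every interval of length `H ≥ z^B` contains at least `H / √z` integers
avoiding them for all primes `p ≤ z = Z r`. -/
theorem interval_lower (κ : ℕ) : ∃ B r₀ : ℕ, ∀ (r x H : ℕ) (C : ℕ → Finset ℕ), r₀ ≤ r →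
    (∀ p, p.Prime → ∀ c ∈ C p, c < p) → (∀ p, #(C p) ≤ κ) → (∀ p, p.Prime → #(C p) < p) →
    (Z r) ^ B ≤ H → (H : ℝ) ≤ Z (r - 1) * #(sifted x H (Z r) C) := by
  obtain ⟨B, hB⟩ := interval_sieve κ
  obtain ⟨c, hc, hcl⟩ := prod_lower κ
  obtain ⟨r₁, hr₁⟩ := exp_le_Z (8 * κ) (4 * κ + Real.log (4 / c))
  refine ⟨B + 1, r₁ + 3, ?_⟩
  intro r x H C hr hC hκ hlt hH
  have h1 := (hB r x H C hC hκ hlt).1
  have h2 := hcl r (fun p => #(C p)) hκ hlt
  have h3 := hr₁ (r - 1) (by omega)
  set V := ∏ p ∈ Nat.primesLE (Z r), (1 - (#(C p) : ℝ) / p) with hV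
  have hZr : (Z r : ℝ) = Z (r - 1) * Z (r - 1) := by
    have := Z_succ (r - 1)
    rw [show r - 1 + 1 = r by omega] at this
    rw [this]; push_cast; ring
  have hz4 : (4 : ℝ) ≤ Z (r - 1) := by
    have : Z 1 ≤ Z (r - 1) := Z_mono (by omega)
    have e : Z 1 = 4 := by norm_num [Z]
    exact_mod_cast e ▸ this
  have hZpos : (0 : ℝ) < Z r := by exact_mod_cast Z_pos r
  -- `Z (r-1) * V ≥ 4`
  have h4 : 4 ≤ Z (r - 1) * V := by
    have e1 : Real.exp (8 * κ * (r - 1 : ℕ) + (4 * κ + Real.log (4 / c)))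
        = (4 / c) * Real.exp (4 * κ * (r + 1) + 4 * κ * ((r : ℝ) - 2)) := by
      rw [← add_assoc, Real.exp_add, Real.exp_log (by positivity), mul_comm]
      congr 2
      rw [Nat.cast_sub (by omega)]
      push_cast
      ring
    have e2 : (4 / c) * Real.exp (4 * κ * (r + 1)) ≤ Z (r - 1) := by
      refine le_trans ?_ (e1 ▸ h3)
      gcongr
      have : (2 : ℝ) ≤ r := by exact_mod_cast (by omega : 2 ≤ r)
      have : 0 ≤ (κ : ℝ) * ((r : ℝ) - 2) := mul_nonneg (Nat.cast_nonneg κ) (by linarith)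
      linarith
    calc (4 : ℝ) = (4 / c) * Real.exp (4 * κ * (r + 1)) * (c * Real.exp (-(4 * κ * (r + 1)))) := by
          rw [Real.exp_neg]
          have := (Real.exp_pos (4 * κ * ((r : ℝ) + 1))).ne'
          field_simp
      _ ≤ Z (r - 1) * V := by
          refine mul_le_mul e2 h2 ?_ (Nat.cast_nonneg _)
          positivity
  have h5 : (Z r : ℝ) ^ B * Z r ≤ H := by
    rw [← pow_succ]; exact_mod_cast hH
  have h6 : Z (r - 1) * (Z r : ℝ) ^ B ≤ H / 4 := by
    have hpB : (0 : ℝ) < (Z r : ℝ) ^ B := by positivity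
    have e1 : (Z r : ℝ) ^ B * Z r = (Z (r - 1) * (Z r : ℝ) ^ B) * Z (r - 1) := by
      rw [hZr]; ring
    have e2 : 0 ≤ Z (r - 1) * (Z r : ℝ) ^ B := by positivity
    nlinarith
  have h7 : (H : ℝ) / 2 * (Z (r - 1) * V) - Z (r - 1) * (Z r : ℝ) ^ B
      ≤ Z (r - 1) * #(sifted x H (Z r) C) := by
    have := mul_le_mul_of_nonneg_left h1 (by linarith : (0 : ℝ) ≤ Z (r - 1))
    linarith
  have hH0 : (0 : ℝ) ≤ H := Nat.cast_nonneg H
  nlinarith

end Pool.Agent.Lib.BrunHooley
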