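import Pool.Agent.Lib.BrunHooley

/-!
# Dyadic-exponent blocks of primes and the general Brun-Hooley sieve

`blk 0 = {2}`, and `blk i` is the set of primes in `(2^(2^(i-1)), 2^(2^i)]`.
The union of `blk 0, ..., blk r` is the set of primes up to `Z r = 2^(2^r)`.
-/

namespace Pool.Agent.Lib.BrunHooley

open Finset

/-- sieving level `2^(2^r)`. -/
def Z (r : ℕ) : ℕ := 2 ^ 2 ^ r

/-- lower end of a block. -/
def lowEnd (i : ℕ) : ℕ := if i = 0 then 1 else Z (i - 1)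

/-- block of primes. -/
def blk (i : ℕ) : Finset ℕ := {p ∈ Ioc (lowEnd i) (Z i) | p.Prime}

lemma Z_pos (r : ℕ) : 0 < Z r := by unfold Z; positivity

lemma Z_mono {i j : ℕ} (h : i ≤ j) : Z i ≤ Z j :=
  Nat.pow_le_pow_right (by norm_num) (Nat.pow_le_pow_right (by norm_num) h)

lemma two_le_Z (r : ℕ) : 2 ≤ Z r := by
  have := Z_mono (Nat.zero_le r)
  simpa [Z] using this

lemma blk_disjoint {i j : ℕ} (h : i < j) : Disjoint (blk i) (blk j) := by
  rw [disjoint_left]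
  intro p hp hp'
  simp only [blk, mem_filter, mem_Ioc] at hp hp'
  have h1 : lowEnd j = Z (j - 1) := by simp [lowEnd, show j ≠ 0 by omega]
  have h2 : Z i ≤ Z (j - 1) := Z_mono (by omega)
  omega

lemma blk_pairwise (i j : ℕ) (h : i ≠ j) : Disjoint (blk i) (blk j) := by
  rcases lt_or_gt_of_ne h with h | h
  · exact blk_disjoint h
  · exact (blk_disjoint h).symm

lemma biUnion_blk (r : ℕ) : (range (r + 1)).biUnion blk = Nat.primesLE (Z r) := by
  induction r with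
  | zero =>
    ext p
    simp only [zero_add, range_one, singleton_biUnion, blk, lowEnd, if_true, mem_filter, mem_Ioc,
      Nat.mem_primesLE]
    constructor
    · rintro ⟨⟨_, h⟩, h'⟩; exact ⟨h, h'⟩
    · rintro ⟨h, h'⟩; exact ⟨⟨h'.one_lt, h⟩, h'⟩
  | succ r ih =>
    rw [range_add_one, biUnion_insert, ih]
    ext p
    have h1 : lowEnd (r + 1) = Z r := by simp [lowEnd]
    simp only [mem_union, blk, h1, mem_filter, mem_Ioc, Nat.mem_primesLE]
    have := Z_mono (Nat.le_succ r)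
    constructor
    · rintro (⟨⟨_, h⟩, h'⟩ | ⟨h, h'⟩)
      · exact ⟨h, h'⟩
      · exact ⟨h.trans this, h'⟩
    · rintro ⟨h, h'⟩
      by_cases hp : p ≤ Z r
      · exact Or.inr ⟨hp, h'⟩
      · exact Or.inl ⟨⟨by omega, h⟩, h'⟩

/-- primes in a dyadic interval. -/
def dy (m : ℕ) : Finset ℕ := {p ∈ Ioc (2 ^ m) (2 ^ (m + 1)) | p.Prime}

/-- the number of primes in `(2^m, 2^(m+1)]` is at most `2^(m+1)/m`. -/
lemma card_dy (m : ℕ) : m * #(dy m) ≤ 2 ^ (m + 1) := by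
  have hI : Ioc (2 ^ m) (2 ^ (m + 1)) = Ico (2 ^ m + 1) (2 ^ m + 2 ^ m + 1) := by
    ext x; simp only [mem_Ioc, mem_Ico]; rw [pow_succ]; omega
  have h1 : ∏ p ∈ dy m, p ∣ (2 ^ m + 2 ^ m).choose (2 ^ m) := by
    have h2 := primorial_add_dvd (le_refl (2 ^ m))
    rw [primorial_add, ← hI] at h2
    exact Nat.dvd_of_mul_dvd_mul_left (primorial_pos _) h2
  have h3 : ∏ p ∈ dy m, p ≤ 2 ^ (2 ^ m + 2 ^ m) :=
    (Nat.le_of_dvd (Nat.choose_pos (Nat.le_add_left _ _)) h1).trans (Nat.choose_le_two_pow _ _)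
  have h4 : (2 ^ m) ^ #(dy m) ≤ ∏ p ∈ dy m, p := by
    refine Finset.pow_card_le_prod _ _ _ fun p hp => ?_
    have := (mem_Ioc.mp (mem_filter.mp hp).1).1
    exact this.le
  have h5 := h4.trans h3
  rw [← pow_mul] at h5
  have := (Nat.pow_le_pow_iff_right (by norm_num)).mp h5
  have e : 2 ^ (m + 1) = 2 ^ m + 2 ^ m := by rw [pow_succ]; ring
  rw [e]
  exact this

lemma sum_inv_dy (m : ℕ) (hm : 0 < m) : ∑ p ∈ dy m, (1 : ℝ) / p ≤ 2 / m := by
  have h1 : ∑ p ∈ dy m, (1 : ℝ) / p ≤ ∑ _p ∈ dy m, (1 : ℝ) / 2 ^ m := by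
    refine sum_le_sum fun p hp => ?_
    have := (mem_Ioc.mp (mem_filter.mp hp).1).1
    refine one_div_le_one_div_of_le (by positivity) ?_
    exact_mod_cast this.le
  refine h1.trans ?_
  rw [sum_const, nsmul_eq_mul, mul_one_div, div_le_div_iff₀ (by positivity) (by positivity)]
  have := card_dy m
  rw [mul_comm]
  calc (m : ℝ) * #(dy m) ≤ (2 : ℝ) ^ (m + 1) := by exact_mod_cast this
    _ = 2 * 2 ^ m := by ring

lemma blk_subset_dy (i : ℕ) (hi : 0 < i) : blk i ⊆ (Ico (2 ^ (i - 1)) (2 ^ i)).biUnion dy := by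
  intro p hp
  simp only [blk, lowEnd, show i ≠ 0 by omega, if_false, mem_filter, mem_Ioc, Z] at hp
  obtain ⟨⟨h1, h2⟩, h3⟩ := hp
  have hp0 : p - 1 ≠ 0 := by have := h3.one_lt; omega
  rw [mem_biUnion]
  refine ⟨Nat.log 2 (p - 1), ?_, ?_⟩
  · rw [mem_Ico]
    constructor
    · exact Nat.le_log_of_pow_le (by norm_num) (by omega)
    · refine Nat.log_lt_of_lt_pow hp0 (by omega)
  · simp only [dy, mem_filter, mem_Ioc]
    have a1 := Nat.pow_log_le_self 2 hp0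
    have a2 := Nat.lt_pow_succ_log_self (b := 2) (by norm_num) (p - 1)
    exact ⟨⟨by omega, by rw [← Nat.succ_eq_add_one]; omega⟩, h3⟩

lemma sum_biUnion_le_of_nonneg {β γ : Type*} [DecidableEq γ] (s : Finset β) (t : β → Finset γ)
    (f : γ → ℝ) (hf : ∀ x, 0 ≤ f x) : ∑ x ∈ s.biUnion t, f x ≤ ∑ i ∈ s, ∑ x ∈ t i, f x := by
  classical
  induction s using Finset.induction_on with
  | empty => simp
  | insert k s hk ih =>
    rw [biUnion_insert, sum_insert hk]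
    have h1 := sum_union_inter (s₁ := t k) (s₂ := s.biUnion t) (f := f)
    have h2 : 0 ≤ ∑ x ∈ t k ∩ s.biUnion t, f x := sum_nonneg fun x _ => hf x
    linarith

lemma sum_inv_blk (i : ℕ) : ∑ p ∈ blk i, (1 : ℝ) / p ≤ 2 := by
  rcases Nat.eq_zero_or_pos i with rfl | hi
  · have : blk 0 = {2} := by decide
    rw [this]; norm_num
  · have h1 : ∑ p ∈ blk i, (1 : ℝ) / p ≤ ∑ p ∈ (Ico (2 ^ (i - 1)) (2 ^ i)).biUnion dy, (1 : ℝ) / p :=
      sum_le_sum_of_subset_of_nonneg (blk_subset_dy i hi) (fun _ _ _ => by positivity)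
    have h2 : ∑ p ∈ (Ico (2 ^ (i - 1)) (2 ^ i)).biUnion dy, (1 : ℝ) / p
        ≤ ∑ m ∈ Ico (2 ^ (i - 1)) (2 ^ i), ∑ p ∈ dy m, (1 : ℝ) / p :=
      sum_biUnion_le_of_nonneg _ _ _ (fun _ => by positivity)
    have h3 : ∀ m ∈ Ico (2 ^ (i - 1)) (2 ^ i), ∑ p ∈ dy m, (1 : ℝ) / p ≤ 2 / 2 ^ (i - 1) := by
      intro m hm
      have hm' := (mem_Ico.mp hm).1
      have : 0 < 2 ^ (i - 1) := by positivity
      refine (sum_inv_dy m (by omega)).trans ?_
      refine div_le_div_of_nonneg_left (by norm_num) (by positivity) ?_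
      exact_mod_cast hm'
    refine h1.trans (h2.trans ((sum_le_sum h3).trans ?_))
    rw [sum_const, Nat.card_Ico, nsmul_eq_mul]
    have e : 2 ^ i = 2 ^ (i - 1) + 2 ^ (i - 1) := by
      conv_lhs => rw [show i = (i - 1) + 1 by omega, pow_succ]
      ring
    rw [e, Nat.add_sub_cancel]
    push_cast
    rw [mul_div_cancel₀]
    positivity

lemma es_eq_zero_of_card_lt (P : Finset ℕ) (g : ℕ → ℝ) (i : ℕ) (h : #P < i) : es P g i = 0 := by
  unfold es
  rw [powersetCard_eq_empty.mpr h, sum_empty]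

lemma card_blk_le (i : ℕ) : #(blk i) ≤ Z i - 1 := by
  refine (card_filter_le _ _).trans ?_
  rw [Nat.card_Ioc]
  have : 1 ≤ lowEnd i := by
    unfold lowEnd; split_ifs
    · exact le_refl _
    · exact Z_pos _
  omega

lemma one_sub_ge_exp {x : ℝ} (h0 : 0 ≤ x) (h1 : x ≤ 1 / 2) : Real.exp (-(2 * x)) ≤ 1 - x := by
  rw [Real.exp_neg]
  have h2 := Real.add_one_le_exp (2 * x)
  have h3 : (Real.exp (2 * x))⁻¹ ≤ (2 * x + 1)⁻¹ := inv_anti₀ (by linarith) h2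
  refine h3.trans ?_
  rw [inv_le_iff_one_le_mul₀ (by linarith)]
  nlinarith

lemma pow_div_factorial_le (c : ℝ) (hc : 0 ≤ c) (n : ℕ) :
    c ^ n / (n.factorial : ℝ) ≤ Real.exp (4 * c) * (1 / 4) ^ n := by
  have h := Real.pow_div_factorial_le_exp (4 * c) (by positivity) n
  have e : c ^ n / (n.factorial : ℝ) = ((4 * c) ^ n / (n.factorial : ℝ)) * (1 / 4) ^ n := by
    rw [mul_pow, one_div, inv_pow]
    have : (4 : ℝ) ^ n ≠ 0 := by positivity
    field_simp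
  rw [e]
  exact mul_le_mul_of_nonneg_right h (by positivity)

lemma exp_twelve_le (κ : ℕ) : Real.exp (12 * κ) ≤ 4 ^ (10 * κ) := by
  have h1 : Real.exp 12 ≤ 4 ^ 10 := by
    have h := Real.exp_one_lt_d9
    have : Real.exp 12 = Real.exp 1 ^ 12 := by rw [← Real.exp_nat_mul]; norm_num
    rw [this]
    calc Real.exp 1 ^ 12 ≤ (3 : ℝ) ^ 12 := by gcongr; linarith
      _ ≤ _ := by norm_num
  have : Real.exp (12 * κ) = (Real.exp 12) ^ κ := by rw [← Real.exp_nat_mul]; ring_nf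
  rw [this, pow_mul]
  gcongr

lemma weighted_sum_le (B r : ℕ) :
    ∑ i ∈ range (r + 1), 2 ^ i * (2 * (B + (r - i))) ≤ 2 ^ r * (4 * B + 4) := by
  induction r with
  | zero => simp; omega
  | succ r ih =>
    rw [sum_range_succ]
    have h1 : ∑ i ∈ range (r + 1), 2 ^ i * (2 * (B + (r + 1 - i)))
        = ∑ i ∈ range (r + 1), 2 ^ i * (2 * (B + (r - i))) + 2 * ∑ i ∈ range (r + 1), 2 ^ i := by
      rw [mul_sum, ← sum_add_distrib]
      refine sum_congr rfl fun i hi => ?_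
      have := mem_range.mp hi
      rw [show r + 1 - i = (r - i) + 1 by omega]
      ring
    have h2 : ∑ i ∈ range (r + 1), 2 ^ i ≤ 2 ^ (r + 1) := by
      rw [Nat.geomSum_eq (le_refl 2)]
      simp
    rw [h1]
    have e : 2 ^ (r + 1) = 2 * 2 ^ r := by rw [pow_succ]; ring
    rw [e] at h2 ⊢
    simp only [Nat.sub_self, add_zero]
    nlinarith

/-- the level-dependent truncation parameters. -/
def bpar (B r i : ℕ) : ℕ := 2 * (B + (r - i))

lemma mem_blk_prime {p i : ℕ} (hp : p ∈ blk i) : p.Prime := (mem_filter.mp hp).2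

lemma mem_blk_gt {p i : ℕ} (hi : 0 < i) (hp : p ∈ blk i) : Z (i - 1) < p := by
  have := (mem_Ioc.mp (mem_filter.mp hp).1).1
  simpa [lowEnd, show i ≠ 0 by omega] using this

lemma two_mul_le_Z (κ : ℕ) : 2 * κ ≤ Z κ := by
  unfold Z
  have h1 : κ + 1 ≤ 2 ^ κ := Nat.lt_two_pow_self
  calc 2 * κ ≤ 2 * 2 ^ κ := by omega
    _ = 2 ^ (κ + 1) := by rw [pow_succ]; ring
    _ ≤ _ := Nat.pow_le_pow_right (by norm_num) h1

lemma es_div_le (κ : ℕ) (ω : ℕ → ℝ) (hω0 : ∀ p, 0 ≤ ω p) (hω : ∀ p, ω p ≤ κ)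
    (r i : ℕ) (hir : i ≤ r) :
    es (blk i) (fun p => ω p / p) (bpar (Z κ + 5 * κ) r i + 1) / ∏ p ∈ blk i, (1 - ω p / p)
      ≤ (1 / 4) * (1 / 16) ^ (r - i) := by
  set B := Z κ + 5 * κ with hB
  by_cases hi : i ≤ κ
  · rw [es_eq_zero_of_card_lt]
    · simp
    · have h1 := card_blk_le i
      have h2 := Z_mono hi
      unfold bpar
      omega
  · push Not at hi
    have hi0 : 0 < i := by omega
    have hhalf : ∀ p ∈ blk i, ω p / p ≤ 1 / 2 := by
      intro p hp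
      have h1 := mem_blk_gt hi0 hp
      have h2 : Z κ ≤ Z (i - 1) := Z_mono (by omega)
      have h3 := two_mul_le_Z κ
      have h4 : 2 * κ ≤ p := by omega
      have hp0 : (0 : ℝ) < p := by exact_mod_cast (mem_blk_prime hp).pos
      rw [div_le_div_iff₀ hp0 (by norm_num)]
      have : (2 * κ : ℝ) ≤ p := by exact_mod_cast h4
      linarith [hω p]
    have hg0 : ∀ p ∈ blk i, 0 ≤ ω p / (p : ℝ) := fun p _ => div_nonneg (hω0 p) (Nat.cast_nonneg p)
    have hlam : ∑ p ∈ blk i, ω p / (p : ℝ) ≤ 2 * κ := by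
      calc ∑ p ∈ blk i, ω p / (p : ℝ) ≤ ∑ p ∈ blk i, κ * (1 / (p : ℝ)) := by
            refine sum_le_sum fun p _ => ?_
            rw [mul_one_div]
            exact div_le_div_of_nonneg_right (hω p) (Nat.cast_nonneg p)
        _ = κ * ∑ p ∈ blk i, 1 / (p : ℝ) := by rw [mul_sum]
        _ ≤ κ * 2 := mul_le_mul_of_nonneg_left (sum_inv_blk i) (Nat.cast_nonneg κ)
        _ = _ := by ring
    have hlam0 : 0 ≤ ∑ p ∈ blk i, ω p / (p : ℝ) := sum_nonneg hg0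
    have hV : Real.exp (-(4 * κ)) ≤ ∏ p ∈ blk i, (1 - ω p / p) := by
      calc Real.exp (-(4 * κ)) ≤ Real.exp (∑ p ∈ blk i, -(2 * (ω p / (p : ℝ)))) := by
            rw [Real.exp_le_exp, sum_neg_distrib, ← mul_sum]; linarith
        _ = ∏ p ∈ blk i, Real.exp (-(2 * (ω p / (p : ℝ)))) := Real.exp_sum _ _
        _ ≤ _ := prod_le_prod (fun p _ => (Real.exp_pos _).le)
            (fun p hp => one_sub_ge_exp (hg0 p hp) (hhalf p hp))
    set n := bpar B r i + 1 with hn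
    have hE : es (blk i) (fun p => ω p / p) n ≤ Real.exp (4 * (2 * κ)) * (1 / 4) ^ n := by
      refine (es_le_pow_div _ _ hg0 n).trans (le_trans ?_ (pow_div_factorial_le (2 * κ) (by positivity) n))
      gcongr
    have hE0 : 0 ≤ es (blk i) (fun p => ω p / p) n := es_nonneg _ _ hg0 _
    have hVpos : 0 < ∏ p ∈ blk i, (1 - ω p / (p : ℝ)) := (Real.exp_pos _).trans_le hV
    calc es (blk i) (fun p => ω p / p) n / ∏ p ∈ blk i, (1 - ω p / p)
        ≤ (Real.exp (4 * (2 * κ)) * (1 / 4) ^ n) / Real.exp (-(4 * κ)) := by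
          gcongr
      _ = Real.exp (12 * κ) * (1 / 4) ^ n := by
          rw [div_eq_mul_inv, ← Real.exp_neg, neg_neg, mul_right_comm, ← Real.exp_add]
          ring_nf
      _ ≤ 4 ^ (10 * κ) * (1 / 4) ^ n := by
          gcongr
          exact exp_twelve_le κ
      _ ≤ 4 ^ (10 * κ) * (1 / 4) ^ (10 * κ + 1 + 2 * (r - i)) := by
          refine mul_le_mul_of_nonneg_left ?_ (by positivity)
          refine pow_le_pow_of_le_one (by norm_num) (by norm_num) ?_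
          rw [hn, bpar, hB]
          have := Z_pos κ
          omega
      _ = (1 / 4) * (1 / 16) ^ (r - i) := by
          rw [pow_add, pow_add, pow_mul (1 / 4 : ℝ) 2, pow_one, ← mul_assoc, ← mul_assoc, ← mul_pow]
          norm_num

lemma sum_es_div_le (κ : ℕ) (ω : ℕ → ℝ) (hω0 : ∀ p, 0 ≤ ω p) (hω : ∀ p, ω p ≤ κ) (r : ℕ) :
    ∑ i ∈ range (r + 1), es (blk i) (fun p => ω p / p) (bpar (Z κ + 5 * κ) r i + 1)
      / ∏ p ∈ blk i, (1 - ω p / p) ≤ 1 / 2 := by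
  calc _ ≤ ∑ i ∈ range (r + 1), (1 / 4 : ℝ) * (1 / 16) ^ (r - i) :=
        sum_le_sum fun i hi => es_div_le κ ω hω0 hω r i (by have := mem_range.mp hi; omega)
    _ = (1 / 4 : ℝ) * ∑ i ∈ range (r + 1), (1 / 16) ^ i := by
        rw [← mul_sum, ← sum_range_reflect (fun i => (1 / 16 : ℝ) ^ i)]
        congr 1
    _ ≤ (1 / 4 : ℝ) * (1 - 1 / 16)⁻¹ := by
        refine mul_le_mul_of_nonneg_left ?_ (by norm_num)
        rw [geom_sum_eq (by norm_num), div_le_iff_of_neg (by norm_num)]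
        norm_num
    _ ≤ _ := by norm_num

lemma err_le (κ : ℕ) (ω : ℕ → ℝ) (hω : ∀ p, ω p ≤ κ) (i : ℕ) :
    1 + ∑ p ∈ blk i, ω p ≤ (Z i : ℝ) ^ κ := by
  have h1 : ∑ p ∈ blk i, ω p ≤ κ * ((Z i : ℝ) - 1) := by
    calc ∑ p ∈ blk i, ω p ≤ ∑ _p ∈ blk i, (κ : ℝ) := sum_le_sum fun p _ => hω p
      _ = #(blk i) * κ := by rw [sum_const, nsmul_eq_mul]
      _ ≤ ((Z i : ℝ) - 1) * κ := by
          gcongr
          have := card_blk_le i
          have h2 := Z_pos i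
          rw [le_sub_iff_add_le]
          exact_mod_cast (by omega : #(blk i) + 1 ≤ Z i)
      _ = _ := by ring
  have hZ : (1 : ℝ) ≤ Z i := by exact_mod_cast Z_pos i
  have h2 := one_add_mul_le_pow (a := (Z i : ℝ) - 1) (by linarith) κ
  rw [add_sub_cancel] at h2
  linarith

/-- **Brun-Hooley sieve**, general form of dimension `κ`, sieving by all primes up to
`Z r = 2^(2^r)`. -/
theorem brun_hooley (κ : ℕ) : ∃ C : ℕ, ∀ (r : ℕ) (α : Type) (A : Finset α) (a : α → ℝ)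
    (h : ℕ → α → ℝ) (X : ℝ) (ω : ℕ → ℝ), (∀ n ∈ A, 0 ≤ a n) → (∀ p, ∀ n ∈ A, 0 ≤ h p n) →
    (∀ p, ∀ n ∈ A, h p n ≤ 1) → 0 ≤ X → (∀ p, 0 ≤ ω p) → (∀ p, ω p ≤ κ) →
    (∀ p, p.Prime → ω p < p) →
    (∀ D ⊆ Nat.primesLE (Z r), |∑ n ∈ A, a n * ∏ p ∈ D, h p n - X * ∏ p ∈ D, (ω p / p)|
      ≤ ∏ p ∈ D, ω p) →
    X / 2 * ∏ p ∈ Nat.primesLE (Z r), (1 - ω p / p) - (Z r : ℝ) ^ C
      ≤ ∑ n ∈ A, a n * ∏ p ∈ Nat.primesLE (Z r), (1 - h p n) ∧
    ∑ n ∈ A, a n * ∏ p ∈ Nat.primesLE (Z r), (1 - h p n)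
      ≤ 2 * X * ∏ p ∈ Nat.primesLE (Z r), (1 - ω p / p) + (Z r : ℝ) ^ C := by
  refine ⟨κ * (4 * (Z κ + 5 * κ) + 4) + (κ + 1), ?_⟩
  intro r α A a h X ω ha h0 h1 hX hω0 hω hωp hA
  set B := Z κ + 5 * κ with hB
  have hdisj : ∀ j ∈ range (r + 1), ∀ k ∈ range (r + 1), j ≠ k → Disjoint (blk j) (blk k) :=
    fun j _ k _ => blk_pairwise j k
  have hg0 : ∀ j ∈ range (r + 1), ∀ p ∈ blk j, 0 ≤ ω p / (p : ℝ) :=
    fun _ _ p _ => div_nonneg (hω0 p) (Nat.cast_nonneg p)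
  have hg1 : ∀ j ∈ range (r + 1), ∀ p ∈ blk j, ω p / (p : ℝ) < 1 := by
    intro j _ p hp
    have hpp := mem_blk_prime hp
    rw [div_lt_one (by exact_mod_cast hpp.pos)]
    exact hωp p hpp
  have hb : ∀ j ∈ range (r + 1), Even (bpar B r j) := fun j _ => ⟨B + (r - j), by unfold bpar; ring⟩
  have hA' : ∀ D ⊆ (range (r + 1)).biUnion blk,
      |∑ n ∈ A, a n * ∏ p ∈ D, h p n - X * ∏ p ∈ D, (ω p / p)| ≤ ∏ p ∈ D, ω p := by
    rw [biUnion_blk]; exact hA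
  have hprod : ∀ f : ℕ → ℝ, ∏ p ∈ Nat.primesLE (Z r), f p = ∏ j ∈ range (r + 1), ∏ p ∈ blk j, f p := by
    intro f
    rw [← biUnion_blk, prod_biUnion]
    intro i _ j _ hij
    exact blk_pairwise i j hij
  have hE := sum_es_div_le κ ω hω0 hω r
  have lo := lower' A a h X (fun p => ω p / (p : ℝ)) ω blk (bpar B r) (range (r + 1)) ha h0 h1 hX hω0
    hg0 hg1 hdisj hA' hb hE
  have up := upper' A a h X (fun p => ω p / (p : ℝ)) ω blk (bpar B r) (range (r + 1)) ha h0 h1 hX hω0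
    hg0 hg1 hdisj hA' hb hE
  have hZ1 : (1 : ℝ) ≤ Z r := by exact_mod_cast Z_pos r
  have herr : ∏ j ∈ range (r + 1), (1 + ∑ p ∈ blk j, ω p) ^ bpar B r j
      ≤ (Z r : ℝ) ^ (κ * (4 * B + 4)) := by
    calc ∏ j ∈ range (r + 1), (1 + ∑ p ∈ blk j, ω p) ^ bpar B r j
        ≤ ∏ j ∈ range (r + 1), ((Z j : ℝ) ^ κ) ^ bpar B r j := by
          refine prod_le_prod (fun j _ => ?_) (fun j _ => ?_)
          · have : 0 ≤ ∑ p ∈ blk j, ω p := sum_nonneg fun p _ => hω0 p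
            positivity
          · have : 0 ≤ ∑ p ∈ blk j, ω p := sum_nonneg fun p _ => hω0 p
            gcongr
            exact err_le κ ω hω j
      _ = (2 : ℝ) ^ (κ * ∑ j ∈ range (r + 1), 2 ^ j * (2 * (B + (r - j)))) := by
          rw [mul_sum, ← prod_pow_eq_pow_sum]
          refine prod_congr rfl fun j _ => ?_
          rw [Z, bpar]
          push_cast
          rw [← pow_mul, ← pow_mul]
          congr 1
          ring
      _ ≤ (2 : ℝ) ^ (κ * (2 ^ r * (4 * B + 4))) := by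
          refine pow_le_pow_right₀ (by norm_num) ?_
          exact Nat.mul_le_mul_left _ (weighted_sum_le B r)
      _ = _ := by
          rw [Z]; push_cast; rw [← pow_mul]; congr 1; ring
  have hsum : 1 + ∑ l ∈ range (r + 1), (1 + ∑ p ∈ blk l, ω p) ≤ (Z r : ℝ) ^ (κ + 1) := by
    have e1 : ∑ l ∈ range (r + 1), (1 + ∑ p ∈ blk l, ω p) ≤ ∑ _l ∈ range (r + 1), (Z r : ℝ) ^ κ := by
      refine sum_le_sum fun l hl => (err_le κ ω hω l).trans ?_
      gcongr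
      have := mem_range.mp hl
      exact Z_mono (by omega)
    rw [sum_const, card_range, nsmul_eq_mul] at e1
    have e2 : ((r : ℝ) + 2) ≤ Z r := by
      have h1 : r + 1 ≤ 2 ^ r := Nat.lt_two_pow_self
      have h2 : r + 1 + 1 ≤ 2 ^ (r + 1) := Nat.lt_two_pow_self
      have h3 : 2 ^ (r + 1) ≤ Z r := Nat.pow_le_pow_right (by norm_num) h1
      exact_mod_cast (by omega : r + 2 ≤ Z r)
    have e3 : (1 : ℝ) ≤ (Z r : ℝ) ^ κ := one_le_pow₀ hZ1
    calc 1 + ∑ l ∈ range (r + 1), (1 + ∑ p ∈ blk l, ω p) ≤ (Z r : ℝ) ^ κ + (r + 1 : ℕ) * (Z r : ℝ) ^ κ := by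
          linarith
      _ = (Z r : ℝ) ^ κ * ((r : ℝ) + 2) := by push_cast; ring
      _ ≤ (Z r : ℝ) ^ κ * Z r := by gcongr
      _ = _ := by rw [pow_succ]
  have hsum0 : 0 ≤ 1 + ∑ l ∈ range (r + 1), (1 + ∑ p ∈ blk l, ω p) := by
    have : 0 ≤ ∑ l ∈ range (r + 1), (1 + ∑ p ∈ blk l, ω p) :=
      sum_nonneg fun l _ => add_nonneg zero_le_one (sum_nonneg fun p _ => hω0 p)
    linarith
  have herr0 : 0 ≤ ∏ j ∈ range (r + 1), (1 + ∑ p ∈ blk j, ω p) ^ bpar B r j :=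
    prod_nonneg fun j _ => pow_nonneg (add_nonneg zero_le_one (sum_nonneg fun p _ => hω0 p)) _
  have htot : (∏ j ∈ range (r + 1), (1 + ∑ p ∈ blk j, ω p) ^ bpar B r j)
      * (1 + ∑ l ∈ range (r + 1), (1 + ∑ p ∈ blk l, ω p))
      ≤ (Z r : ℝ) ^ (κ * (4 * B + 4) + (κ + 1)) := by
    rw [pow_add]
    exact mul_le_mul herr hsum hsum0 (by positivity)
  have htot2 : ∏ j ∈ range (r + 1), (1 + ∑ p ∈ blk j, ω p) ^ bpar B r j
      ≤ (Z r : ℝ) ^ (κ * (4 * B + 4) + (κ + 1)) := by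
    refine herr.trans (pow_le_pow_right₀ hZ1 (by omega))
  simp only [hprod]
  exact ⟨by linarith, by linarith⟩

end Pool.Agent.Lib.BrunHooley
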